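import Mathlib

/-!
# Project AZ: exponential deformation of Apery's linear forms in `1, ζ(3)`

Definitions and the statements of the parts of the project (problem `MP_48b3e2_nt`).
-/

set_option autoImplicit false

namespace Pool.Agent.E8helper42.AZ

open MvPolynomial

/-! ### Apery numbers -/

/-- Apery's rational function `((x - 1) ⋯ (x - n) / (x (x + 1) ⋯ (x + n)))²` -/
noncomputable def Rn (n : ℕ) (x : ℝ) : ℝ :=
  ((∏ j ∈ Finset.range n, (x - ((j : ℝ) + 1))) / ∏ j ∈ Finset.range (n + 1), (x + (j : ℝ))) ^ 2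

/-- Apery's linear forms `J_n = - 1/2 ∑_{m ≥ 1} R_n'(m)` -/
noncomputable def Jn (n : ℕ) : ℝ := -(1 / 2) * ∑' m : ℕ, deriv (Rn n) ((m : ℝ) + 1)

/-- `ζ(3)` -/
noncomputable def z3 : ℝ := ∑' m : ℕ, 1 / ((m : ℝ) + 1) ^ 3

/-- the polynomial of Apery's recurrence -/
def cP (n : ℚ) : ℚ := 34 * n ^ 3 + 51 * n ^ 2 + 27 * n + 5

/-- the two rational solutions of Apery's recurrence -/
structure AperyPair (a b : ℕ → ℚ) : Prop where
  a0 : a 0 = 1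
  a1 : a 1 = 5
  b0 : b 0 = 0
  b1 : b 1 = 6
  rec_a : ∀ n : ℕ, ((n : ℚ) + 2) ^ 3 * a (n + 2) - cP ((n : ℚ) + 1) * a (n + 1) + ((n : ℚ) + 1) ^ 3 * a n = 0
  rec_b : ∀ n : ℕ, ((n : ℚ) + 2) ^ 3 * b (n + 2) - cP ((n : ℚ) + 1) * b (n + 1) + ((n : ℚ) + 1) ^ 3 * b n = 0

/-- geometric growth and geometric growth of the common denominators -/
def EFc (c : ℕ → ℚ) : Prop := ∃ C : ℝ, 1 ≤ C ∧ (∀ m, |((c m : ℚ) : ℝ)| ≤ C ^ (m + 1)) ∧
  ∀ m, ∃ d : ℕ, 0 < d ∧ (d : ℝ) ≤ C ^ (m + 1) ∧ ∀ j ≤ m, ∃ z : ℤ, (d : ℚ) * c j = z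

/-- AP: Apery's linear forms -/
def S_AP : Prop := ∃ a b : ℕ → ℚ, AperyPair a b ∧ EFc a ∧ EFc b ∧
  ∀ n, Jn n = (a n : ℝ) * z3 - (b n : ℝ)

/-- the power series `∑ n^j c_n t^n X^n / n!` -/
noncomputable def ser (c : ℕ → ℚ) (t : ℚ) (j : ℕ) : PowerSeries ℚ :=
  PowerSeries.mk fun n => (n : ℚ) ^ j * c n * t ^ n / (n.factorial : ℚ)

/-- the number `∑ n^j c_n t^n / n!` -/
noncomputable def val (c : ℕ → ℚ) (t : ℚ) (j : ℕ) : ℝ :=
  ∑' n : ℕ, (n : ℝ) ^ j * (c n : ℝ) * (t : ℝ) ^ n / (n.factorial : ℝ)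

/-- the functions of the system: `A`, `B` and their first three derivatives at the points of `T` -/
noncomputable def fam (a b : ℕ → ℚ) (T : Finset ℚ) (s : (T × Fin 4) ⊕ (T × Fin 4)) : PowerSeries ℚ :=
  s.elim (fun p => ser a p.1 p.2) (fun p => ser b p.1 p.2)

/-- their values -/
noncomputable def vals (a b : ℕ → ℚ) (T : Finset ℚ) (s : (T × Fin 4) ⊕ (T × Fin 4)) : ℝ :=
  s.elim (fun p => val a p.1 p.2) (fun p => val b p.1 p.2)

/-- SS: application of the theorem of Siegel and Shidlovskii -/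
def S_SS : Prop := ∀ a b : ℕ → ℚ, AperyPair a b → EFc a → EFc b → ∀ T : Finset ℚ, (∀ t ∈ T, t ≠ 0) →
  AlgebraicIndependent (Polynomial ℚ) (fam a b T) → AlgebraicIndependent ℚ (vals a b T)

/-- `I_j(t) = ∑ n^j J_n t^n / n!` -/
noncomputable def Ij (j : ℕ) (t : ℚ) : ℝ := ∑' n : ℕ, (n : ℝ) ^ j * Jn n * (t : ℝ) ^ n / (n.factorial : ℝ)

/-- FIN: the end of the proof. For a finite set `S` of pairs `(j, t)`, `j < 4`, `t > 0`, there are `|S|` algebraically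
independent elements among the numbers `ζ(3)` and `I_j(t)`, `(j, t) ∈ S`. (`I_j(t) = ζ(3) A_j(t) - B_j(t)`.) -/
def S_FIN : Prop := S_AP →
  (∀ a b : ℕ → ℚ, AperyPair a b → EFc a → EFc b → ∀ T : Finset ℚ, (∀ t ∈ T, 0 < t) →
    AlgebraicIndependent ℚ (vals a b T)) →
  Ij 0 0 = z3 ∧
  (∀ S : Finset (ℕ × ℚ), (∀ p ∈ S, p.1 < 4 ∧ 0 < p.2) →
    (S.card : Cardinal) ≤ Algebra.trdeg ℚ
      (IntermediateField.adjoin ℚ ({z3} ∪ (fun p : ℕ × ℚ => Ij p.1 p.2) '' (S : Set (ℕ × ℚ))))) ∧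
  -- at most one algebraic number
  (∀ x y : Option {p : ℕ × ℚ // p.1 < 4 ∧ 0 < p.2},
    IsAlgebraic ℚ (x.elim z3 (fun p => Ij p.1.1 p.1.2)) → IsAlgebraic ℚ (y.elim z3 (fun p => Ij p.1.1 p.1.2)) → x = y) ∧
  -- the alternative
  (IsAlgebraic ℚ z3 → AlgebraicIndependent ℚ (fun p : {p : ℕ × ℚ // p.1 < 4 ∧ 0 < p.2} => Ij p.1.1 p.1.2))

/-- the function of Beukers' integral -/
noncomputable def beu (x y z : ℝ) : ℝ := x * y * z * (1 - x) * (1 - y) * (1 - z) / (1 - (1 - x * y) * z)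

/-- BEU: Beukers' triple integral -/
def S_BEU : Prop := (∀ n : ℕ, ∫ p : ℝ × ℝ × ℝ in Set.Ioo 0 1 ×ˢ Set.Ioo 0 1 ×ˢ Set.Ioo 0 1,
    beu p.1 p.2.1 p.2.2 ^ n / (1 - (1 - p.1 * p.2.1) * p.2.2) = 2 * Jn n) ∧
  ∀ (j : ℕ) (t : ℚ), ∫ p : ℝ × ℝ × ℝ in Set.Ioo 0 1 ×ˢ Set.Ioo 0 1 ×ˢ Set.Ioo 0 1,
    (∑' n : ℕ, (n : ℝ) ^ j * ((t : ℝ) * beu p.1 p.2.1 p.2.2) ^ n / (n.factorial : ℝ)) /
      (1 - (1 - p.1 * p.2.1) * p.2.2) = 2 * Ij j t

/-! ### Differential algebra -/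

/-- a differentially simple ring with constants `ℂ` -/
structure DSimple {R : Type} [CommRing R] [Algebra ℂ R] (θ : Derivation ℂ R R) : Prop where
  simple : ∀ I : Ideal R, I ≠ ⊥ → (∀ a ∈ I, θ a ∈ I) → I = ⊤
  const : ∀ a : R, θ a = 0 → ∃ c : ℂ, a = algebraMap ℂ R c

/-- STAR: stable submodules are generated by constants -/
def S_STAR : Prop := ∀ (R : Type) [CommRing R] [IsDomain R] [Algebra ℂ R] (θ : Derivation ℂ R R), DSimple θ →
  ∀ (κ : Type) (W : Submodule R (κ →₀ R)),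
    (∀ w ∈ W, w.mapRange θ (map_zero θ) ∈ W) →
    ∀ w ∈ W, w ∈ Submodule.span R {u : κ →₀ R | u ∈ W ∧ ∀ k, ∃ c : ℂ, u k = algebraMap ℂ R c}

/-- LA: a Lie algebra of matrices with a regular nilpotent element and a projection of rank one -/
def S_LA : Prop := ∀ (n : ℕ) (F K K₀ : Type) [Field F] [CharZero F] [Field K] [Algebra F K] [Field K₀] [Algebra F K₀]
  (h : Submodule F (Matrix (Fin n) (Fin n) F)),
  (∀ M ∈ h, ∀ M' ∈ h, M * M' - M' * M ∈ h) →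
  (∀ U : Submodule F (Fin n → F), (∀ M ∈ h, ∀ u ∈ U, M.mulVec u ∈ U) → U = ⊥ ∨ U = ⊤) →
  (∃ N ∈ Submodule.span K₀ ((fun M : Matrix (Fin n) (Fin n) F => M.map (algebraMap F K₀)) '' (h : Set _)),
    N ^ n = 0 ∧ N ^ (n - 1) ≠ 0) →
  (∃ f φ : Fin n → K, φ ⬝ᵥ f = 1 ∧ Matrix.vecMulVec f φ ∈
    Submodule.span K ((fun M : Matrix (Fin n) (Fin n) F => M.map (algebraMap F K)) '' (h : Set _))) →
  h = ⊤

/-- the affine Lie algebra (pairs of a matrix and a vector), one for each `i` -/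
abbrev Aff (ι : Type) (n : ℕ) (S : Type) := ι → (Matrix (Fin n) (Fin n) S × (Fin n → S))

/-- its bracket -/
def br {ι : Type} {n : ℕ} {S : Type} [CommRing S] (x y : Aff ι n S) : Aff ι n S :=
  fun i => ((x i).1 * (y i).1 - (y i).1 * (x i).1, (x i).1.mulVec (y i).2 - (y i).1.mulVec (x i).2)

/-- change of rings -/
def amap {ι : Type} {n : ℕ} {S S' : Type} (f : S → S') (x : Aff ι n S) : Aff ι n S' :=
  fun i => ((x i).1.map f, f ∘ (x i).2)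

/-- the connection -/
def nab {ι : Type} {n : ℕ} {F : Type} [CommRing F] (θ : F → F) (A : ι → Matrix (Fin n) (Fin n) F) (g : ι → Fin n → F)
    (x : Aff ι n F) : Aff ι n F :=
  fun i => ((x i).1.map θ + (x i).1 * A i - A i * (x i).1,
    θ ∘ (x i).2 - (A i).mulVec (x i).2 + (x i).1.mulVec (g i))

/-- ML: several blocks -/
def S_ML : Prop := ∀ (n : ℕ) (ι : Type) [Fintype ι] [DecidableEq ι] (F K : Type) [Field F] [CharZero F] [Field K] [Algebra F K]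
  (θ : Derivation ℤ F F) (A : ι → Matrix (Fin n) (Fin n) F) (g : ι → Fin n → F) (h : Submodule F (Aff ι n F)),
  2 ≤ n →
  (∀ x ∈ h, ∀ y ∈ h, br x y ∈ h) →
  (∀ x ∈ h, nab θ A g x ∈ h) →
  (∀ (i : ι) (M : Matrix (Fin n) (Fin n) F), ∃ x ∈ h, (x i).1 = M) →
  (∃ (t : ι → ℚ) (f φ b : ι → Fin n → K), (∀ i, 0 < t i) ∧ Function.Injective t ∧ (∀ i, φ i ⬝ᵥ f i = 1) ∧
    (fun i => ((t i : K) • Matrix.vecMulVec (f i) (φ i), -((t i : K) • (Matrix.vecMulVec (f i) (φ i)).mulVec (b i))) :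
      Aff ι n K) ∈ Submodule.span K (amap (algebraMap F K) '' (h : Set (Aff ι n F)))) →
  (∀ i, ¬ ∃ b : Fin n → F, θ ∘ b = (A i).mulVec b + g i) →
  ∀ x : Aff ι n F, (∀ i, (x i).1.trace = 0) → x ∈ h

/-- the variables -/
abbrev Vr (ι : Type) (n : ℕ) := (ι × Fin n) ⊕ (ι × Fin n)

/-- the derivation of `S[X, Y]` with `X_i ↦ M_i X_i`, `Y_i ↦ M_i Y_i + v_i` -/
noncomputable def Del {ι : Type} {n : ℕ} {S : Type} [CommRing S] (x : Aff ι n S) :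
    Derivation S (MvPolynomial (Vr ι n) S) (MvPolynomial (Vr ι n) S) :=
  mkDerivation S (Sum.elim (fun p => ∑ c, C ((x p.1).1 p.2 c) * X (Sum.inl (p.1, c)))
    (fun p => ∑ c, C ((x p.1).1 p.2 c) * X (Sum.inr (p.1, c)) + C ((x p.1).2 p.2)))

/-- `Q` is obtained from `P` by applying `θ` to the coefficients -/
def IsCoef {σ S : Type} [CommRing S] (θ : S → S) (P Q : MvPolynomial σ S) : Prop := ∀ m, coeff m Q = θ (coeff m P)

/-- KT: the Lie algebra of a stable ideal contains the matrices `δ(Φ) Φ⁻¹` -/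
def S_KT : Prop := S_STAR → ∀ (ι : Type) [Fintype ι] [DecidableEq ι] (n : ℕ) (F R : Type) [Field F] [Algebra ℂ F] [CommRing R]
  [IsDomain R] [Algebra ℂ R] [Algebra F R] [IsScalarTower ℂ F R]
  (θF : Derivation ℂ F F) (θ δ : Derivation ℂ R R),
  (∀ a, θ (algebraMap F R a) = algebraMap F R (θF a)) → DSimple θ → (∀ a, δ (algebraMap F R a) = 0) →
  ∀ (p : Ideal (MvPolynomial (Vr ι n) F)) (A : ι → Matrix (Fin n) (Fin n) F) (g : ι → Fin n → F),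
  (∀ P ∈ p, ∀ Q, IsCoef θF P Q → Q + Del (fun i => (A i, g i)) P ∈ p) →
  ∀ (Φ Ψ : ι → Matrix (Fin n) (Fin n) R) (b : ι → Fin n → R), (∀ i, Φ i * Ψ i = 1) →
  (∀ i, (Φ i).map θ = (A i).map (algebraMap F R) * Φ i) →
  (∀ i, θ ∘ (b i) = ((A i).map (algebraMap F R)).mulVec (b i) + algebraMap F R ∘ (g i)) →
  (fun i => ((Φ i).map δ * Ψ i, δ ∘ (b i) - ((Φ i).map δ * Ψ i).mulVec (b i)) : Aff ι n R) ∈
    Submodule.span R (amap (algebraMap F R) '' {x : Aff ι n F | ∀ P ∈ p, Del x P ∈ p})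

/-- ID: a prime ideal stable under the Lie algebra of all matrices of trace zero and all translations -/
def S_ID : Prop := ∀ (ι : Type) [Fintype ι] [DecidableEq ι] (n : ℕ) (F : Type) [Field F] [CharZero F]
  (p : Ideal (MvPolynomial (Vr ι n) F)), p.IsPrime →
  (∀ i, ∃ c c' : Fin n, c ≠ c' ∧ X (Sum.inl (i, c)) ∉ p ∧ X (Sum.inl (i, c')) ∉ p) →
  (∀ x : Aff ι n F, (∀ i, (x i).1.trace = 0) → ∀ P ∈ p, Del x P ∈ p) → p = ⊥

/-- FUN: the functions are algebraically independent -/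
def S_FUN : Prop := ∀ a b : ℕ → ℚ, AperyPair a b → ∀ T : Finset ℚ, (∀ t ∈ T, 0 < t) →
  AlgebraicIndependent (Polynomial ℚ) (fam a b T)

end Pool.Agent.E8helper42.AZ
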