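import Mathlib
import Pool.Agent.E8helper42.AZ.Stm

/-!
# Hahn series over `ℝ ×ₗ ℤ` with coefficients in `ℂ[ℓ]`, their derivations
-/

set_option autoImplicit false

namespace Pool.Agent.E8helper42.AZ

open Polynomial

/-- exponents: `(γ, k)` stands for `exp (-γ z) x ^ (k / 2)` -/
abbrev Gam := ℝ ×ₗ ℤ

/-- the ring of Hahn series -/
abbrev RR := HahnSeries Gam ℂ[X]

/-- the coefficientwise map `p ↦ e p' + χ(g) p` -/
noncomputable def cwf (e : ℂ) (χ : Gam →+ ℂ) (a : RR) : RR where
  coeff g := C e * derivative (a.coeff g) + C (χ g) * a.coeff g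
  isPWO_support' := a.isPWO_support.mono (by
    intro g hg
    rw [Function.mem_support] at hg
    rw [HahnSeries.mem_support]
    intro h
    apply hg
    rw [h]
    simp)

@[simp] lemma cwf_coeff (e : ℂ) (χ : Gam →+ ℂ) (a : RR) (g : Gam) :
    (cwf e χ a).coeff g = C e * derivative (a.coeff g) + C (χ g) * a.coeff g := rfl

lemma cwf_support (e : ℂ) (χ : Gam →+ ℂ) (a : RR) : (cwf e χ a).support ⊆ a.support := by
  intro g hg
  rw [HahnSeries.mem_support] at hg ⊢
  intro h
  apply hg
  rw [cwf_coeff, h]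
  simp

lemma cwf_mul (e : ℂ) (χ : Gam →+ ℂ) (a b : RR) : cwf e χ (a * b) = a * cwf e χ b + b * cwf e χ a := by
  ext1
  funext g
  rw [mul_comm b, HahnSeries.coeff_add, cwf_coeff, HahnSeries.coeff_mul,
    HahnSeries.coeff_mul_left' a.isPWO_support (cwf_support e χ a),
    HahnSeries.coeff_mul_right' b.isPWO_support (cwf_support e χ b), ← Finset.sum_add_distrib,
    map_sum, Finset.mul_sum, Finset.mul_sum, ← Finset.sum_add_distrib]
  refine Finset.sum_congr rfl fun ij hij => ?_
  have h : ij.1 + ij.2 = g := by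
    have := (Finset.mem_antidiagonal.1 hij).2.2
    exact this
  rw [cwf_coeff, cwf_coeff, ← h, map_add, map_add, derivative_mul]
  ring

/-- the coefficientwise derivation -/
noncomputable def cw (e : ℂ) (χ : Gam →+ ℂ) : Derivation ℂ RR RR :=
  Derivation.mk' { toFun := cwf e χ
                   map_add' := by
                    intro a b
                    ext1
                    funext g
                    simp only [cwf_coeff, HahnSeries.coeff_add, derivative_add]
                    ring
                   map_smul' := by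
                    intro c a
                    ext1
                    funext g
                    simp only [cwf_coeff, HahnSeries.coeff_smul, RingHom.id_apply, derivative_smul, mul_smul_comm, smul_add] }
    (fun a b => by
      show cwf e χ (a * b) = a • cwf e χ b + b • cwf e χ a
      rw [cwf_mul]; rfl)

@[simp] lemma cw_coeff (e : ℂ) (χ : Gam →+ ℂ) (a : RR) (g : Gam) :
    (cw e χ a).coeff g = C e * derivative (a.coeff g) + C (χ g) * a.coeff g := rfl


/-- data of a derivation `θ` -/
structure Dat where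
  /-- the order of `z` -/
  g₀ : Gam
  χ₁ : Gam →+ ℂ
  χ₂ : Gam →+ ℂ
  h0 : χ₂ g₀ = 0
  h1 : ∀ g : Gam, 0 < g → χ₂ g ≠ 0 → 0 < g + g₀
  h2 : ∀ g : Gam, χ₂ g ≠ 0 → g₀ < 0
  h3 : ∀ g : Gam, χ₂ g = 0 → χ₁ g = 0 → g = 0
  h4 : χ₁ g₀ = 1

/-- `z` -/
noncomputable def Dat.z (d : Dat) : RR := HahnSeries.single d.g₀ 1

/-- the derivation `θ` -/
noncomputable def Dat.th (d : Dat) : Derivation ℂ RR RR := cw 1 d.χ₁ + d.z • cw 0 d.χ₂

lemma Dat.coeff_th (d : Dat) (a : RR) (g : Gam) : (d.th a).coeff g =
    derivative (a.coeff g) + C (d.χ₁ g) * a.coeff g + C (d.χ₂ g) * a.coeff (g - d.g₀) := by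
  have h : d.th a = cw 1 d.χ₁ a + d.z * cw 0 d.χ₂ a := rfl
  rw [h, HahnSeries.coeff_add, cw_coeff, Dat.z, HahnSeries.coeff_single_mul, cw_coeff, map_sub, d.h0]
  simp

/-- smallest exponent -/
lemma coeff_lt_order {a : RR} {g : Gam} (h : g < a.order) : a.coeff g = 0 := HahnSeries.coeff_eq_zero_of_lt_order h

lemma algebraMap_coeff (c : ℂ) (g : Gam) : (algebraMap ℂ RR c).coeff g = if g = 0 then C c else 0 := by
  rw [HahnSeries.algebraMap_apply, HahnSeries.C_apply, HahnSeries.coeff_single]
  split_ifs <;> rfl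

lemma derivative_eq_zero_iff' {p : ℂ[X]} (h : derivative p = 0) : ∃ c : ℂ, p = C c :=
  ⟨p.coeff 0, Polynomial.eq_C_of_natDegree_eq_zero ((Polynomial.derivative_eq_zero.1 h))⟩

lemma poly_ode {p : ℂ[X]} {c : ℂ} (hp : p ≠ 0) (h : derivative p + C c * p = 0) : c = 0 ∧ derivative p = 0 := by
  have hc : c = 0 := by
    by_contra hc
    have h1 : (C c * p).degree = p.degree := by
      rw [degree_mul, degree_C hc, zero_add]
    have h2 : C c * p = - derivative p := by linear_combination h
    have h3 : (derivative p).degree < p.degree := Polynomial.degree_derivative_lt hp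
    rw [h2, degree_neg] at h1
    exact absurd h1 h3.ne
  refine ⟨hc, ?_⟩
  rw [hc] at h
  simpa using h

lemma Dat.order_zero (d : Dat) {a : RR} (ha : a ≠ 0) (h : d.th a = 0) :
    a.order = 0 ∧ ∃ c : ℂ, a.coeff 0 = C c := by
  set g := a.order with hg
  have hne : a.coeff g ≠ 0 := HahnSeries.coeff_order_eq_zero.not.2 ha
  have hχ : d.χ₂ g = 0 := by
    by_contra hχ
    have h2 := d.h2 g hχ
    have h3 := d.coeff_th a (g + d.g₀)
    rw [h, add_sub_cancel_right, coeff_lt_order (a := a) (g := g + d.g₀) (by rw [← hg]; exact add_lt_of_neg_right g h2),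
      map_add d.χ₂, d.h0, add_zero] at h3
    simp only [HahnSeries.coeff_zero, derivative_zero, mul_zero, zero_add] at h3
    exact (mul_ne_zero (C_ne_zero.2 hχ) hne) h3.symm
  have h3 := d.coeff_th a g
  rw [h, hχ] at h3
  simp only [HahnSeries.coeff_zero, map_zero, zero_mul, add_zero] at h3
  obtain ⟨h4, h5⟩ := poly_ode hne h3.symm
  have h6 := d.h3 g hχ h4
  refine ⟨h6, ?_⟩
  rw [← h6]
  exact derivative_eq_zero_iff' h5

lemma Dat.const (d : Dat) {a : RR} (h : d.th a = 0) : ∃ c : ℂ, a = algebraMap ℂ RR c := by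
  by_cases ha : a = 0
  · exact ⟨0, by rw [ha, map_zero]⟩
  obtain ⟨h1, c, hc⟩ := d.order_zero ha h
  refine ⟨c, ?_⟩
  by_contra hne
  have hb : a - algebraMap ℂ RR c ≠ 0 := sub_ne_zero.2 hne
  have hth : d.th (a - algebraMap ℂ RR c) = 0 := by
    rw [map_sub, h, Derivation.map_algebraMap, sub_zero]
  obtain ⟨h2, _⟩ := d.order_zero hb hth
  have h3 := HahnSeries.coeff_order_eq_zero.not.2 hb
  rw [h2, HahnSeries.coeff_sub, hc, algebraMap_coeff, if_pos rfl, sub_self] at h3
  exact h3 rfl

lemma Dat.unit_mem (d : Dat) (I : Ideal RR) (hθ : ∀ a ∈ I, d.th a ∈ I) :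
    ∀ (n : ℕ) (a : RR), a ∈ I → a ≠ 0 → a.order = 0 → (a.coeff 0).natDegree = n → I = ⊤ := by
  intro n
  induction n with
  | zero =>
    intro a ha ha0 ho hn
    have h1 : a.leadingCoeff = a.coeff 0 := by
      rw [HahnSeries.leadingCoeff_eq, ho]
    have h2 : a.coeff 0 ≠ 0 := by rw [← ho]; exact HahnSeries.coeff_order_eq_zero.not.2 ha0
    refine Ideal.eq_top_of_isUnit_mem I ha (HahnSeries.isUnit_iff.2 ?_)
    rw [h1, Polynomial.eq_C_of_natDegree_eq_zero hn, Polynomial.isUnit_C, isUnit_iff_ne_zero]
    intro h3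
    apply h2
    rw [Polynomial.eq_C_of_natDegree_eq_zero hn, h3, map_zero]
  | succ n ih =>
    intro a ha ha0 ho hn
    have hc0 : (d.th a).coeff 0 = derivative (a.coeff 0) := by
      rw [d.coeff_th, map_zero, map_zero]
      simp
    have hne : derivative (a.coeff 0) ≠ 0 := by
      intro h
      have := (Polynomial.derivative_eq_zero.1 h)
      omega
    have hlt : ∀ g < (0 : Gam), (d.th a).coeff g = 0 := by
      intro g hg
      have h1 : a.coeff g = 0 := coeff_lt_order (by rw [ho]; exact hg)
      rw [d.coeff_th, h1]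
      simp only [derivative_zero, mul_zero, zero_add]
      by_cases h2 : d.χ₂ g = 0
      · rw [h2]; simp
      · have h3 : a.coeff (g - d.g₀) = 0 := by
          apply coeff_lt_order
          rw [ho]
          by_contra h4
          rw [not_lt] at h4
          have h5 : g - d.g₀ ≠ 0 := by
            intro h6
            apply h2
            have : d.χ₂ (g - d.g₀) = 0 := by rw [h6, map_zero]
            rw [map_sub, d.h0, sub_zero] at this
            exact this
          have h6 : 0 < g - d.g₀ := lt_of_le_of_ne h4 h5.symm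
          have h7 := d.h1 _ h6 (by rw [map_sub, d.h0, sub_zero]; exact h2)
          rw [sub_add_cancel] at h7
          exact absurd h7 hg.le.not_gt
        rw [h3, mul_zero]
    have hth0 : d.th a ≠ 0 := by
      intro h
      rw [h] at hc0
      exact hne hc0.symm
    have ho' : (d.th a).order = 0 := by
      apply le_antisymm
      · exact HahnSeries.order_le_of_coeff_ne_zero (by rw [hc0]; exact hne)
      · by_contra h
        rw [not_le] at h
        exact (HahnSeries.coeff_order_eq_zero.not.2 hth0) (hlt _ h)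
    exact ih (d.th a) (hθ a ha) hth0 ho' (by
      rw [hc0, Polynomial.natDegree_derivative, hn]
      omega)

theorem Dat.dsimple (d : Dat) : DSimple d.th where
  simple := by
    intro I hI hθ
    obtain ⟨a, ha, ha0⟩ := Submodule.exists_mem_ne_zero_of_ne_bot hI
    set u : RR := HahnSeries.single (-a.order) 1 with hu
    have hu0 : u ≠ 0 := HahnSeries.single_ne_zero one_ne_zero
    have h1 : u * a ≠ 0 := mul_ne_zero hu0 ha0
    have h2 : (u * a).order = 0 := by
      rw [HahnSeries.order_mul hu0 ha0, hu, HahnSeries.order_single one_ne_zero, neg_add_cancel]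
    exact d.unit_mem I hθ _ (u * a) (I.mul_mem_left _ ha) h1 h2 rfl
  const := fun a h => d.const h

end Pool.Agent.E8helper42.AZ
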