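import Mathlib
import Pool.Agent.E8helper42.AZ.Hahn
import Pool.Agent.H585R2.DiffC

/-!
# Rational functions as Hahn series
-/

set_option autoImplicit false

namespace Pool.Agent.E8helper42.AZ

open Polynomial

/-- the field of rational functions -/
abbrev FF := RatFunc ℂ

/-- `z d/dz` -/
noncomputable def thF : Derivation ℂ FF FF := (RatFunc.X : FF) • H585R2.DiffC.ddt

lemma thF_poly (p : ℂ[X]) : thF (algebraMap ℂ[X] FF p) = algebraMap ℂ[X] FF (X * derivative p) := by
  show RatFunc.X * H585R2.DiffC.ddt (algebraMap ℂ[X] FF p) = _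
  rw [H585R2.DiffC.D_poly _ H585R2.DiffC.ddt_X, map_mul, RatFunc.algebraMap_X]

variable (d : Dat)

lemma Dat.th_z : d.th d.z = d.z := by
  ext1
  funext g
  rw [d.coeff_th, Dat.z, HahnSeries.coeff_single, HahnSeries.coeff_single]
  by_cases h : g = d.g₀
  · subst h
    simp [d.h0, d.h4]
  · rw [if_neg h]
    by_cases h2 : g - d.g₀ = d.g₀
    · have h3 : d.χ₂ g = 0 := by
        have : g = d.g₀ + d.g₀ := sub_eq_iff_eq_add.1 h2
        rw [this, map_add, d.h0, add_zero]
      rw [h3]; simp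
    · rw [if_neg h2]; simp

lemma Dat.g₀_ne : d.g₀ ≠ 0 := by
  intro h
  have := d.h4
  rw [h, map_zero] at this
  exact zero_ne_one this

lemma Dat.nsmul_inj {m n : ℕ} (h : m • d.g₀ = n • d.g₀) : m = n := by
  have h1 := congrArg d.χ₁ h
  rw [map_nsmul, map_nsmul, d.h4] at h1
  simpa using h1

lemma Dat.z_pow (n : ℕ) : d.z ^ n = HahnSeries.single (n • d.g₀) 1 := by
  induction n with
  | zero => rw [pow_zero, zero_smul]; rfl
  | succ n ih => rw [pow_succ, ih, Dat.z, HahnSeries.single_mul_single, one_mul, succ_nsmul]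

lemma Dat.coeff_aeval (p : ℂ[X]) (g : Gam) : (aeval d.z p).coeff g =
    ∑ n ∈ Finset.range (p.natDegree + 1), if g = n • d.g₀ then C (p.coeff n) else 0 := by
  rw [aeval_eq_sum_range, HahnSeries.coeff_sum]
  refine Finset.sum_congr rfl fun n _ => ?_
  rw [HahnSeries.coeff_smul, d.z_pow, HahnSeries.coeff_single]
  split_ifs
  · rw [Polynomial.smul_eq_C_mul, mul_one]
  · rw [smul_zero]

lemma Dat.coeff_aeval_nsmul (p : ℂ[X]) (n : ℕ) : (aeval d.z p).coeff (n • d.g₀) = C (p.coeff n) := by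
  rw [d.coeff_aeval]
  by_cases hn : n ∈ Finset.range (p.natDegree + 1)
  · rw [Finset.sum_eq_single n, if_pos rfl]
    · intro m _ hm
      rw [if_neg fun h => hm (d.nsmul_inj h).symm]
    · intro h; exact absurd hn h
  · rw [Finset.sum_eq_zero, Polynomial.coeff_eq_zero_of_natDegree_lt, map_zero]
    · rw [Finset.mem_range] at hn; omega
    · intro m hm
      rw [if_neg]
      intro h
      exact hn (d.nsmul_inj h ▸ hm)

lemma Dat.coeff_aeval_C (p : ℂ[X]) (g : Gam) : ∃ c : ℂ, (aeval d.z p).coeff g = C c := by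
  rw [d.coeff_aeval]
  refine ⟨∑ n ∈ Finset.range (p.natDegree + 1), if g = n • d.g₀ then p.coeff n else 0, ?_⟩
  rw [map_sum]
  refine Finset.sum_congr rfl fun n _ => ?_
  split_ifs <;> simp

lemma Dat.aeval_ne {p : ℂ[X]} (hp : p ≠ 0) : aeval d.z p ≠ 0 := by
  intro h
  apply hp
  ext n
  have h1 := d.coeff_aeval_nsmul p n
  rw [h, HahnSeries.coeff_zero] at h1
  rw [coeff_zero]
  exact (C_eq_zero.1 h1.symm)

lemma Dat.isUnit_aeval {p : ℂ[X]} (hp : p ≠ 0) : IsUnit (aeval d.z p) := by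
  rw [HahnSeries.isUnit_iff, HahnSeries.leadingCoeff_eq]
  obtain ⟨c, hc⟩ := d.coeff_aeval_C p (aeval d.z p).order
  rw [hc, Polynomial.isUnit_C, isUnit_iff_ne_zero]
  rintro rfl
  rw [map_zero] at hc
  exact d.aeval_ne hp (HahnSeries.coeff_order_eq_zero.1 hc)

/-- rational functions as Hahn series -/
noncomputable def Dat.emb : FF →+* RR :=
  IsLocalization.lift (M := nonZeroDivisors ℂ[X]) (g := (aeval d.z).toRingHom)
    (fun y => d.isUnit_aeval (nonZeroDivisors.ne_zero y.2))

lemma Dat.emb_poly (p : ℂ[X]) : d.emb (algebraMap ℂ[X] FF p) = aeval d.z p := by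
  rw [Dat.emb, IsLocalization.lift_eq]
  rfl

lemma Dat.th_poly (p : ℂ[X]) : d.th (aeval d.z p) = aeval d.z (X * derivative p) := by
  induction p using Polynomial.induction_on' with
  | add p q hp hq => rw [map_add, map_add, hp, hq, derivative_add, mul_add, map_add]
  | monomial n a =>
    rw [← C_mul_X_pow_eq_monomial, map_mul, map_pow, aeval_X, aeval_C, Derivation.leibniz, Derivation.leibniz_pow,
      Derivation.map_algebraMap, d.th_z, derivative_mul, derivative_C, derivative_X_pow]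
    simp only [smul_eq_mul, map_mul, aeval_X, aeval_C, map_pow, zero_mul, zero_add, mul_zero,
      add_zero, nsmul_eq_mul, map_natCast]
    cases n with
    | zero => simp
    | succ n =>
      rw [Nat.add_sub_cancel]
      push_cast
      ring

lemma Dat.emb_th (f : FF) : d.th (d.emb f) = d.emb (thF f) := by
  obtain ⟨p, q, hq, rfl⟩ := H585R2.DiffC.exists_div f
  set P := algebraMap ℂ[X] FF p with hP
  set Q := algebraMap ℂ[X] FF q with hQ
  have hQ0 : Q ≠ 0 := H585R2.DiffC.am_ne hq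
  have h0 : d.emb Q * d.emb (P / Q) = d.emb P := by
    rw [← map_mul, mul_div_cancel₀ _ hQ0]
  have h1 := congrArg d.th h0
  rw [Derivation.leibniz, smul_eq_mul, smul_eq_mul, hP, hQ, d.emb_poly, d.emb_poly, d.th_poly, d.th_poly,
    ← d.emb_poly, ← d.emb_poly, ← d.emb_poly, ← thF_poly, ← thF_poly, ← hP, ← hQ] at h1
  have h2 : Q * (P / Q) = P := mul_div_cancel₀ _ hQ0
  have h3 := congrArg thF h2
  rw [Derivation.leibniz, smul_eq_mul, smul_eq_mul] at h3
  have h4 := congrArg d.emb h3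
  rw [map_add, map_mul, map_mul] at h4
  have h5 : d.emb Q ≠ 0 := by
    rw [hQ, d.emb_poly]; exact d.aeval_ne hq
  apply mul_left_cancel₀ h5
  linear_combination h1 - h4

lemma Dat.emb_algebraMap (c : ℂ) : d.emb (algebraMap ℂ FF c) = algebraMap ℂ RR c := by
  rw [IsScalarTower.algebraMap_apply ℂ ℂ[X] FF, d.emb_poly, Polynomial.algebraMap_apply]
  simp

end Pool.Agent.E8helper42.AZ
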