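import Mathlib
import Pool.Agent.E8helper42.AZ.Emb

/-!
# The two derivations; series with one exponential factor
-/

set_option autoImplicit false

namespace Pool.Agent.E8helper42.AZ

open Polynomial

/-- first component of the exponent -/
noncomputable def p1 : Gam →+ ℝ where
  toFun g := (ofLex g).1
  map_zero' := rfl
  map_add' _ _ := rfl

/-- second component of the exponent -/
def p2 : Gam →+ ℤ where
  toFun g := (ofLex g).2
  map_zero' := rfl
  map_add' _ _ := rfl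

lemma gam_ext {g h : Gam} (h1 : p1 g = p1 h) (h2 : p2 g = p2 h) : g = h :=
  ofLex.injective (Prod.ext h1 h2)

lemma gam_lt {g h : Gam} : g < h ↔ p1 g < p1 h ∨ (p1 g = p1 h ∧ p2 g < p2 h) := Prod.Lex.lt_iff

/-- the exponent `(γ, k)` -/
def mk (γ : ℝ) (k : ℤ) : Gam := toLex (γ, k)

@[simp] lemma p1_mk (γ : ℝ) (k : ℤ) : p1 (mk γ k) = γ := rfl
@[simp] lemma p2_mk (γ : ℝ) (k : ℤ) : p2 (mk γ k) = k := rfl

/-- the data at infinity -/
noncomputable def dI : Dat where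
  g₀ := mk 0 (-2)
  χ₁ := (AddMonoidHom.mulLeft (-1 / 2 : ℂ)).comp ((Int.castAddHom ℂ).comp p2)
  χ₂ := (AddMonoidHom.mulLeft (-1 : ℂ)).comp ((Complex.ofRealHom : ℝ →+* ℂ).toAddMonoidHom.comp p1)
  h0 := by simp
  h1 := by
    intro g hg h
    have hγ : p1 g ≠ 0 := by
      intro h0; apply h; simp [h0]
    rw [gam_lt] at hg ⊢
    simp only [map_zero, map_add, p1_mk, p2_mk, add_zero] at hg ⊢
    rcases hg with h1 | h1
    · exact Or.inl h1
    · exact absurd h1.1.symm hγ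
  h2 := by
    intro g _
    rw [gam_lt]
    right
    simp
  h3 := by
    intro g h h'
    apply gam_ext
    · have : ((p1 g : ℝ) : ℂ) = 0 := by simpa using h
      rw [map_zero]
      exact_mod_cast this
    · have : ((p2 g : ℤ) : ℂ) = 0 := by simpa using h'
      rw [map_zero]
      exact_mod_cast this
  h4 := by simp

@[simp] lemma dI_χ₁ (g : Gam) : dI.χ₁ g = -1 / 2 * ((p2 g : ℤ) : ℂ) := rfl
@[simp] lemma dI_χ₂ (g : Gam) : dI.χ₂ g = -1 * ((p1 g : ℝ) : ℂ) := rfl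
@[simp] lemma dI_g₀ : dI.g₀ = mk 0 (-2) := rfl

/-- the data at zero -/
noncomputable def d0 : Dat where
  g₀ := mk 0 2
  χ₁ := (AddMonoidHom.mulLeft (1 / 2 : ℂ)).comp ((Int.castAddHom ℂ).comp p2) +
    (AddMonoidHom.mulLeft Complex.I).comp ((Complex.ofRealHom : ℝ →+* ℂ).toAddMonoidHom.comp p1)
  χ₂ := 0
  h0 := by simp
  h1 := by
    intro g hg h
    simp at h
  h2 := by
    intro g h
    simp at h
  h3 := by
    intro g h h'
    have h1 : (1 / 2 : ℂ) * ((p2 g : ℤ) : ℂ) + Complex.I * ((p1 g : ℝ) : ℂ) = 0 := h'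
    apply gam_ext
    · have := congrArg Complex.im h1
      simp at this
      rw [map_zero]; exact this
    · have := congrArg Complex.re h1
      simp at this
      rw [map_zero]; exact this
  h4 := by
    show (1 / 2 : ℂ) * ((2 : ℤ) : ℂ) + Complex.I * ((0 : ℝ) : ℂ) = 1
    push_cast; ring

@[simp] lemma d0_χ₁ (g : Gam) : d0.χ₁ g = 1 / 2 * ((p2 g : ℤ) : ℂ) + Complex.I * ((p1 g : ℝ) : ℂ) := rfl
@[simp] lemma d0_χ₂ (g : Gam) : d0.χ₂ g = 0 := rfl
@[simp] lemma d0_g₀ : d0.g₀ = mk 0 2 := rfl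

/-- sequences bounded below -/
def Bdd (m : ℤ) (b : ℤ → ℂ[X]) : Prop := ∀ k < m, b k = 0

/-- the series `∑_k b_k x^(k/2)` times `exp (-γ z)` -/
noncomputable def el (γ : ℝ) (m : ℤ) (b : ℤ → ℂ[X]) (hb : Bdd m b) : RR where
  coeff g := if p1 g = γ then b (p2 g) else 0
  isPWO_support' := by
    have h : (Set.univ : Set ℕ).IsPWO := Set.isPWO_of_wellQuasiOrderedLE _
    have h2 := h.image_of_monotone (f := fun n : ℕ => mk γ (m + n)) (by
      intro i j hij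
      rcases hij.lt_or_eq with h | h
      · apply le_of_lt
        rw [gam_lt]
        right
        simpa using h
      · rw [h])
    refine h2.mono ?_
    intro g hg
    rw [Function.mem_support] at hg
    have h3 : p1 g = γ := by
      by_contra h4
      exact hg (if_neg h4)
    rw [if_pos h3] at hg
    have h4 : m ≤ p2 g := by
      by_contra h5
      exact hg (hb _ (not_le.1 h5))
    refine ⟨(p2 g - m).toNat, Set.mem_univ _, gam_ext (by simp [h3]) ?_⟩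
    simp only [p2_mk]
    omega

lemma el_coeff {γ : ℝ} {m : ℤ} {b : ℤ → ℂ[X]} (hb : Bdd m b) (g : Gam) :
    (el γ m b hb).coeff g = if p1 g = γ then b (p2 g) else 0 := rfl

/-- `θ` on sequences, at infinity -/
noncomputable def TI (l : ℂ) (b : ℤ → ℂ[X]) (k : ℤ) : ℂ[X] :=
  derivative (b k) + C (-1 / 2 * (k : ℂ)) * b k + C l * b (k + 2)

lemma Bdd.TI {m : ℤ} {b : ℤ → ℂ[X]} (hb : Bdd m b) (l : ℂ) : Bdd (m - 2) (TI l b) := by
  intro k hk
  rw [AZ.TI, hb k (by omega), hb (k + 2) (by omega)]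
  simp

lemma Bdd.TI0 {m : ℤ} {b : ℤ → ℂ[X]} (hb : Bdd m b) : Bdd m (AZ.TI 0 b) := by
  intro k hk
  rw [AZ.TI, hb k hk]
  simp

lemma Bdd.shift {m : ℤ} {b : ℤ → ℂ[X]} (hb : Bdd m b) (s : ℤ) : Bdd (m - s) (fun k => b (k + s)) :=
  fun k hk => hb _ (by omega)

lemma thI_el {γ : ℝ} {m : ℤ} {b : ℤ → ℂ[X]} (hb : Bdd m b) :
    dI.th (el γ m b hb) = el γ (m - 2) (TI (-(γ : ℂ)) b) (hb.TI _) := by
  ext1
  funext g
  rw [dI.coeff_th, el_coeff, el_coeff, el_coeff, map_sub, map_sub]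
  simp only [dI_g₀, p1_mk, p2_mk, sub_zero, dI_χ₁, dI_χ₂, sub_neg_eq_add]
  by_cases h : p1 g = γ
  · rw [if_pos h, if_pos h, if_pos h, h, TI]
    simp
  · rw [if_neg h, if_neg h, if_neg h]; simp

lemma zI_el {γ : ℝ} {m : ℤ} {b : ℤ → ℂ[X]} (hb : Bdd m b) :
    dI.z * el γ m b hb = el γ (m - 2) (fun k => b (k + 2)) (hb.shift 2) := by
  ext1
  funext g
  rw [Dat.z, HahnSeries.coeff_single_mul, one_mul, el_coeff, el_coeff, map_sub, map_sub]
  simp only [dI_g₀, p1_mk, p2_mk, sub_zero, sub_neg_eq_add]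

/-- `θ` on sequences, at zero -/
noncomputable def T0 (b : ℤ → ℂ[X]) (k : ℤ) : ℂ[X] := derivative (b k) + C (1 / 2 * (k : ℂ)) * b k

lemma Bdd.T0 {m : ℤ} {b : ℤ → ℂ[X]} (hb : Bdd m b) : Bdd m (AZ.T0 b) := by
  intro k hk
  rw [AZ.T0, hb k hk]
  simp

lemma th0_el {m : ℤ} {b : ℤ → ℂ[X]} (hb : Bdd m b) :
    d0.th (el 0 m b hb) = el 0 m (T0 b) hb.T0 := by
  ext1
  funext g
  rw [d0.coeff_th, el_coeff, el_coeff, el_coeff, map_sub, map_sub]
  simp only [d0_g₀, p1_mk, p2_mk, sub_zero, d0_χ₁, d0_χ₂]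
  by_cases h : p1 g = 0
  · rw [if_pos h, if_pos h, h, T0]
    simp
  · simp [h]

lemma Bdd.shift' {m : ℤ} {b : ℤ → ℂ[X]} (hb : Bdd m b) : Bdd m (fun k => b (k - 2)) :=
  fun k hk => hb _ (by omega)

lemma z0_el {γ : ℝ} {m : ℤ} {b : ℤ → ℂ[X]} (hb : Bdd m b) :
    d0.z * el γ m b hb = el γ m (fun k => b (k - 2)) hb.shift' := by
  ext1
  funext g
  rw [Dat.z, HahnSeries.coeff_single_mul, one_mul, el_coeff, el_coeff, map_sub, map_sub]
  simp only [d0_g₀, p1_mk, p2_mk, sub_zero]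

lemma el_congr {γ : ℝ} {m m' : ℤ} {b b' : ℤ → ℂ[X]} (hb : Bdd m b) (hb' : Bdd m' b') (h : b = b') :
    el γ m b hb = el γ m' b' hb' := by
  subst h
  rfl

end Pool.Agent.E8helper42.AZ
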