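import Mathlib
import Pool.Agent.E8helper42.AZ.Seq

/-!
# Project AZ, second round of statements

`RR` = Hahn series over `Gam = ℝ ×ₗ ℤ` with coefficients in `ℂ[X]` (`X = ℓ` is the logarithm), `dI.th`, `d0.th` the
derivation `θ = z d/dz` at infinity and at zero, `FF = ℂ(z)` with `thF = z d/dz`, `dI.emb`, `d0.emb` its embeddings.
-/

set_option autoImplicit false

namespace Pool.Agent.E8helper42.AZ

open Polynomial

/-- the operator `θ⁴ - t z (34 θ³ + 51 θ² + 27 θ + 5) + t² z² (θ + 1)²` -/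
noncomputable def Lop (d : Dat) (t : ℂ) (u : RR) : RR :=
  d.th (d.th (d.th (d.th u))) - t • (d.z * ((34 : ℂ) • d.th (d.th (d.th u)) + (51 : ℂ) • d.th (d.th u) +
    (27 : ℂ) • d.th u + (5 : ℂ) • u)) + t ^ 2 • (d.z * (d.z * (d.th (d.th u) + (2 : ℂ) • d.th u + u)))

/-- W: a matrix solution with independent columns is invertible -/
def S_W : Prop := S_STAR → ∀ (R : Type) [CommRing R] [IsDomain R] [Algebra ℂ R] (θ : Derivation ℂ R R), DSimple θ →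
  ∀ (n : ℕ) (A Φ : Matrix (Fin n) (Fin n) R), Φ.map θ = A * Φ →
  (∀ c : Fin n → ℂ, Φ.mulVec (algebraMap ℂ R ∘ c) = 0 → c = 0) → ∃ Ψ : Matrix (Fin n) (Fin n) R, Φ * Ψ = 1

/-- H: the stabiliser of a stable ideal -/
def S_H : Prop := ∀ (ι : Type) [Fintype ι] [DecidableEq ι] (n : ℕ) (F : Type) [Field F] (θF : Derivation ℤ F F)
  (p : Ideal (MvPolynomial (Vr ι n) F)) (A : ι → Matrix (Fin n) (Fin n) F) (g : ι → Fin n → F),
  (∀ P ∈ p, ∀ Q, IsCoef θF P Q → Q + Del (fun i => (A i, g i)) P ∈ p) →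
  ∃ h : Submodule F (Aff ι n F), (h : Set (Aff ι n F)) = {x | ∀ P ∈ p, Del x P ∈ p} ∧
    (∀ x ∈ h, ∀ y ∈ h, br x y ∈ h) ∧ (∀ x ∈ h, nab θF A g x ∈ h)

/-- IRR2: irreducibility of a Lie algebra from the irreducibility of the connection -/
def S_IRR2 : Prop := ∀ (n : ℕ) (F R : Type) [Field F] [CommRing R] [IsDomain R] [Algebra F R]
  (θF : Derivation ℤ F F) (θ : Derivation ℤ R R), (∀ a, θ (algebraMap F R a) = algebraMap F R (θF a)) →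
  ∀ (A : Matrix (Fin n) (Fin n) F) (h : Submodule F (Matrix (Fin n) (Fin n) F)) (N : Matrix (Fin n) (Fin n) R),
  N ∈ Submodule.span R ((fun M : Matrix (Fin n) (Fin n) F => M.map (algebraMap F R)) '' (h : Set _)) →
  N ^ n = 0 → N ^ (n - 1) ≠ 0 →
  N.map θ + N * A.map (algebraMap F R) - A.map (algebraMap F R) * N = 0 →
  (∀ W : Submodule F (Fin n → F), (∀ w ∈ W, θF ∘ w - A.mulVec w ∈ W) → W = ⊥ ∨ W = ⊤) →
  ∀ U : Submodule F (Fin n → F), (∀ M ∈ h, ∀ u ∈ U, M.mulVec u ∈ U) → U = ⊥ ∨ U = ⊤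

/-- MAIN: the assembly of the differential Galois argument -/
def S_MAIN : Prop := S_STAR → S_LA → S_ML → S_KT → S_ID → S_H → S_IRR2 →
  ∀ (ι : Type) [Fintype ι] [DecidableEq ι] (n : ℕ) (F R₀ R₁ : Type) [Field F] [CharZero F] [Algebra ℂ F]
  [CommRing R₀] [IsDomain R₀] [Algebra ℂ R₀] [Algebra F R₀] [IsScalarTower ℂ F R₀]
  [CommRing R₁] [IsDomain R₁] [Algebra ℂ R₁] [Algebra F R₁] [IsScalarTower ℂ F R₁]
  (θF : Derivation ℂ F F) (θ₀ δ₀ : Derivation ℂ R₀ R₀) (θ₁ δ₁ : Derivation ℂ R₁ R₁), 2 ≤ n →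
  (∀ a, θ₀ (algebraMap F R₀ a) = algebraMap F R₀ (θF a)) → DSimple θ₀ → (∀ a, δ₀ (algebraMap F R₀ a) = 0) →
  (∀ a, θ₀ (δ₀ a) = δ₀ (θ₀ a)) →
  (∀ a, θ₁ (algebraMap F R₁ a) = algebraMap F R₁ (θF a)) → DSimple θ₁ → (∀ a, δ₁ (algebraMap F R₁ a) = 0) →
  ∀ (A : ι → Matrix (Fin n) (Fin n) F) (g : ι → Fin n → F),
  -- irreducibility of the connection
  (∀ i, ∀ W : Submodule F (Fin n → F), (∀ w ∈ W, θF ∘ w - (A i).mulVec w ∈ W) → W = ⊥ ∨ W = ⊤) →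
  -- no rational solution
  (∀ i, ¬ ∃ b : Fin n → F, θF ∘ b = (A i).mulVec b + g i) →
  -- solutions over `R₀`: regular nilpotent element
  (∃ (Φ Ψ : ι → Matrix (Fin n) (Fin n) R₀) (b : ι → Fin n → R₀), (∀ i, Φ i * Ψ i = 1) ∧
    (∀ i, (Φ i).map θ₀ = (A i).map (algebraMap F R₀) * Φ i) ∧
    (∀ i, θ₀ ∘ (b i) = ((A i).map (algebraMap F R₀)).mulVec (b i) + algebraMap F R₀ ∘ (g i)) ∧
    ∀ i, ((Φ i).map δ₀ * Ψ i) ^ n = 0 ∧ ((Φ i).map δ₀ * Ψ i) ^ (n - 1) ≠ 0) →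
  -- solutions over `R₁`: the element of rank one
  (∃ (t : ι → ℚ) (c : Fin n) (Φ Ψ : ι → Matrix (Fin n) (Fin n) R₁) (b : ι → Fin n → R₁),
    (∀ i, 0 < t i) ∧ Function.Injective t ∧ (∀ i, Φ i * Ψ i = 1) ∧
    (∀ i, (Φ i).map θ₁ = (A i).map (algebraMap F R₁) * Φ i) ∧
    (∀ i, θ₁ ∘ (b i) = ((A i).map (algebraMap F R₁)).mulVec (b i) + algebraMap F R₁ ∘ (g i)) ∧
    (∀ i, (Φ i).map δ₁ = Φ i * Matrix.single c c (algebraMap ℂ R₁ (t i : ℂ))) ∧ ∀ i, δ₁ ∘ (b i) = 0) →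
  ∀ p : Ideal (MvPolynomial (Vr ι n) F), p.IsPrime →
  (∀ i, ∃ c c' : Fin n, c ≠ c' ∧ MvPolynomial.X (Sum.inl (i, c)) ∉ p ∧ MvPolynomial.X (Sum.inl (i, c')) ∉ p) →
  (∀ P ∈ p, ∀ Q, IsCoef θF P Q → Q + Del (fun i => (A i, g i)) P ∈ p) → p = ⊥

/-- IA: stable subspaces of `F^n` and subspaces of `ℂ^n` -/
def S_IA : Prop := S_STAR → ∀ (F R : Type) [Field F] [Algebra ℂ F] [CommRing R] [IsDomain R] [Algebra ℂ R] [Algebra F R]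
  [IsScalarTower ℂ F R] (θF : Derivation ℂ F F) (θ : Derivation ℂ R R),
  (∀ a, θ (algebraMap F R a) = algebraMap F R (θF a)) → DSimple θ →
  ∀ (n : ℕ) (A : Matrix (Fin n) (Fin n) F) (Φ Ψ : Matrix (Fin n) (Fin n) R), Φ * Ψ = 1 →
  Φ.map θ = A.map (algebraMap F R) * Φ →
  ∀ (r : ℕ) (w : Matrix (Fin n) (Fin r) F) (B : Matrix (Fin r) (Fin r) F),
  (∀ c : Fin r → F, w.mulVec c = 0 → c = 0) → w.map θF - A * w = w * B →
  ∃ G : Submodule ℂ (Fin n → ℂ), Module.finrank ℂ G = r ∧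
    (∀ (δ : Derivation ℂ R R) (E : Matrix (Fin n) (Fin n) ℂ), (∀ a, δ (algebraMap F R a) = 0) →
      Φ.map δ = Φ * E.map (algebraMap ℂ R) → ∀ c ∈ G, E.mulVec c ∈ G) ∧
    ∀ c : Matrix (Fin n) (Fin r) ℂ, (∀ j, c.transpose j ∈ G) → (∀ x : Fin r → ℂ, c.mulVec x = 0 → x = 0) →
      ∃ H : Matrix (Fin r) (Fin r) R, Φ * c.map (algebraMap ℂ R) = w.map (algebraMap F R) * H ∧ H.det ≠ 0 ∧
        θ H.det = - algebraMap F R B.trace * H.det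

/-- IB: the lattice -/
def S_IB : Prop := ∀ (n : ℕ) (A : Matrix (Fin n) (Fin n) ℂ[X]), IsNilpotent (A.map (Polynomial.eval 0)) →
  ∀ W : Submodule FF (Fin n → FF), (∀ w ∈ W, thF ∘ w - (A.map (algebraMap ℂ[X] FF)).mulVec w ∈ W) →
  ∃ (w : Matrix (Fin n) (Fin (Module.finrank FF W)) ℂ[X])
    (B : Matrix (Fin (Module.finrank FF W)) (Fin (Module.finrank FF W)) ℂ[X]),
    (∀ c : Fin (Module.finrank FF W) → FF, (w.map (algebraMap ℂ[X] FF)).mulVec c = 0 → c = 0) ∧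
    (∀ v, v ∈ W ↔ ∃ c : Fin (Module.finrank FF W) → FF, v = (w.map (algebraMap ℂ[X] FF)).mulVec c) ∧
    w.map (fun p => X * derivative p) - A * w = w * B ∧ B.trace.eval 0 = 0

/-- IC: companion matrices -/
def S_IC : Prop := ∀ (n r : ℕ) (hr : r ≤ n) (F : Type) [Field F] (θF : Derivation ℤ F F) (A : Matrix (Fin n) (Fin n) F),
  (∀ i j : Fin n, (i : ℕ) + 1 < n → A i j = if (j : ℕ) = i + 1 then 1 else 0) →
  ∀ (w : Matrix (Fin n) (Fin r) F) (B : Matrix (Fin r) (Fin r) F), (∀ c : Fin r → F, w.mulVec c = 0 → c = 0) →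
  w.map θF - A * w = w * B → (Matrix.of fun i j : Fin r => w (Fin.castLE hr i) j).det ≠ 0

/-- TR: power series as Hahn series -/
def IsEmb (φ : PowerSeries ℚ →+* RR) : Prop := ∀ (s : PowerSeries ℚ) (g : Gam), (φ s).coeff g =
  if p1 g = 0 ∧ 0 ≤ p2 g ∧ Even (p2 g) then C ((PowerSeries.coeff (p2 g / 2).toNat s : ℚ) : ℂ) else 0

/-- TR: transfer of algebraic independence -/
def S_TR : Prop := ∃ φ : PowerSeries ℚ →+* RR, IsEmb φ ∧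
  ∀ (σ : Type) (x : σ → PowerSeries ℚ), (∀ P : MvPolynomial σ FF, MvPolynomial.eval₂ d0.emb (fun v => φ (x v)) P = 0 → P = 0) →
    AlgebraicIndependent (Polynomial ℚ) x

/-- AB: the differential equations of the functions `A` and `B` -/
def S_AB : Prop := ∀ φ : PowerSeries ℚ →+* RR, IsEmb φ → (∀ (c : ℕ → ℚ) (t : ℚ) (j : ℕ), d0.th (φ (ser c t j)) = φ (ser c t (j + 1))) ∧
  ∀ a b : ℕ → ℚ, AperyPair a b → ∀ t : ℚ, Lop d0 t (φ (ser a t 0)) = 0 ∧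
    Lop d0 t (φ (ser b t 0)) = (6 * (t : ℂ)) • d0.z

/-- ZERO: solutions at zero -/
def S_ZERO : Prop := ∀ t : ℂ,
  (∃ (b : ℤ → ℂ[X]) (hb : Bdd 0 b), b 0 = C (1 / 6) * X ^ 3 ∧ Lop d0 t (el 0 0 b hb) = 0) ∧
  ∀ (b : ℤ → ℂ[X]) (hb : Bdd 0 b), b 0 = 0 → Lop d0 t (el 0 0 b hb) = 0 → el 0 0 b hb = 0

/-- REG: regular solutions at infinity -/
def S_REG : Prop := ∀ t : ℂ, t ≠ 0 →
  (∀ p : ℂ[X], ∃ (b : ℤ → ℂ[X]) (hb : Bdd 2 b), b 2 = p ∧ ∀ g, (Lop dI t (el 0 2 b hb)).coeff g =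
    if g = mk 0 (-2) then C (t ^ 2) * derivative (derivative p) else 0) ∧
  ∀ (b : ℤ → ℂ[X]) (hb : Bdd 2 b), b 2 = 0 → Lop dI t (el 0 2 b hb) = 0 → el 0 2 b hb = 0

/-- KAP: linear functionals -/
def S_KAP : Prop :=
  (∃ κ : ℝ →ₗ[ℚ] ℚ, κ (17 + 12 * √2) = 1 ∧ κ (17 - 12 * √2) = 0) ∧
  ∃ κ : ℝ →ₗ[ℚ] ℚ, κ (17 + 12 * √2) = 0 ∧ κ (17 - 12 * √2) = 1

end Pool.Agent.E8helper42.AZ
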