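import Mathlib
import Pool.Agent.E8helper42.AZ.Stm2

/-!
# The companion system, commuting derivations
-/

set_option autoImplicit false

namespace Pool.Agent.E8helper42.AZ

open Polynomial

/-- the companion matrix of the operator `Lop` -/
noncomputable def AP (t : ℂ) : Matrix (Fin 4) (Fin 4) ℂ[X] :=
  !![0, 1, 0, 0; 0, 0, 1, 0; 0, 0, 0, 1;
    C (5 * t) * X - C (t ^ 2) * X ^ 2, C (27 * t) * X - C (2 * t ^ 2) * X ^ 2, C (51 * t) * X - C (t ^ 2) * X ^ 2,
      C (34 * t) * X]

/-- the same over rational functions -/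
noncomputable def AF (t : ℂ) : Matrix (Fin 4) (Fin 4) FF := (AP t).map (algebraMap ℂ[X] FF)

/-- the inhomogeneous part -/
noncomputable def gF (s : ℂ) : Fin 4 → FF := ![0, 0, 0, algebraMap ℂ[X] FF (C s * X)]

/-- the Hahn series as an algebra over the rational functions -/
def RD (_d : Dat) : Type := RR

noncomputable instance (d : Dat) : CommRing (RD d) := inferInstanceAs (CommRing RR)
instance (d : Dat) : IsDomain (RD d) := inferInstanceAs (IsDomain RR)
noncomputable instance (d : Dat) : Algebra ℂ (RD d) := inferInstanceAs (Algebra ℂ RR)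
noncomputable instance (d : Dat) : Algebra FF (RD d) := d.emb.toAlgebra
instance (d : Dat) : IsScalarTower ℂ FF (RD d) :=
  IsScalarTower.of_algebraMap_eq fun c => (d.emb_algebraMap c).symm

/-- `θ` -/
noncomputable def thD (d : Dat) : Derivation ℂ (RD d) (RD d) := d.th

lemma thD_emb (d : Dat) (a : FF) : thD d (algebraMap FF (RD d) a) = algebraMap FF (RD d) (thF a) := d.emb_th a

lemma thD_simple (d : Dat) : DSimple (thD d) := d.dsimple

lemma smul_def' (c : ℂ) (u : RR) : c • u = algebraMap ℂ RR c * u := Algebra.smul_def c u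

lemma zero_smul' (u : RR) : (0 : ℂ) • u = 0 := by rw [smul_def', map_zero, zero_mul]

/-- the vector `(u, θ u, θ² u, θ³ u)` -/
noncomputable def solv (d : Dat) (u : RR) : Fin 4 → RR := ![u, d.th u, d.th (d.th u), d.th (d.th (d.th u))]

lemma solv_eq (d : Dat) (t s : ℂ) (u : RR) (h : Lop d t u = s • d.z) :
    (fun i => d.th (solv d u i)) = ((AF t).map d.emb).mulVec (solv d u) + fun i => d.emb (gF s i) := by
  have h1 : d.th (d.th (d.th (d.th u))) = t • (d.z * ((34 : ℂ) • d.th (d.th (d.th u)) + (51 : ℂ) • d.th (d.th u) +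
    (27 : ℂ) • d.th u + (5 : ℂ) • u)) - t ^ 2 • (d.z * (d.z * (d.th (d.th u) + (2 : ℂ) • d.th u + u))) + s • d.z := by
    rw [← h, Lop]; ring
  funext i
  fin_cases i
  · simp [solv, AF, AP, gF, Matrix.mulVec, dotProduct, Fin.sum_univ_four, Matrix.of_apply, Matrix.map_apply]
  · simp [solv, AF, AP, gF, Matrix.mulVec, dotProduct, Fin.sum_univ_four, Matrix.of_apply, Matrix.map_apply]
  · simp [solv, AF, AP, gF, Matrix.mulVec, dotProduct, Fin.sum_univ_four, Matrix.of_apply, Matrix.map_apply]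
  · simp only [solv, AF, AP, gF, Matrix.mulVec, dotProduct, Fin.sum_univ_four, Matrix.of_apply, Matrix.map_apply,
      Pi.add_apply]
    simp only [Fin.reduceFinMk, Matrix.cons_val, d.emb_poly]
    rw [h1]
    simp only [map_sub, map_mul, aeval_C, aeval_X, map_pow, smul_def', map_ofNat]
    ring

lemma cw_z (d : Dat) (e : ℂ) (χ : Gam →+ ℂ) (h : χ d.g₀ = 0) : cw e χ d.z = 0 := by
  ext1
  funext g
  rw [cw_coeff, Dat.z, HahnSeries.coeff_single]
  split_ifs with h1
  · subst h1; rw [h]; simp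
  · simp

lemma cw_aeval (d : Dat) (e : ℂ) (χ : Gam →+ ℂ) (h : χ d.g₀ = 0) (p : ℂ[X]) : cw e χ (aeval d.z p) = 0 := by
  induction p using Polynomial.induction_on' with
  | add p q hp hq => rw [map_add, map_add, hp, hq, add_zero]
  | monomial n a =>
    rw [← C_mul_X_pow_eq_monomial, map_mul, map_pow, aeval_X, aeval_C, Derivation.leibniz, Derivation.leibniz_pow,
      Derivation.map_algebraMap, cw_z d e χ h]
    simp

lemma cw_emb (d : Dat) (e : ℂ) (χ : Gam →+ ℂ) (h : χ d.g₀ = 0) (a : FF) : cw e χ (d.emb a) = 0 := by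
  obtain ⟨p, q, hq, rfl⟩ := H585R2.DiffC.exists_div a
  have hQ0 : algebraMap ℂ[X] FF q ≠ 0 := H585R2.DiffC.am_ne hq
  have h0 : d.emb (algebraMap ℂ[X] FF q) * d.emb (algebraMap ℂ[X] FF p / algebraMap ℂ[X] FF q) =
      d.emb (algebraMap ℂ[X] FF p) := by
    rw [← map_mul, mul_div_cancel₀ _ hQ0]
  have h1 := congrArg (cw e χ) h0
  rw [Derivation.leibniz, d.emb_poly, d.emb_poly, cw_aeval d e χ h, cw_aeval d e χ h, smul_zero, add_zero,
    smul_eq_mul] at h1
  exact (mul_eq_zero.1 h1).resolve_left (d.aeval_ne hq)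

lemma cw_comm (d : Dat) (e : ℂ) (χ : Gam →+ ℂ) (h : χ d.g₀ = 0) (a : RR) : d.th (cw e χ a) = cw e χ (d.th a) := by
  ext1
  funext g
  rw [d.coeff_th, cw_coeff, cw_coeff, cw_coeff, d.coeff_th, map_sub, h, sub_zero]
  simp only [derivative_add, derivative_mul, derivative_C, zero_mul, zero_add]
  ring

lemma cw_z_mul (d : Dat) (e : ℂ) (χ : Gam →+ ℂ) (h : χ d.g₀ = 0) (a : RR) : cw e χ (d.z * a) = d.z * cw e χ a := by
  rw [Derivation.leibniz, cw_z d e χ h, smul_zero, add_zero, smul_eq_mul]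

lemma cw_Lop (d : Dat) (e : ℂ) (χ : Gam →+ ℂ) (h : χ d.g₀ = 0) (t : ℂ) (a : RR) :
    Lop d t (cw e χ a) = cw e χ (Lop d t a) := by
  simp only [Lop, cw_comm d e χ h, map_add, map_sub, Derivation.map_smul, cw_z_mul d e χ h]

lemma cw_solv (d : Dat) (e : ℂ) (χ : Gam →+ ℂ) (h : χ d.g₀ = 0) (a : RR) (i : Fin 4) :
    cw e χ (solv d a i) = solv d (cw e χ a) i := by
  fin_cases i
  · rfl
  · exact (cw_comm d e χ h a).symm
  · show cw e χ (d.th (d.th a)) = d.th (d.th (cw e χ a))
    simp only [cw_comm d e χ h]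
  · show cw e χ (d.th (d.th (d.th a))) = d.th (d.th (d.th (cw e χ a)))
    simp only [cw_comm d e χ h]

lemma solv_add (d : Dat) (u v : RR) (i : Fin 4) : solv d (u + v) i = solv d u i + solv d v i := by
  fin_cases i
  · rfl
  · exact map_add d.th u v
  · show d.th (d.th (u + v)) = d.th (d.th u) + d.th (d.th v)
    simp only [map_add]
  · show d.th (d.th (d.th (u + v))) = d.th (d.th (d.th u)) + d.th (d.th (d.th v))
    simp only [map_add]

lemma solv_smul (d : Dat) (c : ℂ) (u : RR) (i : Fin 4) : solv d (c • u) i = c • solv d u i := by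
  fin_cases i
  · rfl
  · exact Derivation.map_smul d.th c u
  · show d.th (d.th (c • u)) = c • d.th (d.th u)
    simp only [Derivation.map_smul]
  · show d.th (d.th (d.th (c • u))) = c • d.th (d.th (d.th u))
    simp only [Derivation.map_smul]

lemma solv_zero (d : Dat) (i : Fin 4) : solv d 0 i = 0 := by
  have := solv_smul d 0 0 i
  rwa [zero_smul', zero_smul'] at this

lemma th_commutes (d : Dat) (c : ℂ) (u : RR) : d.th (algebraMap ℂ RR c * u) = algebraMap ℂ RR c * d.th u := by
  rw [← Algebra.smul_def, ← Algebra.smul_def, Derivation.map_smul]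

/-- the matrix of solutions -/
noncomputable def Phi (d : Dat) (f : Fin 4 → RR) : Matrix (Fin 4) (Fin 4) (RD d) := Matrix.of fun i j => solv d (f j) i

lemma Phi_apply (d : Dat) (f : Fin 4 → RR) (i j : Fin 4) : Phi d f i j = solv d (f j) i := rfl

lemma Phi_eq (d : Dat) (t : ℂ) (f : Fin 4 → RR) (h : ∀ j, Lop d t (f j) = 0) :
    (Phi d f).map (thD d) = (AF t).map (algebraMap FF (RD d)) * Phi d f := by
  ext i j
  have h1 := congrFun (solv_eq d t 0 (f j) (by rw [h j, zero_smul'])) i
  have h2 : gF 0 = 0 := by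
    funext k
    fin_cases k <;> simp [gF]
  rw [h2] at h1
  simp only [Pi.add_apply, Pi.zero_apply, map_zero, add_zero] at h1
  rw [Matrix.map_apply, Matrix.mul_apply]
  exact h1

end Pool.Agent.E8helper42.AZ
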