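import Mathlib
import Pool.Agent.E8helper42.AZ.Gen

/-!
# Project AZ, fourth round: the number `e`; Apery's numbers for `ζ(2)`
-/

set_option autoImplicit false

namespace Pool.Agent.E8helper42.AZ

open Polynomial

/-- MAINE: the assembly of the differential Galois argument with an additional exponential function, block `none`.
The block `none` has the matrix `single c₀ c₀ e` (`e : F`), the homogeneous solution is `diag (E, 1, …, 1)`. -/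
def S_MAINE : Prop := S_STAR → S_LA → S_ML → S_KT → S_H → S_IRR2 →
  ∀ (ι : Type) [Fintype ι] [DecidableEq ι] (n : ℕ) (F R₀ R₁ : Type) [Field F] [CharZero F] [Algebra ℂ F]
  [CommRing R₀] [IsDomain R₀] [Algebra ℂ R₀] [Algebra F R₀] [IsScalarTower ℂ F R₀]
  [CommRing R₁] [IsDomain R₁] [Algebra ℂ R₁] [Algebra F R₁] [IsScalarTower ℂ F R₁]
  (θF : Derivation ℂ F F) (θ₀ δ₀ : Derivation ℂ R₀ R₀) (θ₁ δ₁ : Derivation ℂ R₁ R₁), 2 ≤ n →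
  (∀ a, θ₀ (algebraMap F R₀ a) = algebraMap F R₀ (θF a)) → DSimple θ₀ → (∀ a, δ₀ (algebraMap F R₀ a) = 0) →
  (∀ a, θ₀ (δ₀ a) = δ₀ (θ₀ a)) →
  (∀ a, θ₁ (algebraMap F R₁ a) = algebraMap F R₁ (θF a)) → DSimple θ₁ → (∀ a, δ₁ (algebraMap F R₁ a) = 0) →
  ∀ (A : ι → Matrix (Fin n) (Fin n) F) (g : ι → Fin n → F) (e : F) (c₀ : Fin n),
  (∀ i, ∀ W : Submodule F (Fin n → F), (∀ w ∈ W, θF ∘ w - (A i).mulVec w ∈ W) → W = ⊥ ∨ W = ⊤) →
  (∀ i, ¬ ∃ b : Fin n → F, θF ∘ b = (A i).mulVec b + g i) →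
  (∃ (Φ Ψ : ι → Matrix (Fin n) (Fin n) R₀) (b : ι → Fin n → R₀), (∀ i, Φ i * Ψ i = 1) ∧
    (∀ i, (Φ i).map θ₀ = (A i).map (algebraMap F R₀) * Φ i) ∧
    (∀ i, θ₀ ∘ (b i) = ((A i).map (algebraMap F R₀)).mulVec (b i) + algebraMap F R₀ ∘ (g i)) ∧
    ∀ i, ((Φ i).map δ₀ * Ψ i) ^ n = 0 ∧ ((Φ i).map δ₀ * Ψ i) ^ (n - 1) ≠ 0) →
  (∃ (t : ι → ℚ) (c : Fin n) (Φ Ψ : ι → Matrix (Fin n) (Fin n) R₁) (b : ι → Fin n → R₁),
    (∀ i, 0 < t i) ∧ Function.Injective t ∧ (∀ i, Φ i * Ψ i = 1) ∧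
    (∀ i, (Φ i).map θ₁ = (A i).map (algebraMap F R₁) * Φ i) ∧
    (∀ i, θ₁ ∘ (b i) = ((A i).map (algebraMap F R₁)).mulVec (b i) + algebraMap F R₁ ∘ (g i)) ∧
    (∀ i, (Φ i).map δ₁ = Φ i * Matrix.single c c (algebraMap ℂ R₁ (t i : ℂ))) ∧ ∀ i, δ₁ ∘ (b i) = 0) →
  -- the exponential function
  (∃ E E' : R₀, E * E' = 1 ∧ θ₀ E = algebraMap F R₀ e * E) →
  (∃ E E' : R₁, E * E' = 1 ∧ θ₁ E = algebraMap F R₁ e * E) →
  ∀ p : Ideal (MvPolynomial (Vr (Option ι) n) F), p.IsPrime →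
  (∀ P ∈ p, ∀ Q, IsCoef θF P Q → Q + Del (fun o : Option ι => (o.elim (Matrix.single c₀ c₀ e) A, o.elim 0 g)) P ∈ p) →
  ∀ x : Aff (Option ι) n F, (∀ o, (x o).1.trace = 0) → x none = 0 → ∀ P ∈ p, Del x P ∈ p

/-- IDE: from stability under the trace-zero matrices and the translations in the blocks `some i` to a relation for the
variable `X (inl (none, c₀))` alone -/
def S_IDE : Prop := ∀ (ι : Type) [Fintype ι] [DecidableEq ι] (n : ℕ) (F : Type) [Field F] [CharZero F] (c₀ : Fin n)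
  (p : Ideal (MvPolynomial (Vr (Option ι) n) F)), p.IsPrime →
  (∀ i : ι, ∃ c c' : Fin n, c ≠ c' ∧ MvPolynomial.X (Sum.inl (some i, c)) ∉ p ∧ MvPolynomial.X (Sum.inl (some i, c')) ∉ p) →
  (∀ x : Aff (Option ι) n F, (∀ o, (x o).1.trace = 0) → x none = 0 → ∀ P ∈ p, Del x P ∈ p) →
  ∀ P ∈ p, P ≠ 0 → (∀ v ∈ P.vars, v = Sum.inl (none, c₀) ∨ (∃ i c, v = Sum.inl (some i, c)) ∨ ∃ i c, v = Sum.inr (some i, c)) →
  ∃ q : F[X], q ≠ 0 ∧ Polynomial.aeval (MvPolynomial.X (Sum.inl (none, c₀)) : MvPolynomial (Vr (Option ι) n) F) q ∈ p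

/-- EXP: the exponential function in both rings, and its transcendence over the rational functions -/
def S_EXP : Prop :=
  (∃ E : RD dI, (∃ E', E * E' = 1) ∧ thD dI E = algebraMap FF (RD dI) RatFunc.X * E) ∧
  ∀ E : RD d0, (∃ E', E * E' = 1) → thD d0 E = algebraMap FF (RD d0) RatFunc.X * E →
    ∀ q : FF[X], Polynomial.aeval E q = 0 → q = 0

/-- SSE: application of the theorem of Siegel and Shidlovskii, with the exponential function -/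
def S_SSE : Prop := ∀ a b : ℕ → ℚ, AperyPair a b → EFc a → EFc b → ∀ T : Finset ℚ, (∀ t ∈ T, t ≠ 0) →
  AlgebraicIndependent (Polynomial ℚ) (fun o : Option ((T × Fin 4) ⊕ (T × Fin 4)) => o.elim (PowerSeries.exp ℚ) (fam a b T)) →
  AlgebraicIndependent ℚ (fun o : Option ((T × Fin 4) ⊕ (T × Fin 4)) => o.elim (Real.exp 1) (vals a b T))

/-- FGE: the final algebra with an additional number `w` -/
def S_FGE : Prop := ∀ (σ : Type) (w z : ℝ) (x y : σ → ℝ),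
  AlgebraicIndependent ℚ (fun o : Option (σ ⊕ σ) => o.elim w (Sum.elim x y)) →
  (∀ (G : Set ℝ), IsAlgebraic (IntermediateField.adjoin ℚ ({w} ∪ G)) z → ∀ S : Finset σ,
    ((S.card + 1 : ℕ) : Cardinal) ≤ Algebra.trdeg ℚ
      (IntermediateField.adjoin ℚ ({w} ∪ G ∪ (fun s => z * x s - y s) '' (S : Set σ)))) ∧
  (∀ o o' : Option σ, IsAlgebraic (IntermediateField.adjoin ℚ {w}) (o.elim z fun s => z * x s - y s) →
    IsAlgebraic (IntermediateField.adjoin ℚ {w}) (o'.elim z fun s => z * x s - y s) → o = o') ∧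
  (IsAlgebraic (IntermediateField.adjoin ℚ {w}) z →
    AlgebraicIndependent ℚ (fun o : Option σ => o.elim w fun s => z * x s - y s)) ∧
  (∀ (r : ℕ) (v : Fin r → ℝ), IsAlgebraic (IntermediateField.adjoin ℚ ({w} ∪ Set.range v)) z →
    {i : Fin r ⊕ σ | IsAlgebraic (IntermediateField.adjoin ℚ {w}) (i.elim v fun s => z * x s - y s)}.encard ≤ (r : ℕ∞))

/-! ### `ζ(2)` -/

/-- the two rational solutions of Apery's recurrence for `ζ(2)`, with signs -/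
structure AperyPair2 (a b : ℕ → ℚ) : Prop where
  a0 : a 0 = 1
  a1 : a 1 = -3
  b0 : b 0 = 0
  b1 : b 1 = -5
  rec_a : ∀ n : ℕ, ((n : ℚ) + 2) ^ 2 * a (n + 2) + (11 * ((n : ℚ) + 1) ^ 2 + 11 * ((n : ℚ) + 1) + 3) * a (n + 1) -
    ((n : ℚ) + 1) ^ 2 * a n = 0
  rec_b : ∀ n : ℕ, ((n : ℚ) + 2) ^ 2 * b (n + 2) + (11 * ((n : ℚ) + 1) ^ 2 + 11 * ((n : ℚ) + 1) + 3) * b (n + 1) -
    ((n : ℚ) + 1) ^ 2 * b n = 0

/-- the function of Beukers' double integral -/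
noncomputable def beu2 (x y : ℝ) : ℝ := x * y * (1 - x) * (1 - y) / (1 - x * y)

/-- Apery's linear forms in `1` and `ζ(2)`: Beukers' double integral -/
noncomputable def Jn2 (n : ℕ) : ℝ := ∫ p : ℝ × ℝ in Set.Ioo 0 1 ×ˢ Set.Ioo 0 1, beu2 p.1 p.2 ^ n / (1 - p.1 * p.2)

/-- AP2: Apery's linear forms for `ζ(2) = π² / 6` -/
def S_AP2 : Prop := ∃ a b : ℕ → ℚ, AperyPair2 a b ∧ EFc a ∧ EFc b ∧
  ∀ n, Jn2 n = (a n : ℝ) * (Real.pi ^ 2 / 6) - (b n : ℝ)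

/-- BEU3: the exponential double integral -/
def S_BEU3 : Prop := ∀ (j : ℕ) (t : ℝ), ∫ p : ℝ × ℝ in Set.Ioo 0 1 ×ˢ Set.Ioo 0 1,
    beu2 p.1 p.2 ^ j * Real.exp (t * beu2 p.1 p.2) / (1 - p.1 * p.2) = ∑' n : ℕ, Jn2 (n + j) * t ^ n / (n.factorial : ℝ)

/-- the operator `θ³ + t z (11 θ² + 11 θ + 3) - t² z² (θ + 1)` -/
noncomputable def Lop3 (d : Dat) (t : ℂ) (u : RR) : RR :=
  d.th (d.th (d.th u)) + t • (d.z * ((11 : ℂ) • d.th (d.th u) + (11 : ℂ) • d.th u + (3 : ℂ) • u)) -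
    t ^ 2 • (d.z * (d.z * (d.th u + u)))

/-- the companion matrix of the operator `Lop3` -/
noncomputable def AP3 (t : ℂ) : Matrix (Fin 3) (Fin 3) ℂ[X] :=
  !![0, 1, 0; 0, 0, 1;
    - (C (3 * t) * X) + C (t ^ 2) * X ^ 2, - (C (11 * t) * X) + C (t ^ 2) * X ^ 2, - (C (11 * t) * X)]

/-- the same over rational functions -/
noncomputable def AF3 (t : ℂ) : Matrix (Fin 3) (Fin 3) FF := (AP3 t).map (algebraMap ℂ[X] FF)

/-- the inhomogeneous part -/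
noncomputable def gF3 (s : ℂ) : Fin 3 → FF := ![0, 0, algebraMap ℂ[X] FF (C s * X)]

/-- the vector `(u, θ u, θ² u)` -/
noncomputable def solv3 (d : Dat) (u : RR) : Fin 3 → RR := ![u, d.th u, d.th (d.th u)]

/-- the matrix of solutions -/
noncomputable def Phi3 (d : Dat) (f : Fin 3 → RR) : Matrix (Fin 3) (Fin 3) (RD d) := Matrix.of fun i j => solv3 d (f j) i

/-- P3: everything on the solutions for `ζ(2)` which is needed for MAINE -/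
def S_P3 : Prop := S_STAR → S_W → S_IA → S_IB → S_IC → ∀ t : ℚ, 0 < t →
  -- irreducibility and no rational solution
  (∀ W : Submodule FF (Fin 3 → FF), (∀ w ∈ W, thF ∘ w - (AF3 t).mulVec w ∈ W) → W = ⊥ ∨ W = ⊤) ∧
  (¬ ∃ b : Fin 3 → FF, thF ∘ b = (AF3 t).mulVec b + gF3 (-5 * t)) ∧
  -- solutions at zero
  (∃ Φ Ψ : Matrix (Fin 3) (Fin 3) (RD d0), Φ * Ψ = 1 ∧ Φ.map (thD d0) = (AF3 t).map (algebraMap FF (RD d0)) * Φ ∧
    ∀ δ : Derivation ℂ (RD d0) (RD d0), δ = (cw 1 0 : Derivation ℂ RR RR) → (Φ.map δ * Ψ) ^ 3 = 0 ∧ (Φ.map δ * Ψ) ^ 2 ≠ 0) ∧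
  -- solutions at infinity
  ∀ κ : ℝ →ₗ[ℚ] ℚ, κ ((-11 + 5 * √5) / 2) = 1 → κ ((-11 - 5 * √5) / 2) = 0 → ∀ χ : Gam →+ ℂ, (∀ g, χ g = -((κ (p1 g) : ℚ) : ℂ)) →
    ∃ (Φ Ψ : Matrix (Fin 3) (Fin 3) (RD dI)) (b : Fin 3 → RD dI), Φ * Ψ = 1 ∧
      Φ.map (thD dI) = (AF3 t).map (algebraMap FF (RD dI)) * Φ ∧
      thD dI ∘ b = ((AF3 t).map (algebraMap FF (RD dI))).mulVec b + algebraMap FF (RD dI) ∘ gF3 (-5 * t) ∧
      ∀ δ : Derivation ℂ (RD dI) (RD dI), δ = (cw 0 χ : Derivation ℂ RR RR) →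
        Φ.map δ = Φ * Matrix.single 0 0 (algebraMap ℂ (RD dI) (t : ℂ)) ∧ δ ∘ b = 0

/-- the functions of the system for `ζ(2)` -/
noncomputable def fam3 (a b : ℕ → ℚ) (T : Finset ℚ) (s : (T × Fin 3) ⊕ (T × Fin 3)) : PowerSeries ℚ :=
  s.elim (fun p => ser a p.1 p.2) (fun p => ser b p.1 p.2)

/-- their values -/
noncomputable def vals3 (a b : ℕ → ℚ) (T : Finset ℚ) (s : (T × Fin 3) ⊕ (T × Fin 3)) : ℝ :=
  s.elim (fun p => val a p.1 p.2) (fun p => val b p.1 p.2)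

/-- SSE3: application of the theorem of Siegel and Shidlovskii -/
def S_SSE3 : Prop := ∀ a b : ℕ → ℚ, AperyPair2 a b → EFc a → EFc b → ∀ T : Finset ℚ, (∀ t ∈ T, t ≠ 0) →
  AlgebraicIndependent (Polynomial ℚ) (fun o : Option ((T × Fin 3) ⊕ (T × Fin 3)) => o.elim (PowerSeries.exp ℚ) (fam3 a b T)) →
  AlgebraicIndependent ℚ (fun o : Option ((T × Fin 3) ⊕ (T × Fin 3)) => o.elim (Real.exp 1) (vals3 a b T))

/-- AB3: the differential equations of `A` and `B` for `ζ(2)` in `RR` -/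
def S_AB3 : Prop := ∀ φ : PowerSeries ℚ →+* RR, IsEmb φ → (d0.th (φ (PowerSeries.exp ℚ)) = d0.z * φ (PowerSeries.exp ℚ)) ∧
  ∀ a b : ℕ → ℚ, AperyPair2 a b → ∀ t : ℚ, Lop3 d0 t (φ (ser a t 0)) = 0 ∧
    Lop3 d0 t (φ (ser b t 0)) = (-5 * (t : ℂ)) • d0.z

/-- KAP3: linear functionals -/
def S_KAP3 : Prop :=
  (∃ κ : ℝ →ₗ[ℚ] ℚ, κ ((-11 + 5 * √5) / 2) = 1 ∧ κ ((-11 - 5 * √5) / 2) = 0) ∧
  ∃ κ : ℝ →ₗ[ℚ] ℚ, κ ((-11 + 5 * √5) / 2) = 0 ∧ κ ((-11 - 5 * √5) / 2) = 1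

end Pool.Agent.E8helper42.AZ
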