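import Mathlib
import Pool.Agent.E8helper42.AZ.Stm

/-!
# Project AZ, third round: derivatives instead of Euler derivatives, final forms
-/

set_option autoImplicit false

namespace Pool.Agent.E8helper42.AZ

/-- `∑ c_{n+j} t^n / n!` -/
noncomputable def dv (c : ℕ → ℚ) (t : ℚ) (j : ℕ) : ℝ := ∑' n : ℕ, (c (n + j) : ℝ) * (t : ℝ) ^ n / (n.factorial : ℝ)

/-- DV: from the values of `θ^j` to the values of the derivatives -/
def S_DV : Prop := ∀ a b : ℕ → ℚ, EFc a → EFc b → ∀ T : Finset ℚ, (∀ t ∈ T, t ≠ 0) →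
  AlgebraicIndependent ℚ (vals a b T) →
  AlgebraicIndependent ℚ (fun s : (T × Fin 4) ⊕ (T × Fin 4) =>
    s.elim (fun p => dv a p.1 p.2) (fun p => dv b p.1 p.2))

/-- FG: the final algebra -/
def S_FG : Prop := ∀ (σ : Type) (z : ℝ) (x y : σ → ℝ), AlgebraicIndependent ℚ (Sum.elim x y) →
  (∀ (G : Set ℝ), IsAlgebraic (IntermediateField.adjoin ℚ G) z → ∀ S : Finset σ,
    (S.card : Cardinal) ≤ Algebra.trdeg ℚ
      (IntermediateField.adjoin ℚ (G ∪ (fun s => z * x s - y s) '' (S : Set σ)))) ∧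
  (∀ o o' : Option σ, IsAlgebraic ℚ (o.elim z fun s => z * x s - y s) →
    IsAlgebraic ℚ (o'.elim z fun s => z * x s - y s) → o = o') ∧
  (IsAlgebraic ℚ z → AlgebraicIndependent ℚ (fun s => z * x s - y s)) ∧
  (∀ (r : ℕ) (w : Fin r → ℝ), IsAlgebraic (IntermediateField.adjoin ℚ (Set.range w)) z →
    {i : Fin r ⊕ σ | IsAlgebraic ℚ (i.elim w fun s => z * x s - y s)}.encard ≤ (r : ℕ∞))

/-- BEU2: the exponential integral and its derivatives -/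
def S_BEU2 : Prop := ∀ (j : ℕ) (t : ℝ), ∫ p : ℝ × ℝ × ℝ in Set.Ioo 0 1 ×ˢ Set.Ioo 0 1 ×ˢ Set.Ioo 0 1,
    beu p.1 p.2.1 p.2.2 ^ j * Real.exp (t * beu p.1 p.2.1 p.2.2) / (1 - (1 - p.1 * p.2.1) * p.2.2) =
      2 * ∑' n : ℕ, Jn (n + j) * t ^ n / (n.factorial : ℝ)

/-- IV: linear form of the derivatives -/
def S_IV : Prop := ∀ a b : ℕ → ℚ, EFc a → EFc b → (∀ n, Jn n = (a n : ℝ) * z3 - (b n : ℝ)) → ∀ (j : ℕ) (t : ℚ),
  ∑' n : ℕ, Jn (n + j) * (t : ℝ) ^ n / (n.factorial : ℝ) = z3 * dv a t j - dv b t j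

end Pool.Agent.E8helper42.AZ
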