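import Mathlib
import Pool.Agent.E8helper42.AZ.Stm4

/-!
# Project AZ, fifth round: `ζ(2)` and `ζ(3)` together (blocks of different sizes)
-/

set_option autoImplicit false

namespace Pool.Agent.E8helper42.AZ

open Polynomial

/-- a matrix in the upper left corner -/
def padM {S : Type} [Zero S] {m : ℕ} (n : ℕ) (M : Matrix (Fin m) (Fin m) S) : Matrix (Fin n) (Fin n) S :=
  Matrix.of fun a b => if h : (a : ℕ) < m ∧ (b : ℕ) < m then M ⟨a, h.1⟩ ⟨b, h.2⟩ else 0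

/-- a vector in the first coordinates -/
def padV {S : Type} [Zero S] {m : ℕ} (n : ℕ) (v : Fin m → S) : Fin n → S :=
  fun a => if h : (a : ℕ) < m then v ⟨a, h⟩ else 0

/-- the blocks: `none` (exponential function), `some (inl i)` (size `n₁`), `some (inr i)` (size `n₂`) -/
def padA {ι₁ ι₂ S : Type} [Zero S] {n₁ n₂ : ℕ} (n : ℕ) (x₁ : Aff ι₁ n₁ S) (x₂ : Aff ι₂ n₂ S)
    (x₀ : Matrix (Fin n) (Fin n) S × (Fin n → S)) : Aff (Option (ι₁ ⊕ ι₂)) n S :=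
  fun o => o.elim x₀ (Sum.elim (fun i => (padM n (x₁ i).1, padV n (x₁ i).2)) (fun i => (padM n (x₂ i).1, padV n (x₂ i).2)))

/-- data of one family of blocks -/
structure Family (F R₀ R₁ : Type) [Field F] [Algebra ℂ F] [CommRing R₀] [Algebra ℂ R₀] [Algebra F R₀]
    [CommRing R₁] [Algebra ℂ R₁] [Algebra F R₁] (θF : Derivation ℂ F F) (θ₀ δ₀ : Derivation ℂ R₀ R₀)
    (θ₁ δ₁ : Derivation ℂ R₁ R₁) (ι : Type) (n : ℕ) where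
  A : ι → Matrix (Fin n) (Fin n) F
  g : ι → Fin n → F
  irr : ∀ i, ∀ W : Submodule F (Fin n → F), (∀ w ∈ W, θF ∘ w - (A i).mulVec w ∈ W) → W = ⊥ ∨ W = ⊤
  nosol : ∀ i, ¬ ∃ b : Fin n → F, θF ∘ b = (A i).mulVec b + g i
  Φ₀ : ι → Matrix (Fin n) (Fin n) R₀
  Ψ₀ : ι → Matrix (Fin n) (Fin n) R₀
  b₀ : ι → Fin n → R₀
  inv₀ : ∀ i, Φ₀ i * Ψ₀ i = 1
  sol₀ : ∀ i, (Φ₀ i).map θ₀ = (A i).map (algebraMap F R₀) * Φ₀ i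
  part₀ : ∀ i, θ₀ ∘ (b₀ i) = ((A i).map (algebraMap F R₀)).mulVec (b₀ i) + algebraMap F R₀ ∘ (g i)
  nil₀ : ∀ i, ((Φ₀ i).map δ₀ * Ψ₀ i) ^ n = 0 ∧ ((Φ₀ i).map δ₀ * Ψ₀ i) ^ (n - 1) ≠ 0
  t : ι → ℚ
  c : Fin n
  Φ₁ : ι → Matrix (Fin n) (Fin n) R₁
  Ψ₁ : ι → Matrix (Fin n) (Fin n) R₁
  b₁ : ι → Fin n → R₁
  pos : ∀ i, 0 < t i
  inj : Function.Injective t
  inv₁ : ∀ i, Φ₁ i * Ψ₁ i = 1
  sol₁ : ∀ i, (Φ₁ i).map θ₁ = (A i).map (algebraMap F R₁) * Φ₁ i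
  part₁ : ∀ i, θ₁ ∘ (b₁ i) = ((A i).map (algebraMap F R₁)).mulVec (b₁ i) + algebraMap F R₁ ∘ (g i)
  del₁ : ∀ i, (Φ₁ i).map δ₁ = Φ₁ i * Matrix.single c c (algebraMap ℂ R₁ (t i : ℂ))
  delb₁ : ∀ i, δ₁ ∘ (b₁ i) = 0

/-- MIX: two families of blocks of sizes `n₁`, `n₂ ≤ n` and an exponential function. The derivation `δ'` of `R₁` kills
the solutions of the first family, and acts on the solutions of the second family by non-scalar constant matrices. -/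
def S_MIX : Prop := S_STAR → S_LA → S_ML → S_KT → S_H → S_IRR2 →
  ∀ (ι₁ ι₂ : Type) [Fintype ι₁] [DecidableEq ι₁] [Fintype ι₂] [DecidableEq ι₂] (n n₁ n₂ : ℕ) (F R₀ R₁ : Type) [Field F]
  [CharZero F] [Algebra ℂ F]
  [CommRing R₀] [IsDomain R₀] [Algebra ℂ R₀] [Algebra F R₀] [IsScalarTower ℂ F R₀]
  [CommRing R₁] [IsDomain R₁] [Algebra ℂ R₁] [Algebra F R₁] [IsScalarTower ℂ F R₁]
  (θF : Derivation ℂ F F) (θ₀ δ₀ : Derivation ℂ R₀ R₀) (θ₁ δ₁ δ₂ δ' : Derivation ℂ R₁ R₁),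
  2 ≤ n₁ → n₁ ≤ n → 2 ≤ n₂ → n₂ ≤ n →
  (∀ a, θ₀ (algebraMap F R₀ a) = algebraMap F R₀ (θF a)) → DSimple θ₀ → (∀ a, δ₀ (algebraMap F R₀ a) = 0) →
  (∀ a, θ₀ (δ₀ a) = δ₀ (θ₀ a)) →
  (∀ a, θ₁ (algebraMap F R₁ a) = algebraMap F R₁ (θF a)) → DSimple θ₁ → (∀ a, δ₁ (algebraMap F R₁ a) = 0) →
  (∀ a, δ₂ (algebraMap F R₁ a) = 0) → (∀ a, δ' (algebraMap F R₁ a) = 0) →
  ∀ (f₁ : Family F R₀ R₁ θF θ₀ δ₀ θ₁ δ₁ ι₁ n₁) (f₂ : Family F R₀ R₁ θF θ₀ δ₀ θ₁ δ₂ ι₂ n₂) (e : F) (c₀ : Fin n),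
  -- the separating derivation
  (∀ i, (f₁.Φ₁ i).map δ' = 0) → (∀ i, δ' ∘ f₁.b₁ i = 0) → (∀ i, δ' ∘ f₂.b₁ i = 0) →
  (∀ i, ∃ M : Matrix (Fin n₂) (Fin n₂) ℂ, (∀ z : ℂ, M ≠ z • (1 : Matrix (Fin n₂) (Fin n₂) ℂ)) ∧
    (f₂.Φ₁ i).map δ' = f₂.Φ₁ i * M.map (algebraMap ℂ R₁)) →
  -- the exponential function
  (∃ E E' : R₀, E * E' = 1 ∧ θ₀ E = algebraMap F R₀ e * E) →
  (∃ E E' : R₁, E * E' = 1 ∧ θ₁ E = algebraMap F R₁ e * E) →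
  ∀ p : Ideal (MvPolynomial (Vr (Option (ι₁ ⊕ ι₂)) n) F), p.IsPrime →
  (∀ P ∈ p, ∀ Q, IsCoef θF P Q → Q + Del (padA n (fun i => (f₁.A i, f₁.g i)) (fun i => (f₂.A i, f₂.g i))
    (Matrix.single c₀ c₀ e, 0)) P ∈ p) →
  ∀ (x₁ : Aff ι₁ n₁ F) (x₂ : Aff ι₂ n₂ F), (∀ i, (x₁ i).1.trace = 0) → (∀ i, (x₂ i).1.trace = 0) →
    ∀ P ∈ p, Del (padA n x₁ x₂ (0, 0)) P ∈ p

/-- IDM: the ideal -/
def S_IDM : Prop := ∀ (ι₁ ι₂ : Type) [Fintype ι₁] [DecidableEq ι₁] [Fintype ι₂] [DecidableEq ι₂] (n n₁ n₂ : ℕ) (F : Type)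
  [Field F] [CharZero F] (c₀ : Fin n) (p : Ideal (MvPolynomial (Vr (Option (ι₁ ⊕ ι₂)) n) F)), p.IsPrime → n₁ ≤ n → n₂ ≤ n →
  (∀ i : ι₁, ∃ c c' : Fin n, (c : ℕ) < n₁ ∧ (c' : ℕ) < n₁ ∧ c ≠ c' ∧ MvPolynomial.X (Sum.inl (some (Sum.inl i), c)) ∉ p ∧
    MvPolynomial.X (Sum.inl (some (Sum.inl i), c')) ∉ p) →
  (∀ i : ι₂, ∃ c c' : Fin n, (c : ℕ) < n₂ ∧ (c' : ℕ) < n₂ ∧ c ≠ c' ∧ MvPolynomial.X (Sum.inl (some (Sum.inr i), c)) ∉ p ∧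
    MvPolynomial.X (Sum.inl (some (Sum.inr i), c')) ∉ p) →
  (∀ (x₁ : Aff ι₁ n₁ F) (x₂ : Aff ι₂ n₂ F), (∀ i, (x₁ i).1.trace = 0) → (∀ i, (x₂ i).1.trace = 0) →
    ∀ P ∈ p, Del (padA n x₁ x₂ (0, 0)) P ∈ p) →
  ∀ P ∈ p, P ≠ 0 → (∀ v ∈ P.vars, v = Sum.inl (none, c₀) ∨
    (∃ (i : ι₁) (c : Fin n), (c : ℕ) < n₁ ∧ (v = Sum.inl (some (Sum.inl i), c) ∨ v = Sum.inr (some (Sum.inl i), c))) ∨
    ∃ (i : ι₂) (c : Fin n), (c : ℕ) < n₂ ∧ (v = Sum.inl (some (Sum.inr i), c) ∨ v = Sum.inr (some (Sum.inr i), c))) →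
  ∃ q : F[X], q ≠ 0 ∧
    Polynomial.aeval (MvPolynomial.X (Sum.inl (none, c₀)) : MvPolynomial (Vr (Option (ι₁ ⊕ ι₂)) n) F) q ∈ p

/-- P3G: as `S_P3`, the solutions at infinity with all linear functionals at once -/
def S_P3G : Prop := S_STAR → S_W → S_IA → S_IB → S_IC → S_KAP3 → ∀ t : ℚ, 0 < t →
  (∀ W : Submodule FF (Fin 3 → FF), (∀ w ∈ W, thF ∘ w - (AF3 t).mulVec w ∈ W) → W = ⊥ ∨ W = ⊤) ∧
  (¬ ∃ b : Fin 3 → FF, thF ∘ b = (AF3 t).mulVec b + gF3 (-5 * t)) ∧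
  (∃ Φ Ψ : Matrix (Fin 3) (Fin 3) (RD d0), Φ * Ψ = 1 ∧ Φ.map (thD d0) = (AF3 t).map (algebraMap FF (RD d0)) * Φ ∧
    ∀ δ : Derivation ℂ (RD d0) (RD d0), δ = (cw 1 0 : Derivation ℂ RR RR) → (Φ.map δ * Ψ) ^ 3 = 0 ∧ (Φ.map δ * Ψ) ^ 2 ≠ 0) ∧
  ∃ (Φ Ψ : Matrix (Fin 3) (Fin 3) (RD dI)) (b : Fin 3 → RD dI), Φ * Ψ = 1 ∧
      Φ.map (thD dI) = (AF3 t).map (algebraMap FF (RD dI)) * Φ ∧
      thD dI ∘ b = ((AF3 t).map (algebraMap FF (RD dI))).mulVec b + algebraMap FF (RD dI) ∘ gF3 (-5 * t) ∧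
      ∀ κ : ℝ →ₗ[ℚ] ℚ, ∀ χ : Gam →+ ℂ, (∀ g, χ g = -((κ (p1 g) : ℚ) : ℂ)) →
      ∀ δ : Derivation ℂ (RD dI) (RD dI), δ = (cw 0 χ : Derivation ℂ RR RR) →
        Φ.map δ = Φ * (Matrix.diagonal ![((t * κ ((-11 + 5 * √5) / 2) : ℚ) : ℂ), ((t * κ ((-11 - 5 * √5) / 2) : ℚ) : ℂ), 0]).map
          (algebraMap ℂ (RD dI)) ∧ δ ∘ b = 0

/-- SSEM: application of the theorem of Siegel and Shidlovskii, everything together -/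
def S_SSEM : Prop := ∀ a b a' b' : ℕ → ℚ, AperyPair a b → EFc a → EFc b → AperyPair2 a' b' → EFc a' → EFc b' →
  ∀ T T' : Finset ℚ, (∀ t ∈ T, t ≠ 0) → (∀ t ∈ T', t ≠ 0) →
  AlgebraicIndependent (Polynomial ℚ) (fun o : Option (((T × Fin 4) ⊕ (T × Fin 4)) ⊕ ((T' × Fin 3) ⊕ (T' × Fin 3))) =>
    o.elim (PowerSeries.exp ℚ) (Sum.elim (fam a b T) (fam3 a' b' T'))) →
  AlgebraicIndependent ℚ (fun o : Option (((T × Fin 4) ⊕ (T × Fin 4)) ⊕ ((T' × Fin 3) ⊕ (T' × Fin 3))) =>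
    o.elim (Real.exp 1) (Sum.elim (vals a b T) (vals3 a' b' T')))

/-- KAPM: the linear functionals -/
def S_KAPM : Prop :=
  (∃ κ : ℝ →ₗ[ℚ] ℚ, κ (17 + 12 * √2) = 0 ∧ κ (17 - 12 * √2) = 0 ∧ κ ((-11 + 5 * √5) / 2) = 1 ∧ κ ((-11 - 5 * √5) / 2) = -1)

/-- FGM: the final algebra: `e` and two families -/
def S_FGM : Prop := ∀ (σ σ' : Type) (w z z' : ℝ) (x y : σ → ℝ) (x' y' : σ' → ℝ),
  AlgebraicIndependent ℚ (fun o : Option ((σ ⊕ σ) ⊕ (σ' ⊕ σ')) => o.elim w (Sum.elim (Sum.elim x y) (Sum.elim x' y'))) →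
  ∀ G : Set ℝ, IsAlgebraic (IntermediateField.adjoin ℚ ({w} ∪ G)) z → IsAlgebraic (IntermediateField.adjoin ℚ ({w} ∪ G)) z' →
  ∀ (S : Finset σ) (S' : Finset σ'), ((S.card + S'.card + 1 : ℕ) : Cardinal) ≤ Algebra.trdeg ℚ
      (IntermediateField.adjoin ℚ ({w} ∪ G ∪ (fun s => z * x s - y s) '' (S : Set σ) ∪
        (fun s => z' * x' s - y' s) '' (S' : Set σ')))

end Pool.Agent.E8helper42.AZ
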