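import Mathlib
import Pool.Agent.E8helper71.AZ.Fge
import Pool.Agent.E8helper73.AZ.Cnt
import Pool.Agent.E8helper77.AZ.FGM

/-!
# Project AZ: the final algebra for two families, all forms
-/

set_option autoImplicit false

namespace Pool.Agent.E8helper42.AZ

open Pool.Agent.E8helper71.AZ Pool.Agent.E8helper73.AZ

/-- finitely many numbers are algebraically independent, if the transcendence degree is large enough -/
theorem indep_of_le {ι : Type} [Finite ι] (v : ι → ℝ)
    (h : Cardinal.mk ι ≤ Algebra.trdeg ℚ (IntermediateField.adjoin ℚ (Set.range v))) : AlgebraicIndependent ℚ v := by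
  set G : Set ℝ := Set.range v with hG
  set K := IntermediateField.adjoin ℚ G with hK
  have hGK : G ⊆ K := IntermediateField.subset_adjoin ℚ G
  let v' : ι → K := fun i => ⟨v i, hGK ⟨i, rfl⟩⟩
  have hr : Set.range v' = {u : K | (u : ℝ) ∈ G} := by
    ext u
    constructor
    · rintro ⟨i, rfl⟩
      exact ⟨i, rfl⟩
    · rintro ⟨i, hi⟩
      exact ⟨i, Subtype.ext hi⟩
  have : Algebra.IsAlgebraic (Algebra.adjoin ℚ (Set.range v')) K := by
    rw [hr]
    apply algA
    intro g hg
    exact Or.inl hg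
  have hb := Algebra.IsAlgebraic.isTranscendenceBasis_of_le_trdeg_of_finite ℚ v' h
  exact hb.1.map' (f := K.val) K.val.injective

/-- algebraicity over the field generated by a larger set -/
theorem alg_mono {G G' : Set ℝ} (h : G ⊆ G') {u : ℝ} (hu : IsAlgebraic (IntermediateField.adjoin ℚ G) u) :
    IsAlgebraic (IntermediateField.adjoin ℚ G') u := by
  have hle : IntermediateField.adjoin ℚ G ≤ IntermediateField.adjoin ℚ G' :=
    IntermediateField.adjoin.mono ℚ G G' h
  let _ : Algebra (IntermediateField.adjoin ℚ G) (IntermediateField.adjoin ℚ G') :=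
    (IntermediateField.inclusion hle).toAlgebra
  have : IsScalarTower (IntermediateField.adjoin ℚ G) (IntermediateField.adjoin ℚ G') ℝ :=
    IsScalarTower.of_algebraMap_eq fun _ => rfl
  exact hu.tower_top _

theorem alg_mem {G : Set ℝ} {u : ℝ} (hu : u ∈ G) : IsAlgebraic (IntermediateField.adjoin ℚ G) u :=
  isAlgebraic_algebraMap (⟨u, IntermediateField.subset_adjoin ℚ G hu⟩ : IntermediateField.adjoin ℚ G)

/-- one more generator -/
theorem trdeg_insert (G : Set ℝ) (w : ℝ) (r : ℕ) (h : Algebra.trdeg ℚ (IntermediateField.adjoin ℚ G) ≤ (r : Cardinal)) :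
    Algebra.trdeg ℚ (IntermediateField.adjoin ℚ ({w} ∪ G)) ≤ ((r + 1 : ℕ) : Cardinal) := by
  refine (trdeg_adjoin_le (IntermediateField.adjoin ℚ G) ({w} ∪ G) {w} ?_).trans ?_
  · rintro g (hg | hg)
    · exact Or.inl hg
    · exact Or.inr (alg_mem hg)
  · rw [Cardinal.mk_singleton, Nat.cast_add, Nat.cast_one]
    exact add_le_add h le_rfl

/-- the three numbers `u, v, w` are dependent: small transcendence degree -/
theorem trdeg_three (u v w : ℝ) (h : ¬ AlgebraicIndependent ℚ ![u, v, w]) :
    Algebra.trdeg ℚ (IntermediateField.adjoin ℚ {u, v, w}) ≤ ((2 : ℕ) : Cardinal) := by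
  by_contra hcon
  apply h
  apply indep_of_le
  have hr : Set.range ![u, v, w] = {u, v, w} := by
    rw [Matrix.range_cons, Matrix.range_cons, Matrix.range_cons, Matrix.range_empty]
    ext x
    simp only [Set.union_empty, Set.mem_union, Set.mem_insert_iff, Set.mem_singleton_iff]
  rw [hr]
  push Not at hcon
  have h2 := Order.succ_le_of_lt hcon
  rw [Cardinal.succ_natCast] at h2
  rw [Cardinal.mk_fin]
  have h4 : ((Nat.succ (Nat.succ (Nat.succ 0)) : ℕ) : Cardinal) = ((2 : ℕ) : Cardinal) + 1 := by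
    rw [← Nat.cast_one, ← Nat.cast_add]
  rw [h4]
  exact h2

theorem trdeg_three' (u v w : ℝ) :
    Algebra.trdeg ℚ (IntermediateField.adjoin ℚ {u, v, w}) ≤ ((3 : ℕ) : Cardinal) := by
  refine (trdegB (k := ℚ) {u, v, w} {u, v, w} fun g hg => alg_mem hg).trans ?_
  refine (Cardinal.mk_insert_le).trans ?_
  have h2 : Cardinal.mk ({v, w} : Set ℝ) ≤ 1 + 1 := by
    refine (Cardinal.mk_insert_le).trans ?_
    rw [Cardinal.mk_singleton]
  refine (add_le_add h2 le_rfl).trans ?_
  norm_num

section

variable {σ σ' : Type} {w z z' : ℝ} {x y : σ → ℝ} {x' y' : σ' → ℝ}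

/-- over a field `ℚ(w, G)` over which `z` and `z'` are algebraic -/
theorem cnt0 (hind : AlgebraicIndependent ℚ (fun o : Option ((σ ⊕ σ) ⊕ (σ' ⊕ σ')) =>
      o.elim w (Sum.elim (Sum.elim x y) (Sum.elim x' y')))) (G : Set ℝ)
    (hz : IsAlgebraic (IntermediateField.adjoin ℚ ({w} ∪ G)) z)
    (hz' : IsAlgebraic (IntermediateField.adjoin ℚ ({w} ∪ G)) z') (m : ℕ)
    (hm : Algebra.trdeg ℚ (IntermediateField.adjoin ℚ ({w} ∪ G)) ≤ ((m + 1 : ℕ) : Cardinal)) :
    {i : σ ⊕ σ' | IsAlgebraic (IntermediateField.adjoin ℚ ({w} ∪ G))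
      (i.elim (fun s => z * x s - y s) (fun s => z' * x' s - y' s))}.encard ≤ (m : ℕ∞) := by
  classical
  by_contra hcon
  push Not at hcon
  have h0 := Order.add_one_le_of_lt hcon
  obtain ⟨T, hT, hTc⟩ := Set.exists_subset_encard_eq h0
  have hTf : T.Finite := Set.finite_of_encard_eq_coe (k := m + 1) (by rw [hTc]; push_cast; rfl)
  obtain ⟨F, rfl⟩ : ∃ F : Finset (σ ⊕ σ'), T = (F : Set (σ ⊕ σ')) := ⟨hTf.toFinset, by simp⟩
  rw [Set.encard_coe_eq_coe_finsetCard] at hTc
  have hFc : F.card = m + 1 := by exact_mod_cast hTc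
  have hAS : F.toLeft.card + F.toRight.card = m + 1 := by
    rw [← hFc]
    exact Finset.card_toLeft_add_card_toRight
  have h1 := E8helper77.AZ.fgm σ σ' w z z' x y x' y' hind G hz hz' F.toLeft F.toRight
  have h2 := trdeg_adjoin_le (IntermediateField.adjoin ℚ ({w} ∪ G)) ({w} ∪ G ∪ (fun s => z * x s - y s) ''
    (F.toLeft : Set σ) ∪ (fun s => z' * x' s - y' s) '' (F.toRight : Set σ')) ∅ (by
      rintro g ((hg | ⟨s, hs, rfl⟩) | ⟨s, hs, rfl⟩)
      · exact Or.inr (alg_mem hg)
      · exact Or.inr (hT (Finset.mem_toLeft.mp hs))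
      · exact Or.inr (hT (Finset.mem_toRight.mp hs)))
  rw [Cardinal.mk_eq_zero, add_zero] at h2
  have h3 := (h1.trans h2).trans hm
  have h4 : F.toLeft.card + F.toRight.card + 1 ≤ m + 1 := by exact_mod_cast h3
  omega

/-- the general count -/
theorem cnt1 (hind : AlgebraicIndependent ℚ (fun o : Option ((σ ⊕ σ) ⊕ (σ' ⊕ σ')) =>
      o.elim w (Sum.elim (Sum.elim x y) (Sum.elim x' y')))) (G : Set ℝ) (r : ℕ)
    (hr : Algebra.trdeg ℚ (IntermediateField.adjoin ℚ ({w} ∪ G)) ≤ ((r + 1 : ℕ) : Cardinal)) :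
    {i : Option σ ⊕ Option σ' | IsAlgebraic (IntermediateField.adjoin ℚ ({w} ∪ G))
      (i.elim (fun o => o.elim z fun s => z * x s - y s) (fun o => o.elim z' fun s => z' * x' s - y' s))}.encard ≤
      ((r + 2 : ℕ) : ℕ∞) := by
  classical
  set K := IntermediateField.adjoin ℚ ({w} ∪ G) with hK
  by_contra hcon
  push Not at hcon
  have h0 := Order.add_one_le_of_lt hcon
  obtain ⟨T, hT, hTc⟩ := Set.exists_subset_encard_eq h0
  have hTf : T.Finite := Set.finite_of_encard_eq_coe (k := r + 2 + 1) (by rw [hTc]; push_cast; rfl)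
  obtain ⟨F, rfl⟩ : ∃ F : Finset (Option σ ⊕ Option σ'), T = (F : Set (Option σ ⊕ Option σ')) :=
    ⟨hTf.toFinset, by simp⟩
  rw [Set.encard_coe_eq_coe_finsetCard] at hTc
  have hFc : F.card = r + 3 := by exact_mod_cast hTc
  have hAS : F.toLeft.card + F.toRight.card = r + 3 := by
    rw [← hFc]
    exact Finset.card_toLeft_add_card_toRight
  set A := F.toLeft with hA
  set A' := F.toRight with hA'
  have hAal : ∀ o ∈ A, IsAlgebraic K (o.elim z fun s => z * x s - y s) :=
    fun o ho => hT (Finset.mem_toLeft.mp ho)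
  have hAal' : ∀ o ∈ A', IsAlgebraic K (o.elim z' fun s => z' * x' s - y' s) :=
    fun o ho => hT (Finset.mem_toRight.mp ho)
  set d : ℕ := if (none : Option σ) ∈ A then 1 else 0 with hd
  set d' : ℕ := if (none : Option σ') ∈ A' then 1 else 0 with hd'
  set s0 : Set ℝ := (if (none : Option σ) ∈ A then ∅ else {z}) ∪ (if (none : Option σ') ∈ A' then ∅ else {z'})
    with hs0
  have hc : ∀ {τ : Type} (B : Finset (Option τ)), B.card ≤ B.eraseNone.card + if (none : Option τ) ∈ B then 1 else 0 := by
    intro τ B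
    by_cases hn : (none : Option τ) ∈ B
    · rw [if_pos hn]
      have := Finset.card_le_card (show B ⊆ insert none (B.eraseNone.map Function.Embedding.some) from by
        intro x hx
        rcases x with _ | x
        · exact Finset.mem_insert_self _ _
        · apply Finset.mem_insert_of_mem
          rw [Finset.mem_map]
          exact ⟨x, Finset.mem_eraseNone.mpr hx, rfl⟩)
      refine this.trans ((Finset.card_insert_le _ _).trans ?_)
      rw [Finset.card_map]
    · rw [if_neg hn]
      have := Finset.card_le_card (show B ⊆ B.eraseNone.map Function.Embedding.some from by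
        intro x hx
        rcases x with _ | x
        · exact absurd hx hn
        · rw [Finset.mem_map]
          exact ⟨x, Finset.mem_eraseNone.mpr hx, rfl⟩)
      rwa [Finset.card_map] at this
  have hs0c : Cardinal.mk s0 + ((d + d' : ℕ) : Cardinal) ≤ ((2 : ℕ) : Cardinal) := by
    have hb : Cardinal.mk s0 ≤ (((1 - d) + (1 - d') : ℕ) : Cardinal) := by
      refine (Cardinal.mk_union_le _ _).trans ?_
      rw [Nat.cast_add]
      apply add_le_add
      · by_cases hn : (none : Option σ) ∈ A
        · simp [hd, hn]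
        · simp [hd, hn]
      · by_cases hn : (none : Option σ') ∈ A'
        · simp [hd', hn]
        · simp [hd', hn]
    refine (add_le_add hb le_rfl).trans ?_
    have hd1 : d ≤ 1 := by rw [hd]; split_ifs <;> omega
    have hd1' : d' ≤ 1 := by rw [hd']; split_ifs <;> omega
    rw [← Nat.cast_add]
    exact_mod_cast (show 1 - d + (1 - d') + (d + d') ≤ 2 by omega)
  have h1 := E8helper77.AZ.fgm σ σ' w z z' x y x' y' hind (G ∪ {z, z'})
    (alg_mem (Or.inr (Or.inr (Or.inl rfl)))) (alg_mem (Or.inr (Or.inr (Or.inr rfl)))) A.eraseNone A'.eraseNone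
  have h2 := trdeg_adjoin_le K ({w} ∪ (G ∪ {z, z'}) ∪ (fun s => z * x s - y s) ''
    (A.eraseNone : Set σ) ∪ (fun s => z' * x' s - y' s) '' (A'.eraseNone : Set σ')) s0 (by
      rintro g (((hg | (hg | hg)) | ⟨s, hs, rfl⟩) | ⟨s, hs, rfl⟩)
      · exact Or.inr (alg_mem (Or.inl hg))
      · exact Or.inr (alg_mem (Or.inr hg))
      · rcases hg with hg | hg
        · by_cases hn : (none : Option σ) ∈ A
          · right
            rw [hg]
            exact hAal none hn
          · left
            left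
            rw [if_neg hn]
            exact hg
        · by_cases hn : (none : Option σ') ∈ A'
          · right
            rw [Set.mem_singleton_iff.mp hg]
            exact hAal' none hn
          · left
            right
            rw [if_neg hn]
            exact hg
      · exact Or.inr (hAal (some s) (Finset.mem_eraseNone.mp hs))
      · exact Or.inr (hAal' (some s) (Finset.mem_eraseNone.mp hs)))
  have h3 : (((A.eraseNone.card + A'.eraseNone.card + 1) + (d + d') : ℕ) : Cardinal) ≤ ((r + 1 + 2 : ℕ) : Cardinal) := by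
    rw [Nat.cast_add]
    refine (add_le_add (h1.trans h2) le_rfl).trans ?_
    rw [add_assoc, Nat.cast_add (r + 1) 2]
    exact add_le_add hr hs0c
  have h4 : A.eraseNone.card + A'.eraseNone.card + 1 + (d + d') ≤ r + 1 + 2 := by exact_mod_cast h3
  have h5 := hc A
  have h6 := hc A'
  rw [← hd] at h5
  rw [← hd'] at h6
  omega

/-- if `z` and `z'` are algebraic over `ℚ(w)` -/
theorem indep2 (hind : AlgebraicIndependent ℚ (fun o : Option ((σ ⊕ σ) ⊕ (σ' ⊕ σ')) =>
      o.elim w (Sum.elim (Sum.elim x y) (Sum.elim x' y'))))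
    (hz : IsAlgebraic (IntermediateField.adjoin ℚ {w}) z)
    (hz' : IsAlgebraic (IntermediateField.adjoin ℚ {w}) z') :
    AlgebraicIndependent ℚ (fun o : Option (σ ⊕ σ') =>
      o.elim w (Sum.elim (fun s => z * x s - y s) (fun s => z' * x' s - y' s))) := by
  classical
  refine algebraicIndependent_of_finite_type fun t ht => ?_
  have : Finite t := ht.to_subtype
  set F : Finset (σ ⊕ σ') := ht.toFinset.eraseNone with hF
  set S := F.toLeft with hS
  set S' := F.toRight with hS'
  have h3 := E8helper77.AZ.fgm σ σ' w z z' x y x' y' hind (∅ : Set ℝ) (by rw [Set.union_empty]; exact hz)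
    (by rw [Set.union_empty]; exact hz') S S'
  let v : Option (S ⊕ S') → ℝ := fun o => o.elim w (Sum.elim (fun p => z * x p.1 - y p.1) (fun p => z' * x' p.1 - y' p.1))
  have hv : AlgebraicIndependent ℚ v := by
    apply indep_of_le
    have hr : Set.range v = {w} ∪ ∅ ∪ (fun s => z * x s - y s) '' (S : Set σ) ∪
        (fun s => z' * x' s - y' s) '' (S' : Set σ') := by
      ext u
      constructor
      · rintro ⟨o, rfl⟩
        rcases o with _ | p | p
        · exact Or.inl (Or.inl (Or.inl rfl))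
        · exact Or.inl (Or.inr ⟨p.1, p.2, rfl⟩)
        · exact Or.inr ⟨p.1, p.2, rfl⟩
      · rintro (((hu | hu) | ⟨q, hq, hqx⟩) | ⟨q, hq, hqx⟩)
        · exact ⟨none, (Set.mem_singleton_iff.mp hu).symm⟩
        · exact absurd hu (Set.notMem_empty _)
        · exact ⟨some (Sum.inl ⟨q, hq⟩), hqx⟩
        · exact ⟨some (Sum.inr ⟨q, hq⟩), hqx⟩
    rw [hr, Cardinal.mk_option, Cardinal.mk_sum, Cardinal.lift_id, Cardinal.lift_id, Cardinal.mk_coe_finset,
      Cardinal.mk_coe_finset]
    rw [Nat.cast_add, Nat.cast_add, Nat.cast_one] at h3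
    exact h3
  have hmem : ∀ o ∈ t, ∀ s, o = some s → s ∈ F := by
    intro o ho s hs
    rw [hF, Finset.mem_eraseNone, ht.mem_toFinset, ← hs]
    exact ho
  let e : t → Option (S ⊕ S') := fun o => match h : o.1 with
    | none => none
    | some (Sum.inl s) => some (Sum.inl ⟨s, Finset.mem_toLeft.mpr (hmem o.1 o.2 _ h)⟩)
    | some (Sum.inr s) => some (Sum.inr ⟨s, Finset.mem_toRight.mpr (hmem o.1 o.2 _ h)⟩)
  have he : ∀ o : t, (e o).map (Sum.map Subtype.val Subtype.val) = o.1 := by
    rintro ⟨o, ho⟩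
    rcases o with _ | s | s
    · rfl
    · rfl
    · rfl
  have hinj : Function.Injective e := by
    intro o o' h
    apply Subtype.ext
    rw [← he o, ← he o', h]
  have h5 := hv.comp e hinj
  convert h5 using 1
  funext o
  obtain ⟨o, ho⟩ := o
  rcases o with _ | s | s
  · rfl
  · rfl
  · rfl

end

/-- the count for one family -/
theorem cntOne {τ : Type} {w z : ℝ} {x y : τ → ℝ}
    (hind : AlgebraicIndependent ℚ (fun o : Option (τ ⊕ τ) => o.elim w (Sum.elim x y))) (G : Set ℝ) (r : ℕ)
    (hr : Algebra.trdeg ℚ (IntermediateField.adjoin ℚ ({w} ∪ G)) ≤ ((r + 1 : ℕ) : Cardinal)) :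
    {o : Option τ | IsAlgebraic (IntermediateField.adjoin ℚ ({w} ∪ G))
      (o.elim z fun s => z * x s - y s)}.encard ≤ ((r + 1 : ℕ) : ℕ∞) := by
  classical
  set K := IntermediateField.adjoin ℚ ({w} ∪ G) with hK
  by_contra hcon
  push Not at hcon
  have h0 := Order.add_one_le_of_lt hcon
  obtain ⟨T, hT, hTc⟩ := Set.exists_subset_encard_eq h0
  have hTf : T.Finite := Set.finite_of_encard_eq_coe (k := r + 1 + 1) (by rw [hTc]; push_cast; rfl)
  obtain ⟨A, rfl⟩ : ∃ F : Finset (Option τ), T = (F : Set (Option τ)) := ⟨hTf.toFinset, by simp⟩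
  rw [Set.encard_coe_eq_coe_finsetCard] at hTc
  have hFc : A.card = r + 2 := by exact_mod_cast hTc
  have hAal : ∀ o ∈ A, IsAlgebraic K (o.elim z fun s => z * x s - y s) := fun o ho => hT ho
  have h1 := fge1 hind (G ∪ {z}) (alg_mem (Or.inr (Or.inr rfl))) A.eraseNone
  by_cases hn : (none : Option τ) ∈ A
  · have h2 := trdeg_adjoin_le K ({w} ∪ (G ∪ {z}) ∪ (fun s => z * x s - y s) '' (A.eraseNone : Set τ)) ∅ (by
      rintro g ((hg | (hg | hg)) | ⟨s, hs, rfl⟩)
      · exact Or.inr (alg_mem (Or.inl hg))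
      · exact Or.inr (alg_mem (Or.inr hg))
      · right
        rw [hg]
        exact hAal none hn
      · exact Or.inr (hAal (some s) (Finset.mem_eraseNone.mp hs)))
    rw [Cardinal.mk_eq_zero, add_zero] at h2
    have h4 : A.eraseNone.card + 1 ≤ r + 1 := by exact_mod_cast (h1.trans h2).trans hr
    have := Finset.card_le_card (show A ⊆ insert none (A.eraseNone.map Function.Embedding.some) from by
      intro x hx
      rcases x with _ | x
      · exact Finset.mem_insert_self _ _
      · apply Finset.mem_insert_of_mem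
        rw [Finset.mem_map]
        exact ⟨x, Finset.mem_eraseNone.mpr hx, rfl⟩)
    have h5 := this.trans (Finset.card_insert_le _ _)
    rw [Finset.card_map] at h5
    omega
  · have h2 := trdeg_adjoin_le K ({w} ∪ (G ∪ {z}) ∪ (fun s => z * x s - y s) '' (A.eraseNone : Set τ)) {z} (by
      rintro g ((hg | (hg | hg)) | ⟨s, hs, rfl⟩)
      · exact Or.inr (alg_mem (Or.inl hg))
      · exact Or.inr (alg_mem (Or.inr hg))
      · exact Or.inl hg
      · exact Or.inr (hAal (some s) (Finset.mem_eraseNone.mp hs)))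
    rw [Cardinal.mk_singleton] at h2
    have h3 : ((A.eraseNone.card + 1 : ℕ) : Cardinal) ≤ ((r + 1 + 1 : ℕ) : Cardinal) := by
      refine (h1.trans h2).trans ?_
      rw [Nat.cast_add (r + 1) 1, Nat.cast_one]
      exact add_le_add hr le_rfl
    have h4 : A.eraseNone.card + 1 ≤ r + 1 + 1 := by exact_mod_cast h3
    have := Finset.card_le_card (show A ⊆ A.eraseNone.map Function.Embedding.some from by
      intro x hx
      rcases x with _ | x
      · exact absurd hx hn
      · rw [Finset.mem_map]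
        exact ⟨x, Finset.mem_eraseNone.mpr hx, rfl⟩)
    rw [Finset.card_map] at this
    omega

end Pool.Agent.E8helper42.AZ
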