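import Mathlib
import Pool.Agent.E8helper42.AZ.Stm2

/-!
# Formal solutions at infinity
-/

set_option autoImplicit false

namespace Pool.Agent.E8helper42.AZ

open Polynomial

/-- recursion along the integers -/
lemma exists_rec {α : Type} (m : ℤ) (F : ℤ → (ℤ → α) → α) (z0 : α)
    (hF : ∀ k g g', (∀ j < k, g j = g' j) → F k g = F k g') :
    ∃ b : ℤ → α, (∀ k < m, b k = z0) ∧ ∀ k ≥ m, b k = F k b := by
  classical
  let G : ℕ → ℤ → α := fun n => Nat.rec (fun _ => z0) (fun i g => Function.update g (m + i) (F (m + i) g)) n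
  have hG0 : G 0 = fun _ => z0 := rfl
  have hGs : ∀ n, G (n + 1) = Function.update (G n) (m + n) (F (m + n) (G n)) := fun n => rfl
  have hst : ∀ (n : ℕ) (k : ℤ), k < m + n → ∀ j, G (n + j) k = G n k := by
    intro n k hk j
    induction j with
    | zero => rfl
    | succ j ih =>
      rw [← add_assoc, hGs, Function.update_of_ne (by push_cast; omega), ih]
  have hlow : ∀ (n : ℕ) (k : ℤ), k < m → G n k = z0 := by
    intro n k hk
    have := hst 0 k (by simpa using hk) n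
    rw [zero_add] at this
    rw [this, hG0]
  refine ⟨fun k => G ((k - m).toNat + 1) k, ?_, fun k hk => ?_⟩
  · intro k hk
    exact hlow ((k - m).toNat + 1) k hk
  have hk' : m + ((k - m).toNat : ℤ) = k := by omega
  show G ((k - m).toNat + 1) k = _
  rw [hGs, hk', Function.update_self]
  apply hF
  intro j hj
  by_cases hjm : j < m
  · rw [hlow _ j hjm]; exact (hlow ((j - m).toNat + 1) j hjm).symm
  · have h1 : (k - m).toNat = ((j - m).toNat + 1) + ((k - m).toNat - ((j - m).toNat + 1)) := by omega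
    rw [h1, hst ((j - m).toNat + 1) j (by push_cast; omega)]

/-- the operator on sequences, at infinity -/
noncomputable def LI (l t : ℂ) (b : ℤ → ℂ[X]) (k : ℤ) : ℂ[X] :=
  TI l (TI l (TI l (TI l b))) k - C t * (C 34 * TI l (TI l (TI l b)) (k + 2) + C 51 * TI l (TI l b) (k + 2) +
    C 27 * TI l b (k + 2) + C 5 * b (k + 2)) + C (t ^ 2) * (TI l (TI l b) (k + 2 + 2) + C 2 * TI l b (k + 2 + 2) + b (k + 2 + 2))

lemma coeff_z (d : Dat) (u : RR) (g : Gam) : (d.z * u).coeff g = u.coeff (g - d.g₀) := by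
  rw [Dat.z, HahnSeries.coeff_single_mul, one_mul]

lemma LI_coeff {γ : ℝ} {m : ℤ} {b : ℤ → ℂ[X]} (hb : Bdd m b) (t : ℂ) (g : Gam) :
    (Lop dI t (el γ m b hb)).coeff g = if p1 g = γ then LI (-(γ : ℂ)) t b (p2 g) else 0 := by
  rw [Lop, thI_el, thI_el, thI_el, thI_el]
  simp only [HahnSeries.coeff_add, HahnSeries.coeff_sub, HahnSeries.coeff_smul, coeff_z, el_coeff, smul_eq_C_mul,
    map_sub, dI_g₀, p1_mk, p2_mk, sub_zero, sub_neg_eq_add]
  by_cases h : p1 g = γ
  · simp only [if_pos h, LI]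
  · simp only [if_neg h]
    simp

/-- the exponential solutions -/
lemma exists_exp (t μ : ℝ) (ht : t ≠ 0) (hμ : μ ^ 2 - 34 * μ + 1 = 0) :
    ∃ (b : ℤ → ℂ[X]) (hb : Bdd 3 b), b 3 = 1 ∧ (∀ k, derivative (b k) = 0) ∧ Lop dI t (el (-(t * μ)) 3 b hb) = 0 := by
  have hμ0 : μ ≠ 0 := by rintro rfl; norm_num at hμ
  have h17 : 17 * μ - 1 ≠ 0 := by
    intro h
    have : μ = 1 / 17 := by linarith
    rw [this] at hμ; norm_num at hμ
  set T : ℂ := (t : ℂ) with hT
  set M : ℂ := (μ : ℂ) with hM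
  have hMc : M ^ 2 - 34 * M + 1 = 0 := by rw [hM]; exact_mod_cast hμ
  have hT0 : T ≠ 0 := by rw [hT]; exact_mod_cast ht
  have hM0 : M ≠ 0 := by rw [hM]; exact_mod_cast hμ0
  have hM17 : 17 * M - 1 ≠ 0 := by rw [hM]; exact_mod_cast h17
  set c : ℂ := T ^ 3 * M * (17 * M - 1) with hc
  have hc0 : c ≠ 0 := mul_ne_zero (mul_ne_zero (pow_ne_zero _ hT0) hM0) hM17
  let l : ℂ := T * M
  let c2 : ℂ → ℂ := fun ρ => l ^ 2 * (6 * ρ ^ 2 + 12 * ρ + 7) - T * (34 * l * (3 * ρ ^ 2 + 3 * ρ + 1) + 51 * l * (2 * ρ + 1) +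
    27 * l) + T ^ 2 * (ρ + 1) ^ 2
  let c1 : ℂ → ℂ := fun ρ => l * (4 * ρ ^ 3 + 6 * ρ ^ 2 + 4 * ρ + 1) - T * (34 * ρ ^ 3 + 51 * ρ ^ 2 + 27 * ρ + 5)
  obtain ⟨β, hβ0, hβ⟩ := exists_rec (α := ℂ) 3 (fun k g => if k = 3 then 1 else
    (c2 (-(k - 2) / 2) * g (k - 2) + c1 (-(k - 4) / 2) * g (k - 4) + (-(k - 6) / 2) ^ 4 * g (k - 6)) / ((k - 3) * c)) 0
    (by
      intro k g g' h
      rw [h (k - 2) (by omega), h (k - 4) (by omega), h (k - 6) (by omega)])
  have hrec : ∀ k : ℤ, ((k : ℂ) - 3) * c * β k = c2 (-(k - 2) / 2) * β (k - 2) + c1 (-(k - 4) / 2) * β (k - 4) +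
      (-(k - 6) / 2) ^ 4 * β (k - 6) := by
    intro k
    rcases lt_trichotomy k 3 with h | h | h
    · rw [hβ0 k h, hβ0 (k - 2) (by omega), hβ0 (k - 4) (by omega), hβ0 (k - 6) (by omega)]; simp
    · subst h
      rw [hβ0 (3 - 2) (by omega), hβ0 (3 - 4) (by omega), hβ0 (3 - 6) (by omega)]; simp
    · have h1 := hβ k (by omega)
      rw [if_neg (by omega)] at h1
      have h2 : ((k : ℂ) - 3) ≠ 0 := by
        intro h3
        have : (k : ℂ) = 3 := by linear_combination h3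
        have : k = 3 := by exact_mod_cast this
        omega
      rw [h1]
      field_simp
  have hb : Bdd 3 (fun k => C (β k)) := fun k hk => by
    show C (β k) = 0
    rw [hβ0 k hk, map_zero]
  refine ⟨fun k => C (β k), hb, ?_, fun k => derivative_C, ?_⟩
  · have := hβ 3 le_rfl
    rw [if_pos rfl] at this
    show C (β 3) = 1
    rw [this, map_one]
  · ext1
    funext g
    rw [LI_coeff, HahnSeries.coeff_zero]
    split_ifs with hg
    · have hl : (-((-(t * μ) : ℝ) : ℂ)) = l := by push_cast; ring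
      rw [hl]
      set k := p2 g
      have h6 := hrec (k + 6)
      have e1 : k + 6 - 2 = k + 4 := by ring
      have e2 : k + 6 - 4 = k + 2 := by ring
      have e3 : k + 6 - 6 = k := by ring
      have e4 : k + 2 + 2 = k + 4 := by ring
      have e5 : k + 4 + 2 = k + 6 := by ring
      have e6 : k + 6 + 2 = k + 8 := by ring
      rw [e1, e2, e3] at h6
      simp only [LI, TI, e4, e5, e6, derivative_C, derivative_add, derivative_mul, mul_zero, zero_mul, zero_add, add_zero]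
      simp only [← C_mul, ← C_add, ← C_sub]
      rw [C_eq_zero]
      push_cast at h6 ⊢
      simp only [c2, c1, l, hc] at h6 ⊢
      linear_combination (-1) * h6 + T ^ 4 * M ^ 2 * β (k + 8) * hMc - (2 * (k : ℂ) + 6) * T ^ 3 * M * β (k + 6) * hMc
    · rfl

end Pool.Agent.E8helper42.AZ
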