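import Mathlib
import Pool.Agent.E8helper42.AZ.Gen
import Pool.Agent.E8helper42.AZ.Sol

/-!
# The solutions at infinity
-/

set_option autoImplicit false

namespace Pool.Agent.E8helper42.AZ

open Polynomial

/-- the character of a linear functional -/
noncomputable def chi (κ : ℝ →ₗ[ℚ] ℚ) : Gam →+ ℂ where
  toFun g := -((κ (p1 g) : ℚ) : ℂ)
  map_zero' := by simp
  map_add' a b := by rw [map_add, map_add]; push_cast; ring

lemma chi_apply (κ : ℝ →ₗ[ℚ] ℚ) (g : Gam) : chi κ g = -((κ (p1 g) : ℚ) : ℂ) := rfl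

lemma chi_g₀ (κ : ℝ →ₗ[ℚ] ℚ) : chi κ dI.g₀ = 0 := by
  rw [chi_apply, dI_g₀, p1_mk, map_zero]; simp

lemma cw_el (e : ℂ) (χ : Gam →+ ℂ) {γ : ℝ} {m : ℤ} {b : ℤ → ℂ[X]} (hb : Bdd m b) (c : ℂ)
    (hc : ∀ g, p1 g = γ → χ g = c) (he : ∀ k, C e * derivative (b k) = 0) :
    cw e χ (el γ m b hb) = c • el γ m b hb := by
  ext1
  funext g
  rw [cw_coeff, HahnSeries.coeff_smul, el_coeff]
  split_ifs with h
  · rw [he, hc g h, zero_add, smul_eq_C_mul]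
  · simp

/-- a fundamental system of solutions at infinity -/
structure SolInf (t : ℚ) where
  f0 : RR
  f1 : RR
  f2 : RR
  f3 : RR
  bh : RR
  eq0 : Lop dI t f0 = 0
  eq1 : Lop dI t f1 = 0
  eq2 : Lop dI t f2 = 0
  eq3 : Lop dI t f3 = 0
  eq_b : Lop dI t bh = (6 * (t : ℂ)) • dI.z
  k0 : f0.coeff (mk (-(t * (17 + 12 * √2))) 3) = 1
  s0 : ∀ g, f0.coeff g ≠ 0 → p1 g = -(t * (17 + 12 * √2)) ∧ 3 ≤ p2 g
  k1 : f1.coeff (mk (-(t * (17 - 12 * √2))) 3) = 1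
  s1 : ∀ g, f1.coeff g ≠ 0 → p1 g = -(t * (17 - 12 * √2)) ∧ 3 ≤ p2 g
  s2 : ∀ g, f2.coeff g ≠ 0 → p1 g = 0 ∧ 2 ≤ p2 g
  k2 : f2.coeff (mk 0 2) = 1
  s3 : ∀ g, f3.coeff g ≠ 0 → p1 g = 0 ∧ 2 ≤ p2 g
  k3 : f3.coeff (mk 0 2) = X
  kb : bh.coeff (mk 0 2) = C (3 / (t : ℂ)) * X ^ 2
  d0 : cw 1 0 f0 = 0
  d1 : cw 1 0 f1 = 0
  d2 : cw 1 0 f2 = 0
  d3 : cw 1 0 f3 = f2
  c0 : ∀ κ : ℝ →ₗ[ℚ] ℚ, cw 0 (chi κ) f0 = ((t * κ (17 + 12 * √2) : ℚ) : ℂ) • f0
  c1 : ∀ κ : ℝ →ₗ[ℚ] ℚ, cw 0 (chi κ) f1 = ((t * κ (17 - 12 * √2) : ℚ) : ℂ) • f1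
  c2 : ∀ κ : ℝ →ₗ[ℚ] ℚ, cw 0 (chi κ) f2 = 0
  c3 : ∀ κ : ℝ →ₗ[ℚ] ℚ, cw 0 (chi κ) f3 = 0
  cb : ∀ κ : ℝ →ₗ[ℚ] ℚ, cw 0 (chi κ) bh = 0

lemma kap_smul (κ : ℝ →ₗ[ℚ] ℚ) (t : ℚ) (x : ℝ) : κ (-((t : ℝ) * x)) = -(t * κ x) := by
  have h : -((t : ℝ) * x) = (-t) • x := by
    rw [Rat.smul_def]; push_cast; ring
  rw [h, map_smul, smul_eq_mul]
  ring

theorem exists_solInf (hR : S_REG) (t : ℚ) (ht : 0 < t) : Nonempty (SolInf t) := by
  have h2 : (√2 : ℝ) ^ 2 = 2 := Real.sq_sqrt (by norm_num)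
  have htR : (t : ℝ) ≠ 0 := by exact_mod_cast ht.ne'
  have htC : (t : ℂ) ≠ 0 := by exact_mod_cast ht.ne'
  obtain ⟨b0, hb0, hb03, hb0d, hb0L⟩ := exists_exp t (17 + 12 * √2) htR (by nlinarith)
  obtain ⟨b1, hb1, hb13, hb1d, hb1L⟩ := exists_exp t (17 - 12 * √2) htR (by nlinarith)
  obtain ⟨hex, huniq⟩ := hR t htC
  obtain ⟨b3, hb3, hb32, hb3L⟩ := hex X
  obtain ⟨bh, hbh, hbh2, hbhL⟩ := hex (C (3 / (t : ℂ)) * X ^ 2)
  have hL3 : Lop dI t (el 0 2 b3 hb3) = 0 := by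
    ext1
    funext g
    rw [hb3L]
    simp
  have hLh : Lop dI t (el 0 2 bh hbh) = (6 * (t : ℂ)) • dI.z := by
    ext1
    funext g
    rw [hbhL, HahnSeries.coeff_smul, Dat.z, HahnSeries.coeff_single, dI_g₀]
    split_ifs with h
    · rw [smul_eq_C_mul, mul_one]
      simp only [derivative_mul, derivative_C, zero_mul, zero_add, derivative_X_pow, derivative_X]
      simp only [Nat.add_one_sub_one, pow_zero, mul_one, ← C_mul]
      congr 1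
      push_cast
      field_simp
      norm_num
    · simp
  have hd2 : Bdd 2 (fun k => derivative (b3 k)) := fun k hk => by
    show derivative (b3 k) = 0
    rw [hb3 k hk, derivative_zero]
  have hd22 : Bdd 2 (fun k => derivative (derivative (b3 k))) := fun k hk => by
    show derivative (derivative (b3 k)) = 0
    rw [hb3 k hk, derivative_zero, derivative_zero]
  have e2 : el 0 2 (fun k => derivative (b3 k)) hd2 = cw 1 0 (el 0 2 b3 hb3) := by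
    ext1
    funext g
    rw [cw_coeff, el_coeff, el_coeff]
    split_ifs <;> simp
  have e22 : el 0 2 (fun k => derivative (derivative (b3 k))) hd22 = cw 1 0 (el 0 2 (fun k => derivative (b3 k)) hd2) := by
    ext1
    funext g
    rw [cw_coeff, el_coeff, el_coeff]
    split_ifs <;> simp
  have hL2 : Lop dI t (el 0 2 (fun k => derivative (b3 k)) hd2) = 0 := by
    rw [e2, cw_Lop dI 1 0 rfl, hL3, map_zero]
  have hL22 : el 0 2 (fun k => derivative (derivative (b3 k))) hd22 = 0 := by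
    apply huniq
    · show derivative (derivative (b3 2)) = 0
      rw [hb32]; simp
    · rw [e22, cw_Lop dI 1 0 rfl, hL2, map_zero]
  have hsup : ∀ (γ : ℝ) (m : ℤ) (b : ℤ → ℂ[X]) (hb : Bdd m b) (g : Gam), (el γ m b hb).coeff g ≠ 0 → p1 g = γ ∧ m ≤ p2 g := by
    intro γ m b hb g h
    rw [el_coeff] at h
    split_ifs at h with h1
    · refine ⟨h1, ?_⟩
      by_contra h3
      exact h (hb _ (not_le.1 h3))
    · exact absurd rfl h
  have hchi : ∀ (κ : ℝ →ₗ[ℚ] ℚ) (b : ℤ → ℂ[X]) (hb : Bdd 2 b), cw 0 (chi κ) (el 0 2 b hb) = 0 := by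
    intro κ b hb
    rw [cw_el 0 (chi κ) hb 0, zero_smul']
    · intro g hg
      rw [chi_apply, hg, map_zero]; simp
    · intro k; simp
  exact ⟨{
    f0 := el (-(t * (17 + 12 * √2))) 3 b0 hb0
    f1 := el (-(t * (17 - 12 * √2))) 3 b1 hb1
    f2 := el 0 2 (fun k => derivative (b3 k)) hd2
    f3 := el 0 2 b3 hb3
    bh := el 0 2 bh hbh
    eq0 := hb0L
    eq1 := hb1L
    eq2 := hL2
    eq3 := hL3
    eq_b := hLh
    k0 := by rw [el_coeff, p1_mk, if_pos rfl, p2_mk, hb03]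
    s0 := hsup _ _ _ _
    k1 := by rw [el_coeff, p1_mk, if_pos rfl, p2_mk, hb13]
    s1 := hsup _ _ _ _
    s2 := hsup _ _ _ _
    k2 := by rw [el_coeff, p1_mk, if_pos rfl, p2_mk, hb32, derivative_X]
    s3 := hsup _ _ _ _
    k3 := by rw [el_coeff, p1_mk, if_pos rfl, p2_mk, hb32]
    kb := by rw [el_coeff, p1_mk, if_pos rfl, p2_mk, hbh2]
    d0 := by rw [cw_el 1 0 hb0 0 (fun _ _ => rfl) (fun k => by rw [hb0d]; simp), zero_smul']
    d1 := by rw [cw_el 1 0 hb1 0 (fun _ _ => rfl) (fun k => by rw [hb1d]; simp), zero_smul']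
    d2 := by rw [← e22, hL22]
    d3 := e2.symm
    c0 := by
      intro κ
      rw [cw_el 0 (chi κ) hb0 ((t * κ (17 + 12 * √2) : ℚ) : ℂ)]
      · intro g hg
        rw [chi_apply, hg, kap_smul]
        push_cast; ring
      · intro k; simp
    c1 := by
      intro κ
      rw [cw_el 0 (chi κ) hb1 ((t * κ (17 - 12 * √2) : ℚ) : ℂ)]
      · intro g hg
        rw [chi_apply, hg, kap_smul]
        push_cast; ring
      · intro k; simp
    c2 := fun κ => hchi κ _ _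
    c3 := fun κ => hchi κ _ _
    cb := fun κ => hchi κ _ _ }⟩

end Pool.Agent.E8helper42.AZ
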