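import Mathlib
import Pool.Agent.E8helper42.AZ.Inf

/-!
# The fundamental matrix at infinity; no rational solution of the inhomogeneous equation
-/

set_option autoImplicit false

namespace Pool.Agent.E8helper42.AZ

open Polynomial

/-- the solutions as a family -/
noncomputable def SolInf.f {t : ℚ} (S : SolInf t) : Fin 4 → RR := ![S.f0, S.f1, S.f2, S.f3]

lemma SolInf.eq_f {t : ℚ} (S : SolInf t) (j : Fin 4) : Lop dI t (S.f j) = 0 := by
  fin_cases j
  · exact S.eq0
  · exact S.eq1
  · exact S.eq2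
  · exact S.eq3

lemma amul_coeff (c : ℂ) (u : RR) (g : Gam) : (algebraMap ℂ RR c * u).coeff g = C c * u.coeff g := by
  rw [← smul_def', HahnSeries.coeff_smul, smul_eq_C_mul]

lemma sqrt2_pos : (0 : ℝ) < √2 := Real.sqrt_pos.2 (by norm_num)

lemma mu_minus_pos : (0 : ℝ) < 17 - 12 * √2 := by
  have h2 : (√2 : ℝ) ^ 2 = 2 := Real.sq_sqrt (by norm_num)
  have := sqrt2_pos
  nlinarith

variable {t : ℚ} (S : SolInf t) (ht : 0 < t)

lemma zero_of (u : RR) (P : Gam → Prop) (h : ∀ g, u.coeff g ≠ 0 → P g) (g : Gam) (hg : ¬ P g) : u.coeff g = 0 := by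
  by_contra h1
  exact hg (h g h1)

include ht in
lemma SolInf.combination_zero (c : Fin 4 → ℂ) (h : ∑ j, algebraMap ℂ RR (c j) * S.f j = 0) : c = 0 := by
  have htR : (0 : ℝ) < t := by exact_mod_cast ht
  have hs := sqrt2_pos
  have hm := mu_minus_pos
  have hc : ∀ g, C (c 0) * S.f0.coeff g + C (c 1) * S.f1.coeff g + C (c 2) * S.f2.coeff g + C (c 3) * S.f3.coeff g = 0 := by
    intro g
    have := congrArg (fun u : RR => u.coeff g) h
    simp only [Fin.sum_univ_four, HahnSeries.coeff_add, amul_coeff, HahnSeries.coeff_zero] at this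
    exact this
  have h0 : c 0 = 0 := by
    have h1 := hc (AZ.mk (-(t * (17 + 12 * √2))) 3)
    rw [S.k0, zero_of _ _ S.s1 _ (by
        rintro ⟨h, -⟩
        rw [p1_mk] at h
        nlinarith [mul_pos htR hs]), zero_of _ _ S.s2 _ (by
        rintro ⟨h, -⟩
        rw [p1_mk] at h
        nlinarith [mul_pos htR hs]), zero_of _ _ S.s3 _ (by
        rintro ⟨h, -⟩
        rw [p1_mk] at h
        nlinarith [mul_pos htR hs])] at h1
    simpa using h1
  have h1 : c 1 = 0 := by
    have h1 := hc (AZ.mk (-(t * (17 - 12 * √2))) 3)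
    rw [S.k1, zero_of _ _ S.s0 _ (by
        rintro ⟨h, -⟩
        rw [p1_mk] at h
        nlinarith [mul_pos htR hs]), zero_of _ _ S.s2 _ (by
        rintro ⟨h, -⟩
        rw [p1_mk] at h
        nlinarith [mul_pos htR hm]), zero_of _ _ S.s3 _ (by
        rintro ⟨h, -⟩
        rw [p1_mk] at h
        nlinarith [mul_pos htR hm])] at h1
    simpa using h1
  have h2 := hc (AZ.mk 0 2)
  rw [h0, h1, S.k2, S.k3, map_zero, zero_mul, zero_mul, zero_add, zero_add, mul_one] at h2
  have h3 : c 3 = 0 := by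
    have := congrArg derivative h2
    simp only [derivative_add, derivative_C, derivative_mul, derivative_X, zero_mul, zero_add, mul_one, derivative_zero] at this
    exact C_eq_zero.1 this
  rw [h3, map_zero, zero_mul, add_zero] at h2
  have h4 : c 2 = 0 := C_eq_zero.1 h2
  funext j
  fin_cases j
  · exact h0
  · exact h1
  · exact h4
  · exact h3

include ht in
theorem SolInf.exists_inv (hS : S_STAR) (hW : S_W) : ∃ Ψ, Phi dI S.f * Ψ = 1 := by
  refine hW hS (RD dI) (thD dI) (thD_simple dI) 4 _ (Phi dI S.f) (Phi_eq dI t S.f S.eq_f) ?_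
  intro c hc
  apply S.combination_zero ht
  have := congrFun hc 0
  rw [Matrix.mulVec, dotProduct, Pi.zero_apply] at this
  refine Eq.trans ?_ this
  refine Finset.sum_congr rfl fun j _ => ?_
  exact mul_comm (algebraMap ℂ RR (c j)) (S.f j)

lemma emb_coeff_const (d : Dat) (a : FF) (g : Gam) : derivative ((d.emb a).coeff g) = 0 := by
  have h := congrArg (fun u : RR => u.coeff g) (cw_emb d 1 0 rfl a)
  simp only [cw_coeff, HahnSeries.coeff_zero, map_one, one_mul, AddMonoidHom.zero_apply, map_zero, zero_mul, add_zero] at h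
  exact h

/-- solutions of the system are combinations of the columns -/
lemma sol_comb {R : Type} [CommRing R] [Algebra ℂ R] {θ : Derivation ℂ R R} (hθ : DSimple θ) {n : ℕ}
    (A : Matrix (Fin n) (Fin n) R) (Φ Ψ : Matrix (Fin n) (Fin n) R) (h : Φ * Ψ = 1)
    (hΦ : Φ.map θ = A * Φ) (x : Fin n → R) (hx : θ ∘ x = A.mulVec x) :
    ∃ c : Fin n → ℂ, x = Φ.mulVec (algebraMap ℂ R ∘ c) := by
  have h' : Ψ * Φ = 1 := mul_eq_one_comm.1 h
  set y := Ψ.mulVec x with hy
  have hxy : x = Φ.mulVec y := by rw [hy, Matrix.mulVec_mulVec, h, Matrix.one_mulVec]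
  have h1 : θ ∘ x = (Φ.map θ).mulVec y + Φ.mulVec (θ ∘ y) := by
    rw [hxy]
    funext i
    simp only [Function.comp, Matrix.mulVec, dotProduct, Pi.add_apply, map_sum, Matrix.map_apply, Derivation.leibniz,
      smul_eq_mul]
    rw [← Finset.sum_add_distrib]
    refine Finset.sum_congr rfl fun j _ => ?_
    ring
  rw [hx, hΦ, ← Matrix.mulVec_mulVec, ← hxy] at h1
  have h2 : Φ.mulVec (θ ∘ y) = 0 := by
    have := sub_eq_zero.2 h1.symm
    rwa [add_sub_cancel_left] at this
  have h3 : θ ∘ y = 0 := by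
    have := congrArg Ψ.mulVec h2
    rwa [Matrix.mulVec_mulVec, h', Matrix.one_mulVec, Matrix.mulVec_zero] at this
  choose c hc using fun j => hθ.const (y j) (congrFun h3 j)
  exact ⟨c, by rw [hxy]; congr 1; funext j; exact hc j⟩

include ht S in
theorem SolInf.noSol (hS : S_STAR) (hW : S_W) :
    ¬ ∃ b : Fin 4 → FF, thF ∘ b = (AF t).mulVec b + gF (6 * t) := by
  rintro ⟨v, hv⟩
  obtain ⟨Ψ, hΨ⟩ := S.exists_inv ht hS hW
  have e1 := solv_eq dI t (6 * t) S.bh S.eq_b
  set x : Fin 4 → RD dI := fun i => (dI.emb (v i) - solv dI S.bh i : RR) with hx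
  have hthx : thD dI ∘ x = ((AF t).map (algebraMap FF (RD dI))).mulVec x := by
    funext i
    have h1 : (thD dI ∘ x) i = dI.th (dI.emb (v i)) - dI.th (solv dI S.bh i) := map_sub dI.th _ _
    rw [h1, dI.emb_th]
    have h2 := congrFun hv i
    rw [Function.comp_apply] at h2
    have h3 := congrFun e1 i
    rw [h2, h3, Pi.add_apply, Pi.add_apply, map_add, add_sub_add_right_eq_sub]
    have h4 : ((AF t).map (algebraMap FF (RD dI))).mulVec x i =
      ∑ j, dI.emb (AF t i j) * (dI.emb (v j) - solv dI S.bh j) := rfl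
    rw [h4, Matrix.mulVec, dotProduct, map_sum, Matrix.mulVec, dotProduct, ← Finset.sum_sub_distrib]
    refine Finset.sum_congr rfl fun j _ => ?_
    rw [map_mul, Matrix.map_apply, mul_sub]
  obtain ⟨c, hc⟩ := sol_comb (thD_simple dI) _ _ _ hΨ (Phi_eq dI t S.f S.eq_f) x hthx
  have h0 : (dI.emb (v 0) - S.bh : RR) = ∑ j, algebraMap ℂ RR (c j) * S.f j := by
    have h1 := congrFun hc 0
    rw [Matrix.mulVec, dotProduct] at h1
    refine h1.trans ?_
    refine Finset.sum_congr rfl fun j _ => ?_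
    rw [mul_comm]
    rfl
  have hs := sqrt2_pos
  have hm := mu_minus_pos
  have htR : (0 : ℝ) < t := by exact_mod_cast ht
  have h1 := congrArg (fun u : RR => u.coeff (AZ.mk 0 2)) h0
  simp only [Fin.sum_univ_four, HahnSeries.coeff_add, HahnSeries.coeff_sub, amul_coeff] at h1
  have h2 : (S.f 0).coeff (AZ.mk 0 2) = 0 := zero_of _ _ S.s0 _ (by
    rintro ⟨h, -⟩
    rw [p1_mk] at h
    nlinarith [mul_pos htR hs])
  have h3 : (S.f 1).coeff (AZ.mk 0 2) = 0 := zero_of _ _ S.s1 _ (by
    rintro ⟨h, -⟩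
    rw [p1_mk] at h
    nlinarith [mul_pos htR hm])
  have h4 : (S.f 2).coeff (AZ.mk 0 2) = 1 := S.k2
  have h5 : (S.f 3).coeff (AZ.mk 0 2) = X := S.k3
  rw [h2, h3, h4, h5, S.kb] at h1
  have h6 := congrArg (fun p => derivative (derivative p)) h1
  have h7 : derivative (derivative ((dI.emb (v 0)).coeff (AZ.mk 0 2))) = 0 := by rw [emb_coeff_const, derivative_zero]
  simp only [derivative_sub, h7, derivative_add, derivative_mul, derivative_C, zero_mul, zero_add, derivative_X_pow,
    mul_zero, derivative_one, add_zero, derivative_X, mul_one] at h6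
  simp at h6
  have h8 : (t : ℂ) ≠ 0 := by exact_mod_cast ht.ne'
  exact h8 (by simpa using h6)

end Pool.Agent.E8helper42.AZ
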