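import Mathlib
import Pool.Agent.E8helper42.AZ.InfB

/-!
# Exponents at infinity
-/

set_option autoImplicit false

namespace Pool.Agent.E8helper42.AZ

open Polynomial

/-- all exponents in the support have second component `≥ m` -/
def KS (m : ℤ) (u : RR) : Prop := ∀ g, u.coeff g ≠ 0 → m ≤ p2 g

lemma KS.mono {m n : ℤ} {u : RR} (h : KS m u) (hn : n ≤ m) : KS n u := fun g hg => hn.trans (h g hg)

lemma KS.zero (m : ℤ) : KS m 0 := fun _ hg => absurd rfl hg

lemma KS.add {m : ℤ} {u v : RR} (hu : KS m u) (hv : KS m v) : KS m (u + v) := by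
  intro g hg
  rw [HahnSeries.coeff_add] at hg
  by_cases h : u.coeff g = 0
  · rw [h, zero_add] at hg
    exact hv g hg
  · exact hu g h

lemma KS.neg {m : ℤ} {u : RR} (hu : KS m u) : KS m (-u) := by
  intro g hg
  rw [HahnSeries.coeff_neg] at hg
  exact hu g (neg_ne_zero.1 hg)

lemma KS.sum {m : ℤ} {ι : Type} (s : Finset ι) (f : ι → RR) (h : ∀ i ∈ s, KS m (f i)) : KS m (∑ i ∈ s, f i) := by
  classical
  induction s using Finset.induction_on with
  | empty => rw [Finset.sum_empty]; exact KS.zero m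
  | insert a s ha ih =>
    rw [Finset.sum_insert ha]
    exact (h a (Finset.mem_insert_self a s)).add (ih fun i hi => h i (Finset.mem_insert_of_mem hi))

lemma KS.one : KS 0 1 := by
  intro g hg
  rw [HahnSeries.coeff_one] at hg
  split_ifs at hg with h
  · rw [h, map_zero]
  · exact absurd rfl hg

lemma KS.mul {m n : ℤ} {u v : RR} (hu : KS m u) (hv : KS n v) : KS (m + n) (u * v) := by
  intro g hg
  rw [HahnSeries.coeff_mul] at hg
  obtain ⟨ij, hij, hne⟩ := Finset.exists_ne_zero_of_sum_ne_zero hg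
  have h1 := (Finset.mem_antidiagonal.1 hij).2.2
  have h2 := hu _ (left_ne_zero_of_mul hne)
  have h3 := hv _ (right_ne_zero_of_mul hne)
  have h4 : p2 g = p2 ij.1 + p2 ij.2 := by rw [← map_add]; exact congrArg p2 h1.symm
  omega

lemma KS.prod {ι : Type} (s : Finset ι) (m : ι → ℤ) (f : ι → RR) (h : ∀ i ∈ s, KS (m i) (f i)) :
    KS (∑ i ∈ s, m i) (∏ i ∈ s, f i) := by
  classical
  induction s using Finset.induction_on with
  | empty => rw [Finset.prod_empty, Finset.sum_empty]; exact KS.one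
  | insert a s ha ih =>
    rw [Finset.sum_insert ha, Finset.prod_insert ha]
    exact (h a (Finset.mem_insert_self a s)).mul (ih fun i hi => h i (Finset.mem_insert_of_mem hi))

lemma KS.th {m : ℤ} {u : RR} (hu : KS m u) : KS (m - 2) (dI.th u) := by
  intro g hg
  by_contra hlt
  apply hg
  rw [dI.coeff_th]
  have h1 : u.coeff g = 0 := by
    by_contra h
    have := hu g h
    omega
  have h2 : u.coeff (g - dI.g₀) = 0 := by
    by_contra h
    have := hu _ h
    rw [map_sub, dI_g₀, p2_mk] at this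
    omega
  rw [h1, h2]; simp

/-- regular series -/
def RS (u : RR) : Prop := ∀ g, u.coeff g ≠ 0 → p1 g = 0 ∧ 2 ≤ p2 g

lemma RS.th {u : RR} (hu : RS u) : RS (dI.th u) := by
  intro g hg
  by_cases h1 : u.coeff g = 0
  · rw [dI.coeff_th, h1] at hg
    simp only [derivative_zero, mul_zero, zero_add] at hg
    have h2 := hu _ (right_ne_zero_of_mul hg)
    have h3 : dI.χ₂ g = 0 := by
      have := h2.1
      rw [map_sub, dI_g₀, p1_mk, sub_zero] at this
      rw [dI_χ₂, this]; simp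
    exact absurd (by rw [h3]; simp) hg
  · exact hu g h1

lemma RS.solv {u : RR} (hu : RS u) (i : Fin 4) : RS (solv dI u i) := by
  fin_cases i
  · exact hu
  · exact hu.th
  · exact hu.th.th
  · exact hu.th.th.th

lemma KS.solv {m : ℤ} {u : RR} (hu : KS m u) (i : Fin 4) : KS (m - 2 * ((i : ℕ) : ℤ)) (solv dI u i) := by
  fin_cases i
  · exact hu.mono (by simp)
  · exact hu.th.mono (by simp)
  · exact hu.th.th.mono (by show m - 2 * 2 ≤ m - 2 - 2; omega)
  · exact hu.th.th.th.mono (by show m - 2 * 3 ≤ m - 2 - 2 - 2; omega)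

/-- the weights -/
def wt (i j : Fin 4) : ℤ := if j < 2 then 3 - 2 * ((i : ℕ) : ℤ) else 2

lemma SolInf.wt {t : ℚ} (S : SolInf t) (i j : Fin 4) : KS (wt i j) (solv dI (S.f j) i) := by
  fin_cases j
  · exact KS.solv (m := 3) (fun g hg => (S.s0 g hg).2) i
  · exact KS.solv (m := 3) (fun g hg => (S.s1 g hg).2) i
  · exact fun g hg => (RS.solv (u := S.f2) S.s2 i g hg).2
  · exact fun g hg => (RS.solv (u := S.f3) S.s3 i g hg).2

lemma wt_pos1 : ∀ I : Fin 1 → Fin 4, ∀ σ : Equiv.Perm (Fin 1), 1 ≤ ∑ i, wt (Fin.castLE (by norm_num) (σ i)) (I i) := by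
  decide

lemma wt_pos2 : ∀ I : Fin 2 → Fin 4, ∀ σ : Equiv.Perm (Fin 2), 1 ≤ ∑ i, wt (Fin.castLE (by norm_num) (σ i)) (I i) := by
  decide

lemma wt_pos3 : ∀ I : Fin 3 → Fin 4, Function.Injective I →
    ∀ σ : Equiv.Perm (Fin 3), 1 ≤ ∑ i, wt (Fin.castLE (by norm_num) (σ i)) (I i) := by
  decide

lemma minor_KS {t : ℚ} (S : SolInf t) (r : ℕ) (hr1 : 1 ≤ r) (hr3 : r ≤ 3) (hr : r ≤ 4) (I : Fin r → Fin 4)
    (hI : Function.Injective I) :
    KS 1 (Matrix.of fun i j : Fin r => solv dI (S.f (I j)) (Fin.castLE hr i)).det := by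
  rw [Matrix.det_apply]
  refine KS.sum _ _ fun σ _ => ?_
  have h1 : KS (∑ i, AZ.wt (Fin.castLE hr (σ i)) (I i)) (∏ i, solv dI (S.f (I i)) (Fin.castLE hr (σ i))) :=
    KS.prod _ _ _ fun i _ => S.wt _ _
  have h2 : 1 ≤ ∑ i, AZ.wt (Fin.castLE hr (σ i)) (I i) := by
    interval_cases r
    · exact wt_pos1 I σ
    · exact wt_pos2 I σ
    · exact wt_pos3 I hI σ
  have h3 := h1.mono h2
  rcases Int.units_eq_one_or (Equiv.Perm.sign σ) with h | h
  · rw [h, one_smul]; exact h3
  · rw [h, Units.neg_smul, one_smul]; exact h3.neg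

/-- the order of a solution of a first order equation -/
lemma th_order {h : RR} (h0 : h ≠ 0) (b : ℂ[X]) (hb : b.eval 0 = 0) (e : dI.th h = - (aeval dI.z b) * h) :
    p2 h.order = 0 := by
  have hco : ∀ g, (aeval dI.z b * h).coeff g = ∑ n ∈ Finset.range (b.natDegree + 1), C (b.coeff n) * h.coeff (g - n • dI.g₀) := by
    intro g
    rw [aeval_eq_sum_range, Finset.sum_mul, HahnSeries.coeff_sum]
    refine Finset.sum_congr rfl fun n _ => ?_
    rw [dI.z_pow, smul_def', mul_assoc, amul_coeff, HahnSeries.coeff_single_mul, one_mul]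
  have hg0 : dI.g₀ < 0 := by
    rw [gam_lt]; right; simp
  set g := h.order with hg
  have hp : h.coeff g ≠ 0 := HahnSeries.coeff_order_eq_zero.not.2 h0
  by_cases hb0 : b = 0
  · rw [hb0, map_zero, neg_zero, zero_mul] at e
    rw [hg, (dI.order_zero h0 e).1, map_zero]
  have hD : b.natDegree ≠ 0 := by
    intro h1
    apply hb0
    rw [Polynomial.eq_C_of_natDegree_eq_zero h1] at hb ⊢
    rw [eval_C] at hb
    rw [hb, map_zero]
  obtain ⟨D, hD'⟩ := Nat.exists_eq_succ_of_ne_zero hD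
  have hlead : b.coeff (D + 1) ≠ 0 := by
    rw [← Nat.succ_eq_add_one, ← hD']
    exact leadingCoeff_ne_zero.2 hb0
  have hneg : ∀ n : ℕ, n ≠ 0 → n • dI.g₀ < 0 := fun n hn => nsmul_neg hg0 hn
  have hlow : ∀ n : ℕ, n ≠ 0 → h.coeff (g + n • dI.g₀) = 0 := fun n hn =>
    coeff_lt_order (add_lt_of_neg_right g (hneg n hn))
  have e' : dI.th h = - (aeval dI.z b * h) := by rw [e]; ring
  have e1 : (dI.th h).coeff (g + (D + 1) • dI.g₀) = - (aeval dI.z b * h).coeff (g + (D + 1) • dI.g₀) := by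
    rw [e', HahnSeries.coeff_neg]
  rw [dI.coeff_th, hco, hlow (D + 1) (by omega), hD', Finset.sum_eq_single (D + 1)] at e1
  rotate_left
  · intro n hn hne
    rw [Finset.mem_range] at hn
    obtain ⟨k, hk⟩ : ∃ k, D + 1 = k + n := ⟨D + 1 - n, by omega⟩
    have h2 : g + (D + 1) • dI.g₀ - n • dI.g₀ = g + k • dI.g₀ := by
      rw [hk, add_nsmul, ← add_assoc, add_sub_cancel_right]
    rw [h2, hlow _ (by omega), mul_zero]
  · intro hn
    exact absurd (Finset.mem_range.2 (by omega)) hn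
  rw [add_sub_cancel_right, derivative_zero, mul_zero, zero_add, zero_add] at e1
  have h3 : g + (D + 1) • dI.g₀ - dI.g₀ = g + D • dI.g₀ := by
    rw [succ_nsmul, ← add_assoc, add_sub_cancel_right]
  rw [h3] at e1
  have hD0 : D = 0 := by
    by_contra hD0
    rw [hlow D hD0, mul_zero] at e1
    have := neg_eq_zero.1 e1.symm
    exact (mul_ne_zero (C_ne_zero.2 hlead) hp) this
  subst hD0
  rw [zero_smul, add_zero, map_add, map_nsmul, dI.h0, smul_zero, add_zero, zero_add] at e1
  have h4 : C (dI.χ₂ g) = - C (b.coeff 1) := by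
    apply mul_right_cancel₀ hp
    rw [e1]; ring
  have e2 : (dI.th h).coeff g = - (aeval dI.z b * h).coeff g := by
    rw [e', HahnSeries.coeff_neg]
  rw [dI.coeff_th, hco, hD', Finset.sum_range_succ, Finset.sum_range_succ, Finset.range_zero, Finset.sum_empty,
    zero_smul, zero_add, one_smul, sub_zero] at e2
  have h5 : b.coeff 0 = 0 := by rw [← hb, ← coeff_zero_eq_eval_zero]
  rw [h5, map_zero, zero_mul, zero_add, h4] at e2
  have h6 : derivative (h.coeff g) + C (dI.χ₁ g) * h.coeff g = 0 := by linear_combination e2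
  have h7 := (poly_ode hp h6).1
  rw [dI_χ₁] at h7
  have h8 : ((p2 g : ℤ) : ℂ) = 0 := by
    rcases mul_eq_zero.1 h7 with h | h
    · norm_num at h
    · exact h
  exact_mod_cast h8

lemma aeval_order (p : ℂ[X]) (hp : p ≠ 0) : p2 (aeval dI.z p).order ≤ 0 := by
  have h1 : (aeval dI.z p).coeff (aeval dI.z p).order ≠ 0 := HahnSeries.coeff_order_eq_zero.not.2 (dI.aeval_ne hp)
  rw [dI.coeff_aeval] at h1
  obtain ⟨n, _, hn⟩ := Finset.exists_ne_zero_of_sum_ne_zero h1
  split_ifs at hn with h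
  · rw [h, map_nsmul, dI_g₀, p2_mk]
    simp
  · exact absurd rfl hn

end Pool.Agent.E8helper42.AZ
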