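import Mathlib
import Pool.Agent.E8helper42.AZ.InfB

/-!
# The solutions at zero
-/

set_option autoImplicit false

namespace Pool.Agent.E8helper42.AZ

open Polynomial

/-- a fundamental system of solutions at zero -/
structure SolZero (t : ℚ) where
  y0 : RR
  y1 : RR
  y2 : RR
  y3 : RR
  eq0 : Lop d0 t y0 = 0
  eq1 : Lop d0 t y1 = 0
  eq2 : Lop d0 t y2 = 0
  eq3 : Lop d0 t y3 = 0
  k0 : y0.coeff (AZ.mk 0 0) = C (1 / 6) * X ^ 3
  k1 : y1.coeff (AZ.mk 0 0) = C (1 / 2) * X ^ 2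
  k2 : y2.coeff (AZ.mk 0 0) = X
  k3 : y3.coeff (AZ.mk 0 0) = 1
  d0 : cw 1 0 y0 = y1
  d1 : cw 1 0 y1 = y2
  d2 : cw 1 0 y2 = y3
  d3 : cw 1 0 y3 = 0

lemma cw_el' {m : ℤ} {b : ℤ → ℂ[X]} (hb : Bdd m b) (hb' : Bdd m (fun k => derivative (b k))) :
    cw 1 0 (el 0 m b hb) = el 0 m (fun k => derivative (b k)) hb' := by
  ext1
  funext g
  rw [cw_coeff, el_coeff, el_coeff]
  split_ifs <;> simp

lemma Bdd.deriv {m : ℤ} {b : ℤ → ℂ[X]} (hb : Bdd m b) : Bdd m (fun k => derivative (b k)) := fun k hk => by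
  show derivative (b k) = 0
  rw [hb k hk, derivative_zero]

theorem exists_solZero (hZ : S_ZERO) (t : ℚ) : Nonempty (SolZero t) := by
  obtain ⟨⟨b, hb, hb0, hbL⟩, huniq⟩ := hZ t
  have c1 := cw_el' hb hb.deriv
  have c2 := cw_el' hb.deriv hb.deriv.deriv
  have c3 := cw_el' hb.deriv.deriv hb.deriv.deriv.deriv
  have c4 := cw_el' hb.deriv.deriv.deriv hb.deriv.deriv.deriv.deriv
  have L1 : Lop AZ.d0 t (el 0 0 _ hb.deriv) = 0 := by rw [← c1, cw_Lop AZ.d0 1 0 rfl, hbL, map_zero]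
  have L2 : Lop AZ.d0 t (el 0 0 _ hb.deriv.deriv) = 0 := by rw [← c2, cw_Lop AZ.d0 1 0 rfl, L1, map_zero]
  have L3 : Lop AZ.d0 t (el 0 0 _ hb.deriv.deriv.deriv) = 0 := by rw [← c3, cw_Lop AZ.d0 1 0 rfl, L2, map_zero]
  have L4 : Lop AZ.d0 t (el 0 0 _ hb.deriv.deriv.deriv.deriv) = 0 := by rw [← c4, cw_Lop AZ.d0 1 0 rfl, L3, map_zero]
  have e1 : derivative (b 0) = C (1 / 2) * X ^ 2 := by
    rw [hb0, derivative_mul, derivative_C, zero_mul, zero_add, derivative_X_pow, ← mul_assoc, ← C_mul]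
    congr 2
    norm_num
  have e2 : derivative (derivative (b 0)) = X := by
    rw [e1, derivative_mul, derivative_C, zero_mul, zero_add, derivative_X_pow, ← mul_assoc, ← C_mul]
    norm_num
  have h4 := huniq _ hb.deriv.deriv.deriv.deriv (by
    show derivative (derivative (derivative (derivative (b 0)))) = 0
    rw [e2]; simp) L4
  refine ⟨⟨el 0 0 _ hb, el 0 0 _ hb.deriv, el 0 0 _ hb.deriv.deriv, el 0 0 _ hb.deriv.deriv.deriv, hbL, L1, L2, L3,
    ?_, ?_, ?_, ?_, c1, c2, c3, by rw [c4, h4]⟩⟩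
  · rw [el_coeff, p1_mk, if_pos rfl, p2_mk, hb0]
  · rw [el_coeff, p1_mk, if_pos rfl, p2_mk, e1]
  · rw [el_coeff, p1_mk, if_pos rfl, p2_mk, e2]
  · rw [el_coeff, p1_mk, if_pos rfl, p2_mk, e2, derivative_X]

variable {t : ℚ} (S : SolZero t)

/-- the solutions as a family -/
noncomputable def SolZero.f : Fin 4 → RR := ![S.y0, S.y1, S.y2, S.y3]

lemma SolZero.eq_f (j : Fin 4) : Lop AZ.d0 t (S.f j) = 0 := by
  fin_cases j
  · exact S.eq0
  · exact S.eq1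
  · exact S.eq2
  · exact S.eq3

lemma SolZero.combination_zero (c : Fin 4 → ℂ) (h : ∑ j, algebraMap ℂ RR (c j) * S.f j = 0) : c = 0 := by
  have hc : C (c 0) * S.y0.coeff (AZ.mk 0 0) + C (c 1) * S.y1.coeff (AZ.mk 0 0) + C (c 2) * S.y2.coeff (AZ.mk 0 0) +
      C (c 3) * S.y3.coeff (AZ.mk 0 0) = 0 := by
    have := congrArg (fun u : RR => u.coeff (AZ.mk 0 0)) h
    simp only [Fin.sum_univ_four, HahnSeries.coeff_add, amul_coeff, HahnSeries.coeff_zero] at this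
    exact this
  rw [S.k0, S.k1, S.k2, S.k3] at hc
  have h0 := congrArg (fun p => p.coeff 0) hc
  have h1 := congrArg (fun p => p.coeff 1) hc
  have h2 := congrArg (fun p => p.coeff 2) hc
  have h3 := congrArg (fun p => p.coeff 3) hc
  simp [coeff_X, coeff_C_mul, coeff_X_pow] at h0 h1 h2 h3
  funext j
  fin_cases j
  · exact h3
  · exact h2
  · exact h1
  · exact h0

theorem SolZero.exists_inv (hS : S_STAR) (hW : S_W) : ∃ Ψ, Phi AZ.d0 S.f * Ψ = 1 := by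
  refine hW hS (RD AZ.d0) (thD AZ.d0) (thD_simple AZ.d0) 4 _ (Phi AZ.d0 S.f) (Phi_eq AZ.d0 t S.f S.eq_f) ?_
  intro c hc
  apply S.combination_zero
  have := congrFun hc 0
  rw [Matrix.mulVec, dotProduct, Pi.zero_apply] at this
  refine Eq.trans ?_ this
  refine Finset.sum_congr rfl fun j _ => ?_
  exact mul_comm (algebraMap ℂ RR (c j)) (S.f j)

/-- the derivations -/
noncomputable def cwD (d : Dat) (e : ℂ) (χ : Gam →+ ℂ) : Derivation ℂ (RD d) (RD d) := cw e χ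

/-- the shift -/
def shE : Matrix (Fin 4) (Fin 4) ℂ := !![0, 0, 0, 0; 1, 0, 0, 0; 0, 1, 0, 0; 0, 0, 1, 0]

lemma shE4 : shE ^ 4 = 0 := by
  ext i j
  fin_cases i <;> fin_cases j <;> simp [shE, pow_succ, Matrix.mul_apply, Fin.sum_univ_four]

lemma shE3 : shE ^ 3 ≠ 0 := by
  intro h
  have := congrFun (congrFun h 3) 0
  simp [shE, pow_succ, Matrix.mul_apply, Fin.sum_univ_four] at this

lemma SolZero.delta : (Phi AZ.d0 S.f).map (cwD AZ.d0 1 0) =
      Phi AZ.d0 S.f * shE.map (algebraMap ℂ (RD AZ.d0)) := by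
  refine Matrix.ext fun k l => ?_
  have h2 : (Phi AZ.d0 S.f).map (cwD AZ.d0 1 0) k l = cw 1 0 (solv AZ.d0 (S.f l) k) := rfl
  have h3 : (Phi AZ.d0 S.f * shE.map (algebraMap ℂ (RD AZ.d0))) k l =
    ∑ x, solv AZ.d0 (S.f x) k * algebraMap ℂ RR (shE x l) := rfl
  rw [h2, h3, cw_solv AZ.d0 1 0 rfl, Fin.sum_univ_four]
  fin_cases l
  · show solv AZ.d0 (cw 1 0 S.y0) k = _
    rw [S.d0]
    simp [shE, SolZero.f]
  · show solv AZ.d0 (cw 1 0 S.y1) k = _
    rw [S.d1]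
    simp [shE, SolZero.f]
  · show solv AZ.d0 (cw 1 0 S.y2) k = _
    rw [S.d2]
    simp [shE, SolZero.f]
  · show solv AZ.d0 (cw 1 0 S.y3) k = _
    rw [S.d3]
    simp [shE, SolZero.f, solv_zero]

lemma conj_pow {R : Type} [CommRing R] {n : ℕ} (P Q E : Matrix (Fin n) (Fin n) R) (h : P * Q = 1) (k : ℕ) :
    (P * E * Q) ^ k = P * E ^ k * Q := by
  have h' : Q * P = 1 := mul_eq_one_comm.1 h
  induction k with
  | zero => rw [pow_zero, pow_zero, mul_one, h]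
  | succ k ih =>
    rw [pow_succ, ih, pow_succ]
    calc P * E ^ k * Q * (P * E * Q) = P * E ^ k * (Q * P) * E * Q := by simp only [mul_assoc]
      _ = P * (E ^ k * E) * Q := by rw [h', mul_one]; simp only [mul_assoc]

lemma SolZero.nil (Ψ : Matrix (Fin 4) (Fin 4) (RD AZ.d0)) (h : Phi AZ.d0 S.f * Ψ = 1) :
    ((Phi AZ.d0 S.f).map (cwD AZ.d0 1 0) * Ψ) ^ 4 = 0 ∧
    ((Phi AZ.d0 S.f).map (cwD AZ.d0 1 0) * Ψ) ^ (4 - 1) ≠ 0 := by
  have h' : Ψ * Phi AZ.d0 S.f = 1 := mul_eq_one_comm.1 h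
  have hinj : Function.Injective (algebraMap ℂ (RD AZ.d0)) := (algebraMap ℂ (RD AZ.d0)).injective
  rw [S.delta, conj_pow _ _ _ h, conj_pow _ _ _ h, ← Matrix.map_pow, ← Matrix.map_pow, shE4]
  constructor
  · rw [Matrix.map_zero _ (map_zero _), mul_zero, zero_mul]
  · intro h1
    apply shE3
    have h2 : (shE ^ 3).map (algebraMap ℂ (RD AZ.d0)) = 0 := by
      calc (shE ^ 3).map (algebraMap ℂ (RD AZ.d0)) = (Ψ * Phi AZ.d0 S.f) * (shE ^ 3).map (algebraMap ℂ (RD AZ.d0)) * (Ψ * Phi AZ.d0 S.f) := by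
            rw [h', one_mul, mul_one]
        _ = Ψ * (Phi AZ.d0 S.f * (shE ^ 3).map (algebraMap ℂ (RD AZ.d0)) * Ψ) * Phi AZ.d0 S.f := by simp only [mul_assoc]
        _ = 0 := by rw [h1, mul_zero, zero_mul]
    refine Matrix.ext fun i j => ?_
    apply hinj
    have h3 := congrFun (congrFun h2 i) j
    rw [Matrix.map_apply] at h3
    rw [h3]
    exact (map_zero (algebraMap ℂ (RD AZ.d0))).symm

end Pool.Agent.E8helper42.AZ
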