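import Mathlib
import Pool.Agent.E8helper42.AZ.Irr
import Pool.Agent.E8helper42.AZ.Zer
import Pool.Agent.E8helper31.AZ.ML
import Pool.Agent.E8helper31.AZ.IC
import Pool.Agent.E8helper36.AZ.IB
import Pool.Agent.E8helper36.AZ.TRAB
import Pool.Agent.E8helper37.AZ.LA
import Pool.Agent.E8helper41.AZ.Main
import Pool.Agent.E8helper41.AZ.Kap
import Pool.Agent.E8helper49.AZ.IA
import Pool.Agent.E8helper56.AZ.KT
import Pool.Agent.E8helper71.AZ.Irr
import Pool.Agent.E8helper71.AZ.Id
import Pool.Agent.E8helper81.AZ.Zero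
import Pool.Agent.E8helper99.AZ.H

/-!
# The functions are algebraically independent
-/

set_option autoImplicit false

namespace Pool.Agent.E8helper42.AZ

open MvPolynomial E8helper99.AZ

lemma ev_th {ι : Type} {n : ℕ} {F R : Type} [Field F] [CommRing R] [Algebra F R] (θF : Derivation ℤ F F)
    (θ : Derivation ℤ R R) (hc : ∀ a, θ (algebraMap F R a) = algebraMap F R (θF a)) (A : ι → Matrix (Fin n) (Fin n) F)
    (g : ι → Fin n → F) (x : Vr ι n → R)
    (h1 : ∀ i c, θ (x (Sum.inl (i, c))) = ∑ d, algebraMap F R (A i c d) * x (Sum.inl (i, d)))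
    (h2 : ∀ i c, θ (x (Sum.inr (i, c))) = ∑ d, algebraMap F R (A i c d) * x (Sum.inr (i, d)) + algebraMap F R (g i c))
    (P : MvPolynomial (Vr ι n) F) :
    θ (aeval x P) = aeval x (cfun θF P) + aeval x (Del (fun i => (A i, g i)) P) := by
  induction P using MvPolynomial.induction_on with
  | C a =>
    rw [cfun_C]
    have h3 : Del (fun i => (A i, g i)) (C a : MvPolynomial (Vr ι n) F) = 0 := by simp
    rw [h3, map_zero, add_zero, aeval_C, aeval_C, hc]
  | add P Q hP hQ =>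
    rw [map_add, map_add, cfun_add, map_add, map_add, map_add, hP, hQ]
    ring
  | mul_X P v hP =>
    have hv : θ (x v) = aeval x (Del (fun i => (A i, g i)) (X v : MvPolynomial (Vr ι n) F)) := by
      rcases v with ⟨i, c⟩ | ⟨i, c⟩
      · rw [h1, Del_inl, map_sum]
        refine Finset.sum_congr rfl fun d _ => ?_
        rw [map_mul, aeval_C, aeval_X]
      · rw [h2, Del_inr, map_add, map_sum, aeval_C]
        congr 1
        refine Finset.sum_congr rfl fun d _ => ?_
        rw [map_mul, aeval_C, aeval_X]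
    have h4 : cfun θF (P * X v) = X v * cfun θF P := by
      rw [cfun_mul, cfun_X, mul_zero, zero_add]
    rw [map_mul, Derivation.leibniz, Derivation.leibniz, h4, aeval_X, hP, hv]
    simp only [smul_eq_mul, map_add, map_mul, aeval_X]
    ring

/-- the abstract conclusion applied to the Apery systems -/
theorem stable_bot (b : ℕ → ℚ) (T : Finset ℚ) (hT : ∀ t ∈ T, 0 < t) (u : ℚ → RR)
    (hu : ∀ t : ℚ, Lop d0 t (u t) = (6 * (t : ℂ)) • d0.z)
    (p : Ideal (MvPolynomial (Vr T 4) FF)) (hp : p.IsPrime)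
    (h1 : ∀ i : T, ∃ c c' : Fin 4, c ≠ c' ∧ MvPolynomial.X (Sum.inl (i, c)) ∉ p ∧ MvPolynomial.X (Sum.inl (i, c')) ∉ p)
    (h2 : ∀ P ∈ p, ∀ Q, IsCoef thF P Q →
      Q + Del (fun i : T => (AF ((i : ℚ) : ℂ), gF (6 * ((i : ℚ) : ℂ)))) P ∈ p) : p = ⊥ := by
  classical
  have hstar := E8helper56.AZ.t_STAR
  have hW := E8helper31.AZ.wlem
  obtain ⟨⟨κ0, hk00, hk01⟩, -⟩ := E8helper41.AZ.kap
  have SZ : ∀ t : T, SolZero (t : ℚ) := fun t => (exists_solZero E8helper81.AZ.s_ZERO t.1).some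
  have SI : ∀ t : T, SolInf (t : ℚ) := fun t => (exists_solInf E8helper81.AZ.s_REG t.1 (hT _ t.2)).some
  choose ΨZ hΨZ using fun t : T => (SZ t).exists_inv hstar hW
  choose ΨI hΨI using fun t : T => (SI t).exists_inv (hT _ t.2) hstar hW
  haveI : CharZero FF := inferInstance
  refine E8helper41.AZ.main hstar E8helper37.AZ.la E8helper31.AZ.mlem E8helper56.AZ.t_KT E8helper71.AZ.t_ID
    E8helper99.AZ.stab E8helper71.AZ.t_IRR2 T 4 FF (RD d0) (RD dI) thF (thD d0) (cwD d0 1 0) (thD dI)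
    (cwD dI 0 (chi κ0)) (by norm_num) (thD_emb d0) (thD_simple d0) (cw_emb d0 1 0 rfl) (cw_comm d0 1 0 rfl)
    (thD_emb dI) (thD_simple dI) (cw_emb dI 0 (chi κ0) (chi_g₀ κ0))
    (fun i : T => AF ((i : ℚ) : ℂ)) (fun i : T => gF (6 * ((i : ℚ) : ℂ))) ?_ ?_ ?_ ?_ p hp h1 h2
  · intro i W hW'
    exact (SI i).irr (hT _ i.2) hstar hW E8helper49.AZ.t_IA E8helper36.AZ.ib E8helper31.AZ.iclem E8helper41.AZ.kap W hW'
  · intro i
    exact (SI i).noSol (hT _ i.2) hstar hW
  · refine ⟨fun i => Phi d0 (SZ i).f, ΨZ, fun i => solv d0 (u i), hΨZ, ?_, ?_, ?_⟩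
    · intro i
      exact Phi_eq d0 _ _ (SZ i).eq_f
    · intro i
      exact solv_eq d0 _ _ _ (hu i)
    · intro i
      exact (SZ i).nil (ΨZ i) (hΨZ i)
  · refine ⟨fun i => (i : ℚ), 0, fun i => Phi dI (SI i).f, ΨI, fun i => solv dI (SI i).bh, fun i => hT _ i.2,
      Subtype.val_injective, hΨI, ?_, ?_, ?_, ?_⟩
    · intro i
      exact Phi_eq dI _ _ (SI i).eq_f
    · intro i
      exact solv_eq dI _ _ _ (SI i).eq_b
    · intro i
      have := delta0 (SI i) κ0 hk00 hk01
      refine this.trans ?_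
      congr 1
      exact Matrix.map_single _ _ _ _
    · intro i
      funext c
      show cw 0 (chi κ0) (solv dI (SI i).bh c) = 0
      rw [cw_solv dI 0 (chi κ0) (chi_g₀ κ0), (SI i).cb, solv_zero]

theorem t_FUN : S_FUN := by
  classical
  intro a b hab T hT
  obtain ⟨φ, hφ, htr⟩ := E8helper36.AZ.tr
  obtain ⟨hser, hode⟩ := E8helper36.AZ.ab φ hφ
  replace hode := hode a b hab
  apply htr
  -- the evaluation
  set x : Vr T 4 → RD d0 := fun v => (φ (fam a b T v) : RR) with hx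
  have hsolv : ∀ (c : ℕ → ℚ) (t : ℚ) (i : Fin 4), φ (ser c t i) = solv d0 (φ (ser c t 0)) i := by
    intro c t i
    fin_cases i
    · rfl
    · exact (hser c t 0).symm
    · show φ (ser c t 2) = d0.th (d0.th _)
      rw [hser, hser]
    · show φ (ser c t 3) = d0.th (d0.th (d0.th _))
      rw [hser, hser, hser]
  set p : Ideal (MvPolynomial (Vr T 4) FF) := RingHom.ker (aeval x : MvPolynomial (Vr T 4) FF →ₐ[FF] RD d0) with hp
  have hprime : p.IsPrime := RingHom.ker_isPrime _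
  have hX1 : ∀ (i : T) (c : Fin 4), thD d0 (x (Sum.inl (i, c))) =
      ∑ d, algebraMap FF (RD d0) (AF ((i : ℚ) : ℂ) c d) * x (Sum.inl (i, d)) := by
    intro i c
    have h1 := congrFun (solv_eq d0 (((i : ℚ) : ℂ)) 0 (φ (ser a i 0)) (by rw [(hode i).1, zero_smul'])) c
    have h2 : gF 0 = 0 := by
      funext k
      fin_cases k <;> simp [gF]
    rw [h2] at h1
    simp only [Pi.add_apply, Pi.zero_apply, map_zero, add_zero] at h1
    have h3 : thD d0 (x (Sum.inl (i, c))) = d0.th (solv d0 (φ (ser a i 0)) c) := by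
      rw [← hsolv]; rfl
    rw [h3, h1]
    have h4 : ∀ d, x (Sum.inl (i, d)) = solv d0 (φ (ser a i 0)) d := fun d => by rw [← hsolv]; rfl
    simp only [h4]
    rfl
  have hX2 : ∀ (i : T) (c : Fin 4), thD d0 (x (Sum.inr (i, c))) =
      ∑ d, algebraMap FF (RD d0) (AF ((i : ℚ) : ℂ) c d) * x (Sum.inr (i, d)) +
        algebraMap FF (RD d0) (gF (6 * ((i : ℚ) : ℂ)) c) := by
    intro i c
    have h1 := congrFun (solv_eq d0 (((i : ℚ) : ℂ)) (6 * ((i : ℚ) : ℂ)) (φ (ser b i 0)) (hode i).2) c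
    have h3 : thD d0 (x (Sum.inr (i, c))) = d0.th (solv d0 (φ (ser b i 0)) c) := by
      rw [← hsolv]; rfl
    rw [h3, h1]
    have h4 : ∀ d, x (Sum.inr (i, d)) = solv d0 (φ (ser b i 0)) d := fun d => by rw [← hsolv]; rfl
    simp only [h4]
    rfl
  have hbot : p = ⊥ := by
    refine stable_bot b T hT (fun t => φ (ser b t 0)) (fun t => (hode t).2) p hprime ?_ ?_
    · intro i
      have hne : ∀ c : Fin 4, MvPolynomial.X (Sum.inl (i, c)) ∉ p := by
        intro c hc
        rw [hp, RingHom.mem_ker] at hc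
        have h1 : x (Sum.inl (i, c)) = 0 := by
          rw [← hc]; exact (aeval_X x _).symm
        have h2 : (φ (ser a i c) : RR).coeff (mk 0 2) = 0 := by
          have : (φ (ser a i c) : RR) = 0 := h1
          rw [this, HahnSeries.coeff_zero]
        rw [hφ, if_pos ⟨by simp, by simp, by simp⟩] at h2
        rw [Polynomial.C_eq_zero] at h2
        have h3 : ((mk 0 2 : Gam) |> p2) = 2 := rfl
        rw [p2_mk] at h2
        have h4 : ((2 : ℤ) / 2).toNat = 1 := by norm_num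
        rw [h4, ser, PowerSeries.coeff_mk, hab.a1] at h2
        have h5 : (0 : ℚ) < i := hT _ i.2
        have h6 : ((1 : ℕ) : ℚ) ^ ((c : Fin 4) : ℕ) * 5 * (i : ℚ) ^ 1 / ((Nat.factorial 1 : ℕ) : ℚ) = 5 * i := by
          simp
        rw [h6] at h2
        have h7 : (5 : ℚ) * i = 0 := by exact_mod_cast h2
        linarith
      exact ⟨0, 1, by decide, hne 0, hne 1⟩
    · intro P hP Q hQ
      have hQ' : Q = cfun (resZ thF) P := by
        ext m
        rw [coeff_cfun]
        exact hQ m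
      rw [hp, RingHom.mem_ker] at hP ⊢
      rw [hQ']
      have h1 := ev_th (resZ thF) ((thD d0).restrictScalars ℤ) (thD_emb d0) (fun i : T => AF ((i : ℚ) : ℂ))
        (fun i : T => gF (6 * ((i : ℚ) : ℂ))) x hX1 hX2 P
      rw [map_add]
      refine h1.symm.trans ?_
      have h2 : aeval x P = 0 := hP
      rw [h2, map_zero]
  intro P hP
  have h1 : P ∈ p := by
    rw [hp, RingHom.mem_ker]
    exact hP
  rw [hbot] at h1
  exact h1

end Pool.Agent.E8helper42.AZ
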