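import Mathlib
import Pool.Agent.E8helper42.AZ.Fun
import Pool.Agent.E8helper42.AZ.Stm5

/-!
# The functions for `ζ(3)`, `ζ(2)` and the exponential function are algebraically independent
-/

set_option autoImplicit false

namespace Pool.Agent.E8helper42.AZ

open MvPolynomial E8helper99.AZ

/-- the family of the blocks for `ζ(3)` -/
theorem family4 (T : Finset ℚ) (hT : ∀ t ∈ T, 0 < t) (κ0 : ℝ →ₗ[ℚ] ℚ) (hk00 : κ0 (17 + 12 * √2) = 1)
    (hk01 : κ0 (17 - 12 * √2) = 0) (u : ℚ → RR) (hu : ∀ t : ℚ, Lop d0 t (u t) = (6 * (t : ℂ)) • d0.z) :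
    ∃ f : Family FF (RD d0) (RD dI) thF (thD d0) (cwD d0 1 0) (thD dI) (cwD dI 0 (chi κ0)) T 4,
      (∀ i : T, f.A i = AF ((i : ℚ) : ℂ)) ∧ (∀ i : T, f.g i = gF (6 * ((i : ℚ) : ℂ))) ∧
      ∀ κ : ℝ →ₗ[ℚ] ℚ, κ (17 + 12 * √2) = 0 → κ (17 - 12 * √2) = 0 →
        (∀ i, (f.Φ₁ i).map (cwD dI 0 (chi κ)) = 0) ∧ ∀ i, (cwD dI 0 (chi κ)) ∘ f.b₁ i = 0 := by
  classical
  have hstar := E8helper56.AZ.t_STAR
  have hW := E8helper31.AZ.wlem
  have SZ : ∀ t : T, SolZero (t : ℚ) := fun t => (exists_solZero E8helper81.AZ.s_ZERO t.1).some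
  have SI : ∀ t : T, SolInf (t : ℚ) := fun t => (exists_solInf E8helper81.AZ.s_REG t.1 (hT _ t.2)).some
  choose ΨZ hΨZ using fun t : T => (SZ t).exists_inv hstar hW
  choose ΨI hΨI using fun t : T => (SI t).exists_inv (hT _ t.2) hstar hW
  refine ⟨{
    A := fun i : T => AF ((i : ℚ) : ℂ)
    g := fun i : T => gF (6 * ((i : ℚ) : ℂ))
    irr := fun i W hW' => (SI i).irr (hT _ i.2) hstar hW E8helper49.AZ.t_IA E8helper36.AZ.ib E8helper31.AZ.iclem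
      E8helper41.AZ.kap W hW'
    nosol := fun i => (SI i).noSol (hT _ i.2) hstar hW
    Φ₀ := fun i => Phi d0 (SZ i).f
    Ψ₀ := ΨZ
    b₀ := fun i => solv d0 (u i)
    inv₀ := hΨZ
    sol₀ := fun i => Phi_eq d0 _ _ (SZ i).eq_f
    part₀ := fun i => solv_eq d0 _ _ _ (hu i)
    nil₀ := fun i => (SZ i).nil (ΨZ i) (hΨZ i)
    t := fun i => (i : ℚ)
    c := 0
    Φ₁ := fun i => Phi dI (SI i).f
    Ψ₁ := ΨI
    b₁ := fun i => solv dI (SI i).bh
    pos := fun i => hT _ i.2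
    inj := Subtype.val_injective
    inv₁ := hΨI
    sol₁ := fun i => Phi_eq dI _ _ (SI i).eq_f
    part₁ := fun i => solv_eq dI _ _ _ (SI i).eq_b
    del₁ := fun i => by
      have := delta0 (SI i) κ0 hk00 hk01
      refine this.trans ?_
      congr 1
      exact Matrix.map_single _ _ _ _
    delb₁ := fun i => by
      funext c
      show cw 0 (chi κ0) (solv dI (SI i).bh c) = 0
      rw [cw_solv dI 0 (chi κ0) (chi_g₀ κ0), (SI i).cb, solv_zero] }, fun i => rfl, fun i => rfl, ?_⟩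
  intro κ h0 h1
  constructor
  · intro i
    refine Matrix.ext fun k l => ?_
    show cw 0 (chi κ) (solv dI ((SI i).f l) k) = 0
    rw [cw_solv dI 0 (chi κ) (chi_g₀ κ)]
    have : cw 0 (chi κ) ((SI i).f l) = 0 := by
      fin_cases l
      · show cw 0 (chi κ) (SI i).f0 = 0
        rw [(SI i).c0, h0, mul_zero, Rat.cast_zero, zero_smul']
      · show cw 0 (chi κ) (SI i).f1 = 0
        rw [(SI i).c1, h1, mul_zero, Rat.cast_zero, zero_smul']
      · exact (SI i).c2 κ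
      · exact (SI i).c3 κ
    rw [this, solv_zero]
  · intro i
    funext c
    show cw 0 (chi κ) (solv dI (SI i).bh c) = 0
    rw [cw_solv dI 0 (chi κ) (chi_g₀ κ), (SI i).cb, solv_zero]

lemma chi3_g₀ (κ : ℝ →ₗ[ℚ] ℚ) : chi κ dI.g₀ = 0 := chi_g₀ κ

/-- a particular solution of the system of size 3 at zero -/
lemma solv3_eq (d : Dat) (t s : ℂ) (u : RR) (h : Lop3 d t u = s • d.z) :
    (fun i => d.th (solv3 d u i)) = ((AF3 t).map d.emb).mulVec (solv3 d u) + fun i => d.emb (gF3 s i) := by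
  have h1 : d.th (d.th (d.th u)) = - (t • (d.z * ((11 : ℂ) • d.th (d.th u) + (11 : ℂ) • d.th u + (3 : ℂ) • u))) +
    t ^ 2 • (d.z * (d.z * (d.th u + u))) + s • d.z := by
    rw [← h, Lop3]; ring
  funext i
  fin_cases i
  · simp [solv3, AF3, AP3, gF3, Matrix.mulVec, dotProduct, Fin.sum_univ_three, Matrix.of_apply, Matrix.map_apply]
  · simp [solv3, AF3, AP3, gF3, Matrix.mulVec, dotProduct, Fin.sum_univ_three, Matrix.of_apply, Matrix.map_apply]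
  · simp only [solv3, AF3, AP3, gF3, Matrix.mulVec, dotProduct, Fin.sum_univ_three, Matrix.of_apply, Matrix.map_apply,
      Pi.add_apply]
    simp only [Fin.reduceFinMk, Matrix.cons_val, d.emb_poly]
    rw [h1]
    simp only [map_neg, map_mul, map_add, aeval_C, Polynomial.aeval_C, Polynomial.aeval_X, map_pow, smul_def', map_ofNat]
    ring

/-- the family of the blocks for `ζ(2)` -/
theorem family3 (hP : S_P3G) (hK : S_KAP3) (T : Finset ℚ) (hT : ∀ t ∈ T, 0 < t) (κ0 : ℝ →ₗ[ℚ] ℚ)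
    (hk00 : κ0 ((-11 + 5 * √5) / 2) = 1)
    (hk01 : κ0 ((-11 - 5 * √5) / 2) = 0) (u : ℚ → RR) (hu : ∀ t : ℚ, Lop3 d0 t (u t) = (-5 * (t : ℂ)) • d0.z) :
    ∃ f : Family FF (RD d0) (RD dI) thF (thD d0) (cwD d0 1 0) (thD dI) (cwD dI 0 (chi κ0)) T 3,
      (∀ i : T, f.A i = AF3 ((i : ℚ) : ℂ)) ∧ (∀ i : T, f.g i = gF3 (-5 * ((i : ℚ) : ℂ))) ∧
      ∀ κ : ℝ →ₗ[ℚ] ℚ, κ ((-11 + 5 * √5) / 2) = 1 → κ ((-11 - 5 * √5) / 2) = -1 →
        (∀ i, (cwD dI 0 (chi κ)) ∘ f.b₁ i = 0) ∧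
        (∀ i, ∃ M : Matrix (Fin 3) (Fin 3) ℂ, (∀ z : ℂ, M ≠ z • (1 : Matrix (Fin 3) (Fin 3) ℂ)) ∧
          (f.Φ₁ i).map (cwD dI 0 (chi κ)) = f.Φ₁ i * M.map (algebraMap ℂ (RD dI))) := by
  classical
  have hall := fun t : T => hP E8helper56.AZ.t_STAR E8helper31.AZ.wlem E8helper49.AZ.t_IA E8helper36.AZ.ib
    E8helper31.AZ.iclem hK (t : ℚ) (hT _ t.2)
  choose hirr hnosol hz hi using hall
  choose Φ₀ Ψ₀ hinv₀ hsol₀ hnil₀ using hz
  choose Φ₁ Ψ₁ b₁ hinv₁ hsol₁ hpart₁ hdel₁ using hi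
  refine ⟨{
    A := fun i : T => AF3 ((i : ℚ) : ℂ)
    g := fun i : T => gF3 (-5 * ((i : ℚ) : ℂ))
    irr := hirr
    nosol := hnosol
    Φ₀ := Φ₀
    Ψ₀ := Ψ₀
    b₀ := fun i => solv3 d0 (u i)
    inv₀ := hinv₀
    sol₀ := hsol₀
    part₀ := fun i => solv3_eq d0 _ _ _ (hu i)
    nil₀ := fun i => hnil₀ i _ rfl
    t := fun i => (i : ℚ)
    c := 0
    Φ₁ := Φ₁
    Ψ₁ := Ψ₁
    b₁ := b₁
    pos := fun i => hT _ i.2
    inj := Subtype.val_injective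
    inv₁ := hinv₁
    sol₁ := hsol₁
    part₁ := hpart₁
    del₁ := fun i => by
      have := (hdel₁ i κ0 (chi κ0) (fun g => rfl) _ rfl).1
      refine this.trans ?_
      congr 1
      rw [hk00, hk01]
      ext k l
      fin_cases k <;> fin_cases l <;> simp [Matrix.single_apply]
    delb₁ := fun i => (hdel₁ i κ0 (chi κ0) (fun g => rfl) _ rfl).2 }, fun i => rfl, fun i => rfl, ?_⟩
  intro κ h0 h1
  refine ⟨fun i => (hdel₁ i κ (chi κ) (fun g => rfl) _ rfl).2, fun i => ⟨_, ?_, (hdel₁ i κ (chi κ) (fun g => rfl) _ rfl).1⟩⟩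
  intro z hz'
  rw [h0, h1] at hz'
  have e0 := congrFun (congrFun hz' 0) 0
  have e2 := congrFun (congrFun hz' 2) 2
  simp at e0 e2
  have : (0 : ℚ) < i := hT _ i.2
  rw [← e2] at e0
  have h3 : ((i : ℚ) : ℂ) ≠ 0 := by exact_mod_cast this.ne'
  exact h3 e0

end Pool.Agent.E8helper42.AZ
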