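import Mathlib
import Pool.Agent.E8helper42.AZ.FunM

/-!
# The functions for `ζ(3)`, `ζ(2)` and the exponential function are algebraically independent: the conclusion
-/

set_option autoImplicit false

namespace Pool.Agent.E8helper42.AZ

open MvPolynomial E8helper99.AZ

/-- the index type of the functions -/
abbrev IxF (T T' : Finset ℚ) := Option (((T × Fin 4) ⊕ (T × Fin 4)) ⊕ ((T' × Fin 3) ⊕ (T' × Fin 3)))

/-- the functions as variables -/
def rho (T T' : Finset ℚ) : IxF T T' → Vr (Option (T ⊕ T')) 4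
  | none => Sum.inl (none, 0)
  | some (Sum.inl (Sum.inl (i, c))) => Sum.inl (some (Sum.inl i), c)
  | some (Sum.inl (Sum.inr (i, c))) => Sum.inr (some (Sum.inl i), c)
  | some (Sum.inr (Sum.inl (i, c))) => Sum.inl (some (Sum.inr i), c.castSucc)
  | some (Sum.inr (Sum.inr (i, c))) => Sum.inr (some (Sum.inr i), c.castSucc)

lemma rho_inj (T T' : Finset ℚ) : Function.Injective (rho T T') := by
  intro x y h
  rcases x with _ | ((⟨i, c⟩ | ⟨i, c⟩) | (⟨i, c⟩ | ⟨i, c⟩)) <;>
  rcases y with _ | ((⟨j, e⟩ | ⟨j, e⟩) | (⟨j, e⟩ | ⟨j, e⟩)) <;>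
  simp_all [rho]

/-- the values of the variables -/
noncomputable def xval (a b a' b' : ℕ → ℚ) (T T' : Finset ℚ) (φ : PowerSeries ℚ →+* RR) :
    Vr (Option (T ⊕ T')) 4 → RD d0
  | Sum.inl (none, c) => if c = 0 then (φ (PowerSeries.exp ℚ) : RR) else (0 : RR)
  | Sum.inl (some (Sum.inl i), c) => (φ (ser a i c) : RR)
  | Sum.inl (some (Sum.inr i), c) => if (c : ℕ) < 3 then (φ (ser a' i c) : RR) else (0 : RR)
  | Sum.inr (none, _) => (0 : RR)
  | Sum.inr (some (Sum.inl i), c) => (φ (ser b i c) : RR)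
  | Sum.inr (some (Sum.inr i), c) => if (c : ℕ) < 3 then (φ (ser b' i c) : RR) else (0 : RR)

section
variable (a b a' b' : ℕ → ℚ) (T T' : Finset ℚ) (φ : PowerSeries ℚ →+* RR)

lemma xval_n0 : xval a b a' b' T T' φ (Sum.inl (none, 0)) = (φ (PowerSeries.exp ℚ) : RR) := by
  show (if (0 : Fin 4) = 0 then (φ (PowerSeries.exp ℚ) : RR) else (0 : RR)) = _
  exact if_pos rfl

lemma xval_n {c : Fin 4} (hc : c ≠ 0) : xval a b a' b' T T' φ (Sum.inl (none, c)) = (0 : RR) := if_neg hc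

lemma xval_a (i : T') (c : Fin 3) : xval a b a' b' T T' φ (Sum.inl (some (Sum.inr i), c.castSucc)) =
    (φ (ser a' i c) : RR) := if_pos c.isLt

lemma xval_b (i : T') (c : Fin 3) : xval a b a' b' T T' φ (Sum.inr (some (Sum.inr i), c.castSucc)) =
    (φ (ser b' i c) : RR) := if_pos c.isLt

lemma xval_al (i : T') : xval a b a' b' T T' φ (Sum.inl (some (Sum.inr i), Fin.last 3)) = (0 : RR) := by
  show (if ((Fin.last 3 : Fin 4) : ℕ) < 3 then (φ (ser a' i (Fin.last 3 : Fin 4)) : RR) else (0 : RR)) = _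
  exact if_neg (by simp)

lemma xval_bl (i : T') : xval a b a' b' T T' φ (Sum.inr (some (Sum.inr i), Fin.last 3)) = (0 : RR) := by
  show (if ((Fin.last 3 : Fin 4) : ℕ) < 3 then (φ (ser b' i (Fin.last 3 : Fin 4)) : RR) else (0 : RR)) = _
  exact if_neg (by simp)

end

lemma xval_rho (a b a' b' : ℕ → ℚ) (T T' : Finset ℚ) (φ : PowerSeries ℚ →+* RR) (o : IxF T T') :
    xval a b a' b' T T' φ (rho T T' o) =
      (φ (o.elim (PowerSeries.exp ℚ) (Sum.elim (fam a b T) (fam3 a' b' T'))) : RR) := by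
  rcases o with _ | ((⟨i, c⟩ | ⟨i, c⟩) | (⟨i, c⟩ | ⟨i, c⟩))
  · exact xval_n0 _ _ _ _ _ _ _
  · rfl
  · rfl
  · exact xval_a _ _ _ _ _ _ _ _ _
  · exact xval_b _ _ _ _ _ _ _ _ _

/-- the system -/
noncomputable def sysM (T T' : Finset ℚ) : Aff (Option (T ⊕ T')) 4 FF :=
  padA 4 (fun i : T => (AF ((i : ℚ) : ℂ), gF (6 * ((i : ℚ) : ℂ)))) (fun i : T' => (AF3 ((i : ℚ) : ℂ), gF3 (-5 * ((i : ℚ) : ℂ))))
    (Matrix.single 0 0 RatFunc.X, 0)

lemma padM_self {S : Type} [Zero S] {n : ℕ} (M : Matrix (Fin n) (Fin n) S) : padM n M = M := by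
  ext a b
  simp [padM]

lemma padV_self {S : Type} [Zero S] {n : ℕ} (v : Fin n → S) : padV n v = v := by
  ext a
  simp [padV]

theorem t_FUNM (hMIX : S_MIX) (hIDM : S_IDM) (hP : S_P3G) (hK3 : S_KAP3) (hKM : S_KAPM) (hEXP : S_EXP) (hAB3 : S_AB3)
    (a b a' b' : ℕ → ℚ) (hab : AperyPair a b) (hab' : AperyPair2 a' b') (T T' : Finset ℚ) (hT : ∀ t ∈ T, 0 < t)
    (hT' : ∀ t ∈ T', 0 < t) :
    AlgebraicIndependent (Polynomial ℚ) (fun o : IxF T T' =>
      o.elim (PowerSeries.exp ℚ) (Sum.elim (fam a b T) (fam3 a' b' T'))) := by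
  classical
  obtain ⟨φ, hφ, htr⟩ := E8helper36.AZ.tr
  obtain ⟨hser, hode⟩ := E8helper36.AZ.ab φ hφ
  replace hode := hode a b hab
  obtain ⟨hexp, hode'⟩ := hAB3 φ hφ
  replace hode' := hode' a' b' hab'
  apply htr
  set x := xval a b a' b' T T' φ with hx
  have hsolv : ∀ (c : ℕ → ℚ) (t : ℚ) (i : Fin 4), φ (ser c t i) = solv d0 (φ (ser c t 0)) i := by
    intro c t i
    fin_cases i
    · rfl
    · exact (hser c t 0).symm
    · show φ (ser c t 2) = d0.th (d0.th _)
      rw [hser, hser]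
    · show φ (ser c t 3) = d0.th (d0.th (d0.th _))
      rw [hser, hser, hser]
  have hsolv3 : ∀ (c : ℕ → ℚ) (t : ℚ) (i : Fin 3), φ (ser c t i) = solv3 d0 (φ (ser c t 0)) i := by
    intro c t i
    fin_cases i
    · rfl
    · exact (hser c t 0).symm
    · show φ (ser c t 2) = d0.th (d0.th _)
      rw [hser, hser]
  set p : Ideal (MvPolynomial (Vr (Option (T ⊕ T')) 4) FF) :=
    RingHom.ker (aeval x : MvPolynomial (Vr (Option (T ⊕ T')) 4) FF →ₐ[FF] RD d0) with hp
  have hprime : p.IsPrime := RingHom.ker_isPrime _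
  -- the system of equations
  have hX1 : ∀ (o : Option (T ⊕ T')) (c : Fin 4), thD d0 (x (Sum.inl (o, c))) =
      ∑ d, algebraMap FF (RD d0) ((sysM T T' o).1 c d) * x (Sum.inl (o, d)) := by
    intro o c
    rcases o with _ | (i | i)
    · -- the exponential function
      rw [Finset.sum_eq_single 0]
      · by_cases hc : c = 0
        · subst hc
          have h1 : (sysM T T' none).1 0 0 = RatFunc.X := by
            simp [sysM, padA]
          rw [h1]
          have h2 : x (Sum.inl (none, 0)) = (φ (PowerSeries.exp ℚ) : RR) := xval_n0 _ _ _ _ _ _ _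
          rw [h2]
          have h3 : (algebraMap FF (RD d0) RatFunc.X : RR) = d0.z := by
            show d0.emb RatFunc.X = d0.z
            rw [← RatFunc.algebraMap_X, d0.emb_poly, Polynomial.aeval_X]
          exact hexp.trans (by rw [← h3]; rfl)
        · have h1 : (sysM T T' none).1 c 0 = 0 := by
            simp only [sysM, padA, Option.elim_none]
            rw [Matrix.single_apply_of_row_ne (Ne.symm hc)]
          have h2 : x (Sum.inl (none, c)) = (0 : RR) := xval_n _ _ _ _ _ _ _ hc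
          rw [h1, map_zero, zero_mul, h2]
          exact map_zero d0.th
      · intro d _ hd
        have h2 : x (Sum.inl (none, d)) = (0 : RR) := xval_n _ _ _ _ _ _ _ hd
        rw [h2]
        exact mul_zero _
      · intro h; exact absurd (Finset.mem_univ _) h
    · have h1 := congrFun (solv_eq d0 (((i : ℚ) : ℂ)) 0 (φ (ser a i 0)) (by rw [(hode i).1, zero_smul'])) c
      have h2 : gF 0 = 0 := by
        funext k
        fin_cases k <;> simp [gF]
      rw [h2] at h1
      simp only [Pi.add_apply, Pi.zero_apply, map_zero, add_zero] at h1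
      have h3 : thD d0 (x (Sum.inl (some (Sum.inl i), c))) = d0.th (solv d0 (φ (ser a i 0)) c) := by
        rw [← hsolv]; rfl
      rw [h3, h1]
      have h4 : ∀ d, x (Sum.inl (some (Sum.inl i), d)) = solv d0 (φ (ser a i 0)) d := fun d => by rw [← hsolv]; rfl
      have h5 : (sysM T T' (some (Sum.inl i))).1 = AF ((i : ℚ) : ℂ) := by
        show padM 4 (AF ((i : ℚ) : ℂ)) = _
        exact padM_self _
      simp only [h4, h5]
      rfl
    · have h5 : (sysM T T' (some (Sum.inr i))).1 = padM 4 (AF3 ((i : ℚ) : ℂ)) := rfl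
      have h4 : ∀ d : Fin 3, x (Sum.inl (some (Sum.inr i), d.castSucc)) = (solv3 d0 (φ (ser a' i 0)) d : RR) := fun d => by
        rw [← hsolv3]
        exact xval_a _ _ _ _ _ _ _ _ _
      have h6 : x (Sum.inl (some (Sum.inr i), Fin.last 3)) = (0 : RR) := xval_al _ _ _ _ _ _ _ _
      rw [h5, Fin.sum_univ_castSucc, h6]
      refine Fin.lastCases ?_ (fun c => ?_) c
      · rw [h6]
        have h7 : ∀ d, (padM 4 (AF3 ((i : ℚ) : ℂ))) (Fin.last 3) d = 0 := fun d => by simp [padM]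
        simp only [h7, map_zero, zero_mul, Finset.sum_const_zero, zero_add]
        first
          | exact map_zero d0.th
          | exact (map_zero d0.th).trans (mul_zero (0 : RR)).symm
      · have h1 := congrFun (solv3_eq d0 (((i : ℚ) : ℂ)) 0 (φ (ser a' i 0)) (by rw [(hode' i).1, zero_smul'])) c
        have h2 : gF3 0 = 0 := by
          funext k
          fin_cases k <;> simp [gF3]
        rw [h2] at h1
        simp only [Pi.add_apply, Pi.zero_apply, map_zero, add_zero] at h1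
        have h7 : ∀ d : Fin 3, (padM 4 (AF3 ((i : ℚ) : ℂ))) c.castSucc d.castSucc = AF3 ((i : ℚ) : ℂ) c d := fun d => by
          simp [padM]
        simp only [h7, h4]
        refine h1.trans ?_
        rw [Matrix.mulVec, dotProduct]
        refine (add_zero _).symm.trans ?_
        congr 1
        exact (mul_zero _).symm
  have hX2 : ∀ (o : Option (T ⊕ T')) (c : Fin 4), thD d0 (x (Sum.inr (o, c))) =
      ∑ d, algebraMap FF (RD d0) ((sysM T T' o).1 c d) * x (Sum.inr (o, d)) + algebraMap FF (RD d0) ((sysM T T' o).2 c) := by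
    intro o c
    rcases o with _ | (i | i)
    · have h2 : ∀ d, x (Sum.inr (none, d)) = (0 : RR) := fun d => rfl
      have h3 : (sysM T T' none).2 c = 0 := rfl
      rw [h3, map_zero, add_zero, h2]
      rw [Finset.sum_eq_zero (fun d _ => by rw [h2]; exact mul_zero _)]
      exact map_zero d0.th
    · have h1 := congrFun (solv_eq d0 (((i : ℚ) : ℂ)) (6 * ((i : ℚ) : ℂ)) (φ (ser b i 0)) (hode i).2) c
      have h3 : thD d0 (x (Sum.inr (some (Sum.inl i), c))) = d0.th (solv d0 (φ (ser b i 0)) c) := by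
        rw [← hsolv]; rfl
      rw [h3, h1]
      have h4 : ∀ d, x (Sum.inr (some (Sum.inl i), d)) = solv d0 (φ (ser b i 0)) d := fun d => by rw [← hsolv]; rfl
      have h5 : (sysM T T' (some (Sum.inl i))).1 = AF ((i : ℚ) : ℂ) := by
        show padM 4 (AF ((i : ℚ) : ℂ)) = _
        exact padM_self _
      have h6 : (sysM T T' (some (Sum.inl i))).2 = gF (6 * ((i : ℚ) : ℂ)) := by
        show padV 4 (gF (6 * ((i : ℚ) : ℂ))) = _
        exact padV_self _
      simp only [h4, h5, h6]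
      rfl
    · have h5 : (sysM T T' (some (Sum.inr i))).1 = padM 4 (AF3 ((i : ℚ) : ℂ)) := rfl
      have h5' : (sysM T T' (some (Sum.inr i))).2 = padV 4 (gF3 (-5 * ((i : ℚ) : ℂ))) := rfl
      have h4 : ∀ d : Fin 3, x (Sum.inr (some (Sum.inr i), d.castSucc)) = (solv3 d0 (φ (ser b' i 0)) d : RR) := fun d => by
        rw [← hsolv3]
        exact xval_b _ _ _ _ _ _ _ _ _
      have h6 : x (Sum.inr (some (Sum.inr i), Fin.last 3)) = (0 : RR) := xval_bl _ _ _ _ _ _ _ _
      rw [h5, h5', Fin.sum_univ_castSucc, h6]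
      refine Fin.lastCases ?_ (fun c => ?_) c
      · rw [h6]
        have h7 : ∀ d, (padM 4 (AF3 ((i : ℚ) : ℂ))) (Fin.last 3) d = 0 := fun d => by simp [padM]
        have h8 : padV 4 (gF3 (-5 * ((i : ℚ) : ℂ))) (Fin.last 3) = 0 := by simp [padV]
        simp only [h7, h8, map_zero, zero_mul, Finset.sum_const_zero, zero_add, add_zero]
        first
          | exact map_zero d0.th
          | exact (map_zero d0.th).trans (mul_zero (0 : RR)).symm
      · have h1 := congrFun (solv3_eq d0 (((i : ℚ) : ℂ)) (-5 * ((i : ℚ) : ℂ)) (φ (ser b' i 0)) (hode' i).2) c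
        have h7 : ∀ d : Fin 3, (padM 4 (AF3 ((i : ℚ) : ℂ))) c.castSucc d.castSucc = AF3 ((i : ℚ) : ℂ) c d := fun d => by
          simp [padM]
        have h8 : padV 4 (gF3 (-5 * ((i : ℚ) : ℂ))) c.castSucc = gF3 (-5 * ((i : ℚ) : ℂ)) c := by simp [padV]
        simp only [h7, h4, h8]
        refine h1.trans ?_
        rw [Pi.add_apply, Matrix.mulVec, dotProduct]
        congr 1
        refine (add_zero _).symm.trans ?_
        congr 1
        exact (mul_zero _).symm
  -- stability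
  have hstab : ∀ P ∈ p, ∀ Q, IsCoef thF P Q → Q + Del (sysM T T') P ∈ p := by
    intro P hP' Q hQ
    have hQ' : Q = cfun (resZ thF) P := by
      ext m
      rw [coeff_cfun]
      exact hQ m
    rw [hp, RingHom.mem_ker] at hP' ⊢
    rw [hQ']
    have h1 := ev_th (resZ thF) ((thD d0).restrictScalars ℤ) (thD_emb d0) (fun o => (sysM T T' o).1)
      (fun o => (sysM T T' o).2) x hX1 hX2 P
    rw [map_add]
    refine h1.symm.trans ?_
    have h2 : aeval x P = 0 := hP'
    rw [h2, map_zero]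
  obtain ⟨⟨κ4, hk40, hk41⟩, -⟩ := E8helper41.AZ.kap
  obtain ⟨⟨κ3, hk30, hk31⟩, -⟩ := id hK3
  obtain ⟨κM, hm0, hm1, hm2, hm3⟩ := id hKM
  obtain ⟨f₁, hA1, hg1, hf1⟩ := family4 T hT κ4 hk40 hk41 (fun t => φ (ser b t 0)) (fun t => (hode t).2)
  obtain ⟨f₂, hA2, hg2, hf2⟩ := family3 hP hK3 T' hT' κ3 hk30 hk31 (fun t => φ (ser b' t 0)) (fun t => (hode' t).2)
  have hE0 : ∃ E E' : RD d0, E * E' = 1 ∧ thD d0 E = algebraMap FF (RD d0) RatFunc.X * E := by
    refine ⟨(φ (PowerSeries.exp ℚ) : RR), (φ (PowerSeries.evalNegHom (PowerSeries.exp ℚ)) : RR), ?_, ?_⟩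
    · have : φ (PowerSeries.exp ℚ) * φ (PowerSeries.evalNegHom (PowerSeries.exp ℚ)) = 1 := by
        rw [← map_mul, PowerSeries.exp_mul_exp_neg_eq_one, map_one]
      exact this
    · have h3 : (algebraMap FF (RD d0) RatFunc.X : RR) = d0.z := by
        show d0.emb RatFunc.X = d0.z
        rw [← RatFunc.algebraMap_X, d0.emb_poly, Polynomial.aeval_X]
      exact hexp.trans (by rw [← h3]; rfl)
  obtain ⟨⟨E1, ⟨E1', hE1⟩, hE1th⟩, hEtr⟩ := id hEXP
  have hstable := hMIX E8helper56.AZ.t_STAR E8helper37.AZ.la E8helper31.AZ.mlem E8helper56.AZ.t_KT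
    E8helper99.AZ.stab E8helper71.AZ.t_IRR2 T T' 4 4 3 FF (RD d0) (RD dI) thF (thD d0) (cwD d0 1 0) (thD dI)
    (cwD dI 0 (chi κ4)) (cwD dI 0 (chi κ3)) (cwD dI 0 (chi κM)) (by norm_num) le_rfl (by norm_num) (by norm_num)
    (thD_emb d0) (thD_simple d0) (cw_emb d0 1 0 rfl) (cw_comm d0 1 0 rfl)
    (thD_emb dI) (thD_simple dI) (cw_emb dI 0 (chi κ4) (chi_g₀ κ4)) (cw_emb dI 0 (chi κ3) (chi_g₀ κ3))
    (cw_emb dI 0 (chi κM) (chi_g₀ κM)) f₁ f₂ RatFunc.X 0 (hf1 κM hm0 hm1).1 (hf1 κM hm0 hm1).2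
    (hf2 κM hm2 hm3).1 (hf2 κM hm2 hm3).2 hE0 ⟨E1, E1', hE1, hE1th⟩ p hprime (by
      have h1 : (fun i => (f₁.A i, f₁.g i)) = (fun i : T => (AF ((i : ℚ) : ℂ), gF (6 * ((i : ℚ) : ℂ)))) := by
        funext i; rw [hA1, hg1]
      have h2 : (fun i => (f₂.A i, f₂.g i)) = (fun i : T' => (AF3 ((i : ℚ) : ℂ), gF3 (-5 * ((i : ℚ) : ℂ)))) := by
        funext i; rw [hA2, hg2]
      rw [h1, h2]
      exact hstab)
  -- the variables which are not in the ideal
  have hne1 : ∀ (i : T) (c : Fin 4), MvPolynomial.X (Sum.inl (some (Sum.inl i), c)) ∉ p := by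
    intro i c hc
    rw [hp, RingHom.mem_ker] at hc
    have h1 : x (Sum.inl (some (Sum.inl i), c)) = 0 := by
      rw [← hc]; exact (aeval_X x _).symm
    have h2 : (φ (ser a i c) : RR).coeff (mk 0 2) = 0 := by
      have : (φ (ser a i c) : RR) = 0 := h1
      rw [this, HahnSeries.coeff_zero]
    rw [hφ, if_pos ⟨by simp, by simp, by simp⟩, Polynomial.C_eq_zero, p2_mk] at h2
    have h4 : ((2 : ℤ) / 2).toNat = 1 := by norm_num
    rw [h4, ser, PowerSeries.coeff_mk, hab.a1] at h2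
    have h5 : (0 : ℚ) < i := hT _ i.2
    have h6 : ((1 : ℕ) : ℚ) ^ ((c : Fin 4) : ℕ) * 5 * (i : ℚ) ^ 1 / ((Nat.factorial 1 : ℕ) : ℚ) = 5 * i := by
      simp
    rw [h6] at h2
    have h7 : (5 : ℚ) * i = 0 := by exact_mod_cast h2
    linarith
  have hne2 : ∀ (i : T') (c : Fin 3), MvPolynomial.X (Sum.inl (some (Sum.inr i), c.castSucc)) ∉ p := by
    intro i c hc
    rw [hp, RingHom.mem_ker] at hc
    have h1 : x (Sum.inl (some (Sum.inr i), c.castSucc)) = 0 := by
      rw [← hc]; exact (aeval_X x _).symm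
    have h2 : (φ (ser a' i c) : RR).coeff (mk 0 2) = 0 := by
      have h0 : x (Sum.inl (some (Sum.inr i), c.castSucc)) = (φ (ser a' i c) : RR) := xval_a _ _ _ _ _ _ _ _ _
      have : (φ (ser a' i c) : RR) = 0 := h0.symm.trans h1
      rw [this, HahnSeries.coeff_zero]
    rw [hφ, if_pos ⟨by simp, by simp, by simp⟩, Polynomial.C_eq_zero, p2_mk] at h2
    have h4 : ((2 : ℤ) / 2).toNat = 1 := by norm_num
    rw [h4, ser, PowerSeries.coeff_mk, hab'.a1] at h2
    have h5 : (0 : ℚ) < i := hT' _ i.2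
    have h6 : ((1 : ℕ) : ℚ) ^ ((c : Fin 3) : ℕ) * (-3) * (i : ℚ) ^ 1 / ((Nat.factorial 1 : ℕ) : ℚ) = -3 * i := by
      simp
    rw [h6] at h2
    have h7 : (-3 : ℚ) * i = 0 := by exact_mod_cast h2
    linarith
  -- the conclusion
  intro P hP'
  by_contra hne
  have hmem : rename (rho T T') P ∈ p := by
    rw [hp, RingHom.mem_ker]
    have h1 : (aeval x : MvPolynomial (Vr (Option (T ⊕ T')) 4) FF →ₐ[FF] RD d0) (rename (rho T T') P) =
        aeval (x ∘ rho T T') P := aeval_rename _ _ _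
    rw [h1]
    have h2 : x ∘ rho T T' = fun o : IxF T T' =>
        (φ (o.elim (PowerSeries.exp ℚ) (Sum.elim (fam a b T) (fam3 a' b' T'))) : RR) := by
      funext o
      exact xval_rho a b a' b' T T' φ o
    rw [h2]
    exact hP'
  have hne' : rename (rho T T') P ≠ 0 := by
    intro h
    exact hne ((rename_injective _ (rho_inj T T')) (by rw [h, map_zero]))
  obtain ⟨q, hq0, hq⟩ := hIDM T T' 4 4 3 FF 0 p hprime le_rfl (by norm_num)
    (fun i => ⟨0, 1, by norm_num, by norm_num, by decide, hne1 i 0, hne1 i 1⟩)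
    (fun i => ⟨(0 : Fin 3).castSucc, (1 : Fin 3).castSucc, by norm_num, by norm_num, by decide, hne2 i 0, hne2 i 1⟩)
    hstable _ hmem hne' (by
      intro v hv
      have h1 := vars_rename (rho T T') P hv
      obtain ⟨o, -, rfl⟩ := Finset.mem_image.1 h1
      rcases o with _ | ((⟨i, c⟩ | ⟨i, c⟩) | (⟨i, c⟩ | ⟨i, c⟩))
      · exact Or.inl rfl
      · exact Or.inr (Or.inl ⟨i, c, c.isLt, Or.inl rfl⟩)
      · exact Or.inr (Or.inl ⟨i, c, c.isLt, Or.inr rfl⟩)
      · exact Or.inr (Or.inr ⟨i, c.castSucc, c.isLt, Or.inl rfl⟩)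
      · exact Or.inr (Or.inr ⟨i, c.castSucc, c.isLt, Or.inr rfl⟩))
  rw [hp, RingHom.mem_ker] at hq
  have hE : (φ (PowerSeries.exp ℚ) : RR) * (φ (PowerSeries.evalNegHom (PowerSeries.exp ℚ)) : RR) = 1 := by
    rw [← map_mul, PowerSeries.exp_mul_exp_neg_eq_one, map_one]
  have h3 : (algebraMap FF (RD d0) RatFunc.X : RR) = d0.z := by
    show d0.emb RatFunc.X = d0.z
    rw [← RatFunc.algebraMap_X, d0.emb_poly, Polynomial.aeval_X]
  apply hq0
  refine hEtr (φ (PowerSeries.exp ℚ) : RR) ⟨(φ (PowerSeries.evalNegHom (PowerSeries.exp ℚ)) : RR), hE⟩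
    (hexp.trans (by rw [← h3]; rfl)) q ?_
  have h4 : (aeval x : MvPolynomial (Vr (Option (T ⊕ T')) 4) FF →ₐ[FF] RD d0) (Polynomial.aeval (X (Sum.inl (none, 0))) q) =
      Polynomial.aeval (x (Sum.inl (none, 0))) q := by
    rw [← Polynomial.aeval_algHom_apply, aeval_X]
  rw [← hq]
  refine Eq.trans ?_ h4.symm
  rw [hx, xval_n0]

end Pool.Agent.E8helper42.AZ
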