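import Mathlib
import Pool.Agent.E8helper42.AZ.Stm3
import Pool.Agent.E8helper42.AZ.Stm5

/-!
# Project AZ, sixth round: the numbers
-/

set_option autoImplicit false

namespace Pool.Agent.E8helper42.AZ

/-- the index type of the functions and numbers -/
abbrev IxG (T T' : Finset ℚ) := Option (((T × Fin 4) ⊕ (T × Fin 4)) ⊕ ((T' × Fin 3) ⊕ (T' × Fin 3)))

/-- DVM: from the values of `θ^j` to the values of the derivatives, all together -/
def S_DVM : Prop := ∀ a b a' b' : ℕ → ℚ, EFc a → EFc b → EFc a' → EFc b' → ∀ (w : ℝ) (T T' : Finset ℚ),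
  (∀ t ∈ T, t ≠ 0) → (∀ t ∈ T', t ≠ 0) →
  AlgebraicIndependent ℚ (fun o : IxG T T' => o.elim w (Sum.elim (vals a b T) (vals3 a' b' T'))) →
  AlgebraicIndependent ℚ (fun o : IxG T T' => o.elim w
    (Sum.elim (fun s => s.elim (fun p => dv a p.1 p.2) (fun p => dv b p.1 p.2))
      (fun s => s.elim (fun p => dv a' p.1 p.2) (fun p => dv b' p.1 p.2))))

/-- INF: from finite sets of points to all points -/
def S_INF : Prop := ∀ a b a' b' : ℕ → ℚ, ∀ w : ℝ,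
  (∀ T T' : Finset ℚ, (∀ t ∈ T, 0 < t) → (∀ t ∈ T', 0 < t) → AlgebraicIndependent ℚ (fun o : IxG T T' => o.elim w
    (Sum.elim (fun s => s.elim (fun p => dv a p.1 p.2) (fun p => dv b p.1 p.2))
      (fun s => s.elim (fun p => dv a' p.1 p.2) (fun p => dv b' p.1 p.2))))) →
  AlgebraicIndependent ℚ (fun o : Option (({p : ℕ × ℚ // p.1 < 4 ∧ 0 < p.2} ⊕ {p : ℕ × ℚ // p.1 < 4 ∧ 0 < p.2}) ⊕
      ({p : ℕ × ℚ // p.1 < 3 ∧ 0 < p.2} ⊕ {p : ℕ × ℚ // p.1 < 3 ∧ 0 < p.2})) => o.elim w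
    (Sum.elim (Sum.elim (fun p => dv a p.1.2 p.1.1) (fun p => dv b p.1.2 p.1.1))
      (Sum.elim (fun p => dv a' p.1.2 p.1.1) (fun p => dv b' p.1.2 p.1.1))))

/-- IV3: linear form of the derivatives for `ζ(2)` -/
def S_IV3 : Prop := ∀ a b : ℕ → ℚ, EFc a → EFc b → (∀ n, Jn2 n = (a n : ℝ) * (Real.pi ^ 2 / 6) - (b n : ℝ)) →
  ∀ (j : ℕ) (t : ℚ), ∑' n : ℕ, Jn2 (n + j) * (t : ℝ) ^ n / (n.factorial : ℝ) =
    (Real.pi ^ 2 / 6) * dv a t j - dv b t j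

end Pool.Agent.E8helper42.AZ
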