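import Mathlib
import Pool.Agent.E8helper42.AZ.FunM2
import Pool.Agent.E8helper42.AZ.Stm6
import Pool.Agent.E8helper51.AZ.P3
import Pool.Agent.E8helper41.AZ.Iv
import Pool.Agent.E8helper48.AZ.Ap2I
import Pool.Agent.E8helper75.AZ.Ssem
import Pool.Agent.E8helper75.AZ.Idm
import Pool.Agent.E8helper77.AZ.KapM
import Pool.Agent.E8helper77.AZ.Kap3
import Pool.Agent.E8helper23.AZ.Exp
import Pool.Agent.E8helper30.AZ.AB3

/-!
# The numbers: `e`, the exponential Apery series for `ζ(3)` and for `ζ(2)`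
-/

set_option autoImplicit false

namespace Pool.Agent.E8helper42.AZ

/-- the pairs `(j, t)`, `j < m`, `t` a positive rational number -/
abbrev Prs (m : ℕ) := {p : ℕ × ℚ // p.1 < m ∧ 0 < p.2}

/-- Apery's numbers, the linear forms and the algebraic independence -/
theorem all_indep_of (hMIX : S_MIX) (hP : S_P3G) (hDVM : S_DVM) (hINF : S_INF) (hIV3 : S_IV3) :
    ∃ a b a' b' : ℕ → ℚ, AperyPair a b ∧ AperyPair2 a' b' ∧ (∀ n, Jn n = (a n : ℝ) * z3 - (b n : ℝ)) ∧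
    (∀ n, Jn2 n = (a' n : ℝ) * (Real.pi ^ 2 / 6) - (b' n : ℝ)) ∧
    (∀ (j : ℕ) (t : ℚ), ∑' n : ℕ, Jn (n + j) * (t : ℝ) ^ n / (n.factorial : ℝ) = z3 * dv a t j - dv b t j) ∧
    (∀ (j : ℕ) (t : ℚ), ∑' n : ℕ, Jn2 (n + j) * (t : ℝ) ^ n / (n.factorial : ℝ) =
      (Real.pi ^ 2 / 6) * dv a' t j - dv b' t j) ∧
    AlgebraicIndependent ℚ (fun o : Option ((Prs 4 ⊕ Prs 4) ⊕ (Prs 3 ⊕ Prs 3)) => o.elim (Real.exp 1)
    (Sum.elim (Sum.elim (fun p => dv a p.1.2 p.1.1) (fun p => dv b p.1.2 p.1.1))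
      (Sum.elim (fun p => dv a' p.1.2 p.1.1) (fun p => dv b' p.1.2 p.1.1)))) := by
  classical
  obtain ⟨a, b, hab, ha, hb, hJ⟩ := E8helper51.AZ.t_AP
  obtain ⟨a', b', hab', ha', hb', hJ'⟩ := E8helper48.AZ.t_AP2
  refine ⟨a, b, a', b', hab, hab', hJ, hJ', E8helper41.AZ.iv a b ha hb hJ, hIV3 a' b' ha' hb' hJ', ?_⟩
  apply hINF
  intro T T' hT hT'
  have h0 : ∀ t ∈ T, t ≠ 0 := fun t ht => (hT t ht).ne'
  have h0' : ∀ t ∈ T', t ≠ 0 := fun t ht => (hT' t ht).ne'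
  apply hDVM a b a' b' ha hb ha' hb' _ T T' h0 h0'
  apply E8helper75.AZ.t_SSEM a b a' b' hab ha hb hab' ha' hb' T T' h0 h0'
  exact t_FUNM hMIX E8helper75.AZ.t_IDM hP E8helper77.AZ.kap3 E8helper77.AZ.kapm E8helper23.AZ.t_EXP
    E8helper30.AZ.t_AB3 a b a' b' hab hab' T T' hT hT'

end Pool.Agent.E8helper42.AZ
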