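import Mathlib
import Pool.Agent.E8helper42.AZ.Pre2
import Pool.Agent.E8helper99.AZ.Mix
import Pool.Agent.E8helper52.AZ3.P3G
import Pool.Agent.E8helper75.AZ.Dvm

/-!
# The numbers, unconditionally
-/

set_option autoImplicit false

namespace Pool.Agent.E8helper42.AZ

/-- Apery's numbers for `ζ(3)` and `ζ(2)`, the linear forms and the algebraic independence -/
theorem all_indep : ∃ a b a' b' : ℕ → ℚ, AperyPair a b ∧ AperyPair2 a' b' ∧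
    (∀ n, Jn n = (a n : ℝ) * z3 - (b n : ℝ)) ∧
    (∀ n, Jn2 n = (a' n : ℝ) * (Real.pi ^ 2 / 6) - (b' n : ℝ)) ∧
    (∀ (j : ℕ) (t : ℚ), ∑' n : ℕ, Jn (n + j) * (t : ℝ) ^ n / (n.factorial : ℝ) = z3 * dv a t j - dv b t j) ∧
    (∀ (j : ℕ) (t : ℚ), ∑' n : ℕ, Jn2 (n + j) * (t : ℝ) ^ n / (n.factorial : ℝ) =
      (Real.pi ^ 2 / 6) * dv a' t j - dv b' t j) ∧
    AlgebraicIndependent ℚ (fun o : Option ((Prs 4 ⊕ Prs 4) ⊕ (Prs 3 ⊕ Prs 3)) => o.elim (Real.exp 1)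
    (Sum.elim (Sum.elim (fun p => dv a p.1.2 p.1.1) (fun p => dv b p.1.2 p.1.1))
      (Sum.elim (fun p => dv a' p.1.2 p.1.1) (fun p => dv b' p.1.2 p.1.1)))) :=
  all_indep_of E8helper99.AZ.mix E8helper52.AZ3.t_P3G E8helper75.AZ.t_DVM E8helper75.AZ.t_INF E8helper75.AZ.t_IV3

end Pool.Agent.E8helper42.AZ
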